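import Mathlib

/-!
Open flexible polygonal chains in three-dimensional space.
-/

namespace Pool.Agent.P.MP_85ac4c_co

/-- Euclidean three-space. -/
abbrev E3 : Type := EuclideanSpace ℝ (Fin 3)

/-- The link number `i` of the chain with joints `v 0, …, v k`. -/
def link {k : ℕ} (v : Fin (k + 1) → E3) (i : Fin k) : Set E3 :=
  segment ℝ (v i.castSucc) (v i.succ)

/-- The links have positive length and the chain does not intersect itself: two different links
meet only if they are consecutive, and then only in their common joint. -/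
def Simple {k : ℕ} (v : Fin (k + 1) → E3) : Prop :=
  (∀ i : Fin k, v i.castSucc ≠ v i.succ) ∧
    ∀ i j : Fin k, i < j → ∀ x ∈ link v i, x ∈ link v j → j.val = i.val + 1 ∧ x = v i.succ

/-- No chain intersects itself and the two chains are disjoint. -/
def Admissible {m k : ℕ} (p : Fin (m + 1) → E3) (v : Fin (k + 1) → E3) : Prop :=
  Simple p ∧ Simple v ∧ ∀ i j, Disjoint (link p i) (link v j)

/-- The chains `v` and `w` have the same link lengths. -/
def SameLengths {k : ℕ} (v w : Fin (k + 1) → E3) : Prop :=
  ∀ i : Fin k, dist (w i.castSucc) (w i.succ) = dist (v i.castSucc) (v i.succ)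

/-- A motion through admissible configurations, with constant link lengths, carries the two
flexible chains to a configuration in which a plane separates them. -/
def Separable {m k : ℕ} (p : Fin (m + 1) → E3) (v : Fin (k + 1) → E3) : Prop :=
  ∃ (P : ℝ → Fin (m + 1) → E3) (W : ℝ → Fin (k + 1) → E3), Continuous P ∧ Continuous W ∧
    P 0 = p ∧ W 0 = v ∧
    (∀ t ∈ Set.Icc (0 : ℝ) 1,
      Admissible (P t) (W t) ∧ SameLengths p (P t) ∧ SameLengths v (W t)) ∧
    ∃ (n : E3) (c : ℝ), (∀ i, inner ℝ n (P 1 i) < c) ∧ ∀ j, c < inner ℝ n (W 1 j)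

end Pool.Agent.P.MP_85ac4c_co
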