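import Pool.Agent.P.MP_85ac4c_co.Real

/-!
A flexible 2-chain cannot interlock with an open flexible chain of at most five links.
-/

namespace Pool.Agent.P.MP_85ac4c_co

open Set Filter Topology

variable {w : Fin 4 → E3} {la : Fin 2 → ℝ} {lv : Fin 5 → ℝ}

theorem Core.surj (h : Core w la lv) (y : E3) (r : ℝ) : ∃ z, NN w z = y ∧ fs z = r := by
  have inj : Function.Injective ((NN w).prod fs) := (injective_iff_map_eq_zero _).2 fun z hz =>
    h.inj z (congrArg Prod.fst hz) (congrArg Prod.snd hz)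
  obtain ⟨z, hz⟩ := (LinearMap.injective_iff_surjective_of_finrank_eq_finrank (by simp)).1 inj (y, r)
  exact ⟨z, congrArg Prod.fst hz, congrArg Prod.snd hz⟩

theorem ep_eq {P D : V} {x y : E3} {L : ℝ} (hP : fs P = 1) (h1 : NN w P = x) (h2 : NN w D = y - x)
    (h3 : fs D = 0) (hL : dist x y = L) (h0 : 0 < L) : dir w P D ≠ 0 ∧ ep w P D L = y := by
  have e1 : dir w P D = y - x := by rw [dir, hP, h3, h2, one_smul, zero_smul, sub_zero]
  have e2 : ‖y - x‖ = L := by rw [← hL, dist_comm, dist_eq_norm]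
  refine ⟨e1 ▸ norm_pos_iff.1 (e2 ▸ h0), ?_⟩
  rw [ep, e1, e2, div_self h0.ne', one_smul, pt, hP, h1, inv_one, one_smul, add_sub_cancel]

theorem free_core {q : Cf} (hq : q ∈ FF la lv)
    (inj : ∀ z, NN ![q.2 1, q.2 2, q.2 3, q.2 4] z = 0 → fs z = 0 → z = 0) :
    ∃ q', JoinedIn (FF la lv) q q' ∧ Sep q' := by
  have pa : ∀ i, 0 < la i := fun i => (dist_pos.2 (hq.1.1.1 i)).trans_eq (hq.2.1 i)
  have pv : ∀ i, 0 < lv i := fun i => (dist_pos.2 (hq.1.2.1.1 i)).trans_eq (hq.2.2 i)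
  have h : Core ![q.2 1, q.2 2, q.2 3, q.2 4] la lv :=
    ⟨inj, pa, pv, hq.2.2 1, hq.2.2 2, hq.2.2 3⟩
  obtain ⟨B, b1, b2⟩ := h.surj (q.1 1) 1
  obtain ⟨A, a1, a2⟩ := h.surj (q.1 0 - q.1 1) 0
  obtain ⟨C, c1, c2⟩ := h.surj (q.1 2 - q.1 1) 0
  obtain ⟨U, u1, u2⟩ := h.surj (q.2 0 - q.2 1) 0
  obtain ⟨W, w1, w2⟩ := h.surj (q.2 5 - q.2 4) 0
  have eA := ep_eq b2 b1 a1 a2 ((dist_comm _ _).trans (hq.2.1 0)) (pa 0)
  have eC := ep_eq b2 b1 c1 c2 (hq.2.1 1) (pa 1)
  have eU := ep_eq (fs_e 0) (NN_e _ 0) u1 u2 ((dist_comm _ _).trans (hq.2.2 0)) (pv 0)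
  have eW := ep_eq (fs_e 3) (NN_e _ 3) w1 w2 (hq.2.2 4) (pv 4)
  have e0 : rl ![q.2 1, q.2 2, q.2 3, q.2 4] la lv (B, A, C, U, W) = q := by
    refine Prod.ext (funext fun i => ?_) (funext fun i => ?_)
    · fin_cases i
      · exact eA.2
      · exact show pt _ B = q.1 1 by rw [pt, b2, b1, inv_one, one_smul]
      · exact eC.2
    · fin_cases i
      exacts [eU.2, rfl, rfl, rfl, rfl, eW.2]
  have := h.free (x := (B, A, C, U, W)) ⟨b2 ▸ one_pos, eA.1, eC.1, eU.1, eW.1⟩ (e0 ▸ hq)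
  rwa [e0] at this

theorem free_five {q : Cf} (hq : q ∈ FF la lv) : ∃ q', JoinedIn (FF la lv) q q' ∧ Sep q' := by
  obtain ⟨p, v⟩ := q
  have pv : ∀ i, 0 < lv i := fun i => (dist_pos.2 (hq.1.2.1.1 i)).trans_eq (hq.2.2 i)
  let u₀ : Fin 3 → E3 := ![v 2 - v 1, v 3 - v 2, v 4 - v 3]
  let l : Fin 3 → ℝ := ![lv 1, lv 2, lv 3]
  have hl : ∀ i, ‖u₀ i‖ = l i := fun i => by
    fin_cases i
    · exact (dist_eq_norm _ _).symm.trans ((dist_comm _ _).trans (hq.2.2 1))
    · exact (dist_eq_norm _ _).symm.trans ((dist_comm _ _).trans (hq.2.2 2))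
    · exact (dist_eq_norm _ _).symm.trans ((dist_comm _ _).trans (hq.2.2 3))
  have l0 : ∀ i, 0 < l i := fun i => by
    fin_cases i
    exacts [pv 1, pv 2, pv 3]
  let u : ℝ → Fin 3 → E3 := fun t i => u₀ i + t • (EuclideanSpace.single i 1 - u₀ i)
  let d : ℝ → Fin 3 → E3 := fun t i => (l i / ‖u t i‖) • u t i
  let Γ : ℝ → Cf := fun t => (p, ![v 0, v 1, v 1 + d t 0, v 1 + d t 0 + d t 1,
    v 1 + d t 0 + d t 1 + d t 2, v 1 + d t 0 + d t 1 + d t 2 + (v 5 - v 4)])
  have hu : ∀ i, Continuous fun t => u t i := fun i => by fun_prop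
  have hd : ∀ t, (∀ i, u t i ≠ 0) → ∀ i, ContinuousAt (fun t => d t i) t := fun t h i =>
    (continuousAt_const.div (hu i).norm.continuousAt (norm_ne_zero_iff.2 (h i))).smul
      (hu i).continuousAt
  have hΓ : ∀ t, (∀ i, u t i ≠ 0) → ContinuousAt Γ t := fun t h => by
    refine continuousAt_const.prodMk (continuousAt_pi.2 fun i => ?_)
    have h0 := hd t h 0
    have h1 := hd t h 1
    have h2 := hd t h 2
    fin_cases i
    · exact continuousAt_const (y := v 0)
    · exact continuousAt_const (y := v 1)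
    · exact (continuousAt_const (y := v 1)).add h0
    · exact ((continuousAt_const (y := v 1)).add h0).add h1
    · exact (((continuousAt_const (y := v 1)).add h0).add h1).add h2
    · exact ((((continuousAt_const (y := v 1)).add h0).add h1).add h2).add
        (continuousAt_const (y := v 5 - v 4))
  have u0 : ∀ i, u 0 i = u₀ i := fun i => by simp [u]
  have n0 : ∀ i, u 0 i ≠ 0 := fun i => by rw [u0, ← norm_pos_iff, hl]; exact l0 i
  have d0 : ∀ i, d 0 i = u₀ i := fun i => by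
    simp only [d, u0, hl, div_self (l0 i).ne', one_smul]
  have Γ0 : Γ 0 = (p, v) := by
    refine Prod.ext rfl (funext fun i => ?_)
    fin_cases i <;> simp [Γ, d0, u₀]
  have dn : ∀ t i, u t i ≠ 0 → ‖d t i‖ = l i := fun t i h => by
    rw [norm_smul, Real.norm_of_nonneg (div_nonneg (l0 i).le (norm_nonneg _)),
      div_mul_cancel₀ _ (norm_ne_zero_iff.2 h)]
  have ev : ∀ᶠ t in 𝓝 (0 : ℝ), (∀ i, u t i ≠ 0) ∧ Admissible (Γ t).1 (Γ t).2 :=
    (eventually_all.2 fun i => (isOpen_ne_fun (hu i) continuous_const).mem_nhds (n0 i)).and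
      ((hΓ 0 n0).eventually (Γ0 ▸ ev_adm (q₀ := (p, v)) hq.1))
  obtain ⟨t, t0, -, tn, H⟩ := pick ev
    (fin_bad (Matrix.of fun i j => u₀ i j) 1 (by simp))
  have J := join (F := FF la lv) Γ t0.le (fun s hs => (hΓ s (H s hs).1).continuousWithinAt)
    (fun s hs => ⟨(H s hs).2, hq.2.1, fun i => by
      fin_cases i
      · exact hq.2.2 0
      · exact (dist_self_add_right _ _).trans (dn s 0 ((H s hs).1 0))
      · exact (dist_self_add_right _ _).trans (dn s 1 ((H s hs).1 1))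
      · exact (dist_self_add_right _ _).trans (dn s 2 ((H s hs).1 2))
      · exact (dist_self_add_right _ _).trans
          ((dist_eq_norm _ _).symm.trans ((dist_comm _ _).trans (hq.2.2 4)))⟩)
  rw [Γ0] at J
  obtain ⟨q', h1, h2⟩ := free_core J.target_mem fun z z1 z2 => by
    have ht := (H t (right_mem_Icc.2 t0.le)).1
    have c0 : ∀ i, l i / ‖u t i‖ ≠ 0 := fun i =>
      div_ne_zero (l0 i).ne' (norm_ne_zero_iff.2 (ht i))
    have e1 : (z 1 + z 2 + z 3) • d t 0 + (z 2 + z 3) • d t 1 + z 3 • d t 2 = 0 := by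
      change z 0 • v 1 + z 1 • (v 1 + d t 0) + z 2 • (v 1 + d t 0 + d t 1) +
        z 3 • (v 1 + d t 0 + d t 1 + d t 2) = 0 at z1
      rw [fs_apply] at z2
      linear_combination (norm := module) z1 - z2 • v 1
    have e2 : (![(z 1 + z 2 + z 3) * (l 0 / ‖u t 0‖), (z 2 + z 3) * (l 1 / ‖u t 1‖),
        z 3 * (l 2 / ‖u t 2‖)] : Fin 3 → ℝ) = 0 := by
      by_contra hn
      refine tn (Matrix.exists_vecMul_eq_zero_iff.1 ⟨_, hn, funext fun j => ?_⟩)
      have := congrArg (fun y : E3 => y j) e1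
      simp only [d, smul_smul] at this
      generalize l 0 / ‖u t 0‖ = r0 at this ⊢
      generalize l 1 / ‖u t 1‖ = r1 at this ⊢
      generalize l 2 / ‖u t 2‖ = r2 at this ⊢
      simpa [Matrix.vecMul, dotProduct, Fin.sum_univ_three, u, Matrix.one_apply, eq_comm,
        mul_add] using this
    have f3 : z 3 = 0 := (mul_eq_zero.1 (congrFun e2 2)).resolve_right (c0 2)
    have f2 : z 2 + z 3 = 0 := (mul_eq_zero.1 (congrFun e2 1)).resolve_right (c0 1)
    have f1 : z 1 + z 2 + z 3 = 0 := (mul_eq_zero.1 (congrFun e2 0)).resolve_right (c0 0)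
    rw [fs_apply] at z2
    funext j
    fin_cases j <;> simp <;> linarith
  exact ⟨q', J.trans h1, h2⟩

theorem five (p : Fin 3 → E3) (v : Fin 6 → E3) (h : Admissible p v) : Separable p v := by
  obtain ⟨q, ⟨γ, hγ⟩, n, c, h1, h2⟩ := free_five (q := (p, v))
    (la := fun i => dist (p i.castSucc) (p i.succ))
    (lv := fun i => dist (v i.castSucc) (v i.succ)) ⟨h, fun _ => rfl, fun _ => rfl⟩
  refine ⟨fun t => (γ.extend t).1, fun t => (γ.extend t).2, by fun_prop, by fun_prop, by simp,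
    by simp, fun t ht => ?_, n, c, by simpa using h1, by simpa using h2⟩
  simp only [γ.extend_apply ht]
  exact hγ _

theorem upto (k : ℕ) (h1 : 1 ≤ k) (h5 : k ≤ 5) (p : Fin 3 → E3) (v : Fin (k + 1) → E3)
    (h : Admissible p v) : Separable p v := by
  have step : ∀ m : ℕ, (∀ v : Fin (m + 3) → E3, Admissible p v → Separable p v) →
      ∀ v : Fin (m + 2) → E3, Admissible p v → Separable p v := fun m H v hv =>
    let ⟨_, hx⟩ := extend hv
    restrict (H _ hx)
  have s5 := five p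
  have s4 := step 3 s5
  have s3 := step 2 s4
  have s2 := step 1 s3
  have s1 := step 0 s2
  interval_cases k
  exacts [s1 v h, s2 v h, s3 v h, s4 v h, s5 v h]

end Pool.Agent.P.MP_85ac4c_co
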