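import Mathlib

/-!
A flexible 2-chain and an open flexible 5-chain: the projective model.  Points are written in
homogeneous barycentric coordinates with respect to the four inner joints of the 5-chain.
-/

namespace Pool.Agent.P.MP_85ac4c_co

open Set

abbrev V : Type := Fin 4 → ℝ

/-- the sum of the coordinates -/
def fs : V →ₗ[ℝ] ℝ where
  toFun z := z 0 + z 1 + z 2 + z 3
  map_add' x y := by simp only [Pi.add_apply]; ring
  map_smul' c x := by simp only [Pi.smul_apply, smul_eq_mul, RingHom.id_apply]; ring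

theorem fs_apply (z : V) : fs z = z 0 + z 1 + z 2 + z 3 := rfl

def e (i : Fin 4) : V := Pi.single i 1

theorem fs_e (i : Fin 4) : fs (e i) = 1 := by fin_cases i <;> simp [fs_apply, e]

def Sk (P Q R S : V) : Prop :=
  ∀ a b c d : ℝ, a • P + b • Q + c • R + d • S = 0 → a = 0 ∧ b = 0 ∧ c = 0 ∧ d = 0

def I3 (P Q R : V) : Prop := ∀ a b c : ℝ, a • P + b • Q + c • R = 0 → a = 0 ∧ b = 0 ∧ c = 0

def Pl (P Q : V) : Set V := {z | fs z = 1 ∧ ∃ β t : ℝ, z = β • P + t • Q}

def Ray (P D : V) : Set V := {z | fs z = 1 ∧ ∃ β t : ℝ, 0 ≤ t ∧ z = β • P + t • D}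

def Seg (P Q : V) : Set V := {z | fs z = 1 ∧ ∃ β t : ℝ, 0 ≤ β ∧ 0 ≤ t ∧ z = β • P + t • Q}

theorem ray_sub (P D : V) : Ray P D ⊆ Pl P D := fun _ ⟨h, β, t, _, e⟩ => ⟨h, β, t, e⟩

theorem seg_sub (P D : V) : Seg P D ⊆ Pl P D := fun _ ⟨h, β, t, _, _, e⟩ => ⟨h, β, t, e⟩

theorem Sk.disj {P Q R S : V} (h : Sk P Q R S) : Disjoint (Pl P Q) (Pl R S) := by
  refine disjoint_left.2 ?_
  rintro z ⟨h1, β, t, rfl⟩ ⟨-, γ, s, e⟩
  obtain ⟨rfl, rfl, -⟩ := h β t (-γ) (-s) (by rw [e]; module)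
  simp at h1

theorem I3.inter {P Q R : V} (h : I3 P Q R) {z : V} (h1 : z ∈ Pl P Q) (h2 : z ∈ Pl P R) :
    z = (fs P)⁻¹ • P := by
  obtain ⟨h1, β, t, rfl⟩ := h1
  obtain ⟨-, γ, s, e⟩ := h2
  obtain ⟨-, rfl, -⟩ := h (β - γ) t (-s) (by linear_combination (norm := module) e)
  rw [zero_smul, add_zero] at h1 ⊢
  rw [map_smul, smul_eq_mul] at h1
  rw [eq_inv_of_mul_eq_one_left h1]

theorem I3.swap {P Q R : V} (h : I3 P Q R) : I3 P R Q := fun a b c e => by
  obtain ⟨h1, h2, h3⟩ := h a c b (by linear_combination (norm := module) e)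
  exact ⟨h1, h3, h2⟩

theorem Sk.i3 {P Q R S : V} (h : Sk P Q R S) : I3 P Q R := fun a b c e => by
  obtain ⟨h1, h2, h3, -⟩ := h a b c 0 (by linear_combination (norm := module) e)
  exact ⟨h1, h2, h3⟩

theorem Sk.i3' {P Q R S : V} (h : Sk P Q R S) : I3 P Q S := fun a b c e => by
  obtain ⟨h1, h2, -, h3⟩ := h a b 0 c (by linear_combination (norm := module) e)
  exact ⟨h1, h2, h3⟩

/-- general position of the end links of the long chain -/
structure CG (U W : V) : Prop where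
  h1 : Sk (e 0) U (e 1) (e 2)
  h2 : Sk (e 0) U (e 2) (e 3)
  h3 : Sk (e 0) U (e 3) W
  h4 : Sk (e 3) W (e 0) (e 1)
  h5 : Sk (e 3) W (e 1) (e 2)

/-- general position of the line through `B` and `D` -/
structure LG (B D U W : V) : Prop where
  h1 : Sk B D (e 0) U
  h2 : Sk B D (e 0) (e 1)
  h3 : Sk B D (e 1) (e 2)
  h4 : Sk B D (e 2) (e 3)
  h5 : Sk B D (e 3) W

def Edg : Set V := Seg (e 0) (e 1) ∪ Seg (e 1) (e 2) ∪ Seg (e 2) (e 3)

def Rs (U W : V) : Set V := Ray (e 0) U ∪ Ray (e 3) W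

def Obs (U W : V) : Set V := Edg ∪ Rs U W

structure MA (B A C U W : V) : Prop where
  pos : 0 < fs B
  ind : I3 B A C
  cg : CG U W
  dA : Disjoint (Ray B A) (Obs U W)
  dC : Disjoint (Ray B C) (Obs U W)

structure GP (B A C U W : V) : Prop where
  ind : I3 B A C
  cg : CG U W
  lA : LG B A U W
  lC : LG B C U W

abbrev St : Type := V × V × V × V × V

def MS : Set St := {x | MA x.1 x.2.1 x.2.2.1 x.2.2.2.1 x.2.2.2.2}

variable {B A C U W : V}

theorem LG.disj {D : V} (h : LG B D U W) : Disjoint (Pl B D) (Obs U W) := by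
  simp only [Obs, Edg, Rs, disjoint_union_right]
  exact ⟨⟨⟨h.h2.disj.mono_right (seg_sub _ _), h.h3.disj.mono_right (seg_sub _ _)⟩,
    h.h4.disj.mono_right (seg_sub _ _)⟩, h.h1.disj.mono_right (ray_sub _ _),
    h.h5.disj.mono_right (ray_sub _ _)⟩

theorem GP.ma (h : GP B A C U W) (hp : 0 < fs B) : MA B A C U W :=
  ⟨hp, h.ind, h.cg, h.lA.disj.mono_left (ray_sub _ _), h.lC.disj.mono_left (ray_sub _ _)⟩

theorem GP.swap (h : GP B A C U W) : GP B C A U W := ⟨h.ind.swap, h.cg, h.lC, h.lA⟩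

theorem MA.swap (h : MA B A C U W) : MA B C A U W := ⟨h.pos, h.ind.swap, h.cg, h.dC, h.dA⟩

theorem join {X : Type} [TopologicalSpace X] {F : Set X} (Γ : ℝ → X) {a b : ℝ} (hab : a ≤ b)
    (hc : ContinuousOn Γ (Icc a b)) (h : ∀ t ∈ Icc a b, Γ t ∈ F) : JoinedIn F (Γ a) (Γ b) :=
  ((((convex_Icc a b).isPathConnected ⟨a, left_mem_Icc.2 hab⟩).image' hc).joinedIn _
    (mem_image_of_mem _ (left_mem_Icc.2 hab)) _ (mem_image_of_mem _ (right_mem_Icc.2 hab))).mono
    (image_subset_iff.2 h)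

/-- the joint of the short chain can be moved to the boundary of the tetrahedron -/
def Out (x : St) : Prop := ∃ y : St, JoinedIn MS x y ∧ ∃ j, y.1 j ≤ 0

theorem Out.of_join {x y : St} (h : JoinedIn MS x y) (hy : Out y) : Out x :=
  let ⟨z, hz, e⟩ := hy
  ⟨z, h.trans hz, e⟩

theorem Out.swap (h : Out (B, C, A, U, W)) : Out (B, A, C, U, W) := by
  obtain ⟨y, hy, j, hj⟩ := h
  refine ⟨(y.1, y.2.2.1, y.2.1, y.2.2.2), ?_, j, hj⟩
  refine (hy.map (f := fun x : St => ((x.1, x.2.2.1, x.2.1, x.2.2.2) : St))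
    (by fun_prop)).mono ?_
  rintro _ ⟨x, hx, rfl⟩
  exact MA.swap hx

/-! ### scaling the coordinates -/

def Like (l P P' : V) : Prop := ∃ c : ℝ, c ≠ 0 ∧ c • P' = l * P

theorem like_mul (l P : V) : Like l P (l * P) := ⟨1, one_ne_zero, one_smul _ _⟩

theorem like_e {l : V} (hl : ∀ i, 0 < l i) (i : Fin 4) : Like l (e i) (e i) :=
  ⟨l i, (hl i).ne', by
    funext j
    by_cases h : j = i <;> simp [e, h]⟩

theorem Sk.tr {l P Q R S P' Q' R' S' : V} (hl : ∀ i, 0 < l i) (h : Sk P Q R S) (h1 : Like l P P')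
    (h2 : Like l Q Q') (h3 : Like l R R') (h4 : Like l S S') : Sk P' Q' R' S' := by
  obtain ⟨p, hp, e1⟩ := h1
  obtain ⟨q, hq, e2⟩ := h2
  obtain ⟨r, hr, e3⟩ := h3
  obtain ⟨s, hs, e4⟩ := h4
  intro a b c d H
  have := h (a / p) (b / q) (c / r) (d / s) (by
    funext i
    have f1 := congrFun e1 i
    have f2 := congrFun e2 i
    have f3 := congrFun e3 i
    have f4 := congrFun e4 i
    have f5 := congrFun H i
    simp only [Pi.add_apply, Pi.smul_apply, smul_eq_mul, Pi.mul_apply, Pi.zero_apply] at *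
    refine mul_left_cancel₀ (hl i).ne' ?_
    have : l i * (a / p * P i + b / q * Q i + c / r * R i + d / s * S i) =
        a / p * (l i * P i) + b / q * (l i * Q i) + c / r * (l i * R i) + d / s * (l i * S i) := by
      ring
    rw [this, ← f1, ← f2, ← f3, ← f4, mul_zero, ← f5]
    field_simp)
  simpa [hp, hq, hr, hs] using this

theorem I3.sc {l P Q R : V} (hl : ∀ i, 0 < l i) (h : I3 P Q R) : I3 (l * P) (l * Q) (l * R) :=
  fun a b c H => h a b c (by
    funext i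
    have f5 := congrFun H i
    simp only [Pi.add_apply, Pi.smul_apply, smul_eq_mul, Pi.mul_apply, Pi.zero_apply] at *
    refine mul_left_cancel₀ (hl i).ne' ?_
    linear_combination f5)

theorem LG.sc {l D : V} (hl : ∀ i, 0 < l i) (h : LG B D U W) :
    LG (l * B) (l * D) (l * U) (l * W) :=
  ⟨h.h1.tr hl (like_mul _ _) (like_mul _ _) (like_e hl _) (like_mul _ _),
    h.h2.tr hl (like_mul _ _) (like_mul _ _) (like_e hl _) (like_e hl _),
    h.h3.tr hl (like_mul _ _) (like_mul _ _) (like_e hl _) (like_e hl _),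
    h.h4.tr hl (like_mul _ _) (like_mul _ _) (like_e hl _) (like_e hl _),
    h.h5.tr hl (like_mul _ _) (like_mul _ _) (like_e hl _) (like_mul _ _)⟩

theorem GP.sc {l : V} (hl : ∀ i, 0 < l i) (h : GP B A C U W) :
    GP (l * B) (l * A) (l * C) (l * U) (l * W) :=
  ⟨h.ind.sc hl, ⟨h.cg.h1.tr hl (like_e hl _) (like_mul _ _) (like_e hl _) (like_e hl _),
    h.cg.h2.tr hl (like_e hl _) (like_mul _ _) (like_e hl _) (like_e hl _),
    h.cg.h3.tr hl (like_e hl _) (like_mul _ _) (like_e hl _) (like_mul _ _),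
    h.cg.h4.tr hl (like_e hl _) (like_mul _ _) (like_e hl _) (like_e hl _),
    h.cg.h5.tr hl (like_e hl _) (like_mul _ _) (like_e hl _) (like_e hl _)⟩,
    h.lA.sc hl, h.lC.sc hl⟩

/-- multiply the coordinate `j` by `1 + s` -/
def lam (j : Fin 4) (s : ℝ) : V := 1 + s • e j

theorem lam_pos (j : Fin 4) {s : ℝ} (hs : 0 ≤ s) (i : Fin 4) : 0 < lam j s i := by
  by_cases h : i = j <;> simp [lam, e, h]
  linarith

theorem fs_lam (j : Fin 4) (s : ℝ) (z : V) : fs (lam j s * z) = fs z + s * z j := by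
  fin_cases j <;> simp [lam, e, fs_apply] <;> ring

theorem join_lam (h : GP B A C U W) (j : Fin 4) {s : ℝ} (hs : 0 ≤ s) (h0 : 0 < fs B)
    (h1 : 0 < fs B + s * B j) : JoinedIn MS (B, A, C, U, W)
      (lam j s * B, lam j s * A, lam j s * C, lam j s * U, lam j s * W) := by
  have := join (F := MS) (fun t : ℝ =>
    ((lam j t * B, lam j t * A, lam j t * C, lam j t * U, lam j t * W) : St)) hs
    (Continuous.continuousOn (by unfold lam; fun_prop)) (fun t ht => by
      refine (h.sc (lam_pos j ht.1)).ma ?_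
      rw [fs_lam]
      rcases le_total 0 (B j) with hb | hb
      · have := mul_nonneg ht.1 hb
        linarith
      · have := mul_le_mul_of_nonpos_right ht.2 hb
        linarith)
  simpa [lam] using this

end Pool.Agent.P.MP_85ac4c_co
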