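import Mathlib

/-!
The affine part of the lock of a 2-chain with a 9-chain.  One half of the 9-chain has joints
`0, …, 5` with coordinates `s, t` along the two links of the 2-chain and height `z`.
-/

set_option autoImplicit false

namespace Pool.Agent.P.MP_85ac4c_co.Nine

/-- the point with parameter `θ` on the link from joint `i` to joint `i + 1` -/
def ip (u : ℕ → ℝ) (i : ℕ) (θ : ℝ) : ℝ := u i + θ * (u (i + 1) - u i)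

/-- determinant of the vectors from joint `4` to the joints `i, j, k` -/
def dd (s t z : ℕ → ℝ) (i j k : ℕ) : ℝ :=
  (s i - s 4) * ((t j - t 4) * (z k - z 4) - (z j - z 4) * (t k - t 4))
  - (t i - t 4) * ((s j - s 4) * (z k - z 4) - (z j - z 4) * (s k - s 4))
  + (z i - z 4) * ((s j - s 4) * (t k - t 4) - (t j - t 4) * (s k - s 4))

/-- the open pattern of crossings -/
def HO (s t z : ℕ → ℝ) : Prop :=
  z 0 < 0 ∧ 0 < z 1 ∧ z 2 < 0 ∧ 0 < z 3 ∧ z 4 < 0 ∧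
  z 1 * s 0 - z 0 * s 1 < 0 ∧ 0 < z 1 * s 2 - z 2 * s 1 ∧ 0 < z 1 * t 2 - z 2 * t 1 ∧
  z 3 * t 2 - z 2 * t 3 < 0 ∧ 0 < z 3 * s 4 - z 4 * s 3 ∧ 0 < z 3 * t 4 - z 4 * t 3 ∧
  0 < z 5 * s 4 - z 4 * s 5 ∧ 0 < z 5 * t 4 - z 4 * t 5 ∧
  0 < dd s t z 3 5 1 ∧ dd s t z 3 5 0 < 0 ∧ 0 < dd s t z 5 1 0 ∧ dd s t z 3 1 0 < 0 ∧
  dd s t z 3 5 1 * z 0 - dd s t z 3 5 0 * z 1 < 0

/-- a point of the triangle below the plane -/
def tri (u w : ℕ → ℝ) : ℝ := u 4 + w 6 * (ip u 3 (w 3) - u 4) + w 7 * (ip u 4 (w 4) - u 4)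

/-- the closed pattern of crossings, with witnesses -/
def HC (s t z w : ℕ → ℝ) : Prop :=
  z 0 ≤ 0 ∧ 0 ≤ z 1 ∧ z 2 ≤ 0 ∧ 0 ≤ z 3 ∧ z 4 ≤ 0 ∧ 0 ≤ z 5 ∧
  ip z 0 (w 0) = 0 ∧ ip z 1 (w 1) = 0 ∧ ip z 2 (w 2) = 0 ∧ ip z 3 (w 3) = 0 ∧ ip z 4 (w 4) = 0 ∧
  ip s 0 (w 0) ≤ 0 ∧ 0 ≤ ip t 0 (w 0) ∧ 0 ≤ ip s 1 (w 1) ∧ 0 ≤ ip t 1 (w 1) ∧
  0 ≤ ip s 2 (w 2) ∧ ip t 2 (w 2) ≤ 0 ∧ 0 ≤ ip s 3 (w 3) ∧ 0 ≤ ip t 3 (w 3) ∧
  0 ≤ ip s 4 (w 4) ∧ 0 ≤ ip t 4 (w 4) ∧ w 6 + w 7 ≤ 1 ∧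
  ip s 0 (w 5) = tri s w ∧ ip t 0 (w 5) = tri t w ∧ ip z 0 (w 5) = tri z w ∧
  0 ≤ dd s t z 3 5 1 ∧ min (s 1) (s 4) ≤ 0

/-- points on the two rays from the apex -/
def Bad (s t z : ℝ) : Prop := z = 0 ∧ ((s = 0 ∧ 0 ≤ t) ∨ (t = 0 ∧ 0 ≤ s))

theorem ip_zero (u : ℕ → ℝ) (i : ℕ) : ip u i 0 = u i := by simp [ip]

theorem ip_one (u : ℕ → ℝ) (i : ℕ) : ip u i 1 = u (i + 1) := by simp [ip]

theorem ivt (s0 t0 s1 t1 : ℝ) (h0 : 0 ≤ s0) (h1 : 0 ≤ t0) (h2 : s1 ≤ 0 ∨ t1 ≤ 0) :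
    ∃ μ ∈ Set.Icc (0 : ℝ) 1, Bad (s0 + μ * (s1 - s0)) (t0 + μ * (t1 - t0)) 0 := by
  have hc : ContinuousOn (fun μ : ℝ => min (s0 + μ * (s1 - s0)) (t0 + μ * (t1 - t0)))
      (Set.Icc 0 1) := by fun_prop
  have := intermediate_value_Icc' (zero_le_one' ℝ) hc
  obtain ⟨μ, hμ, h⟩ := @this 0 ⟨by
    simp only [one_mul, add_sub_cancel]
    exact min_le_iff.mpr h2, by simpa using ⟨h0, h1⟩⟩
  refine ⟨μ, hμ, rfl, ?_⟩
  simp only at h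
  rcases le_total (s0 + μ * (s1 - s0)) (t0 + μ * (t1 - t0)) with h3 | h3
  · rw [min_eq_left h3] at h
    exact Or.inl ⟨h, h ▸ h3⟩
  · rw [min_eq_right h3] at h
    exact Or.inr ⟨h, h ▸ h3⟩

theorem seg {s t z : ℕ → ℝ} {i : ℕ}
    (nb : ∀ θ ∈ Set.Icc (0 : ℝ) 1, ¬ Bad (ip s i θ) (ip t i θ) (ip z i θ)) {a b : ℝ}
    (ha : a ∈ Set.Icc (0 : ℝ) 1) (hb : b ∈ Set.Icc (0 : ℝ) 1) (za : ip z i a = 0)
    (zb : ip z i b = 0) (h0 : 0 ≤ ip s i a) (h1 : 0 ≤ ip t i a)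
    (h2 : ip s i b ≤ 0 ∨ ip t i b ≤ 0) : False := by
  obtain ⟨μ, hμ, h⟩ := ivt _ _ _ _ h0 h1 h2
  have e : ∀ u : ℕ → ℝ, ip u i (a + μ * (b - a)) = ip u i a + μ * (ip u i b - ip u i a) := by
    intro u
    unfold ip
    ring
  refine nb (a + μ * (b - a)) ⟨?_, ?_⟩ ?_
  · nlinarith [ha.1, ha.2, hb.1, hb.2, hμ.1, hμ.2]
  · nlinarith [ha.1, ha.2, hb.1, hb.2, hμ.1, hμ.2]
  · rw [e, e, e, za, zb]
    simpa using h

theorem cr {u z : ℕ → ℝ} {i : ℕ} {θ : ℝ} (h : ip z i θ = 0) :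
    z (i + 1) * u i - z i * u (i + 1) = (z (i + 1) - z i) * ip u i θ := by
  unfold ip at *
  linear_combination (u i - u (i + 1)) * h

theorem loop {z1 z2 z3 z4 zt u1 u2 u3 u4 ut : ℝ} (h1 : 0 < z1) (h2 : z2 < 0) (h3 : 0 < z3)
    (h4 : z4 < 0) (ht : zt < 0) (c12 : 0 < z1 * u2 - z2 * u1) (c23 : z3 * u2 - z2 * u3 ≤ 0)
    (c34 : 0 < z3 * u4 - z4 * u3) (c1 : z1 * ut - zt * u1 ≤ 0) (c4 : ut * z4 ≤ u4 * zt) :
    False := by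
  obtain ⟨r1, rfl⟩ : ∃ r, u1 = r * z1 := ⟨u1 / z1, by field_simp⟩
  obtain ⟨r2, rfl⟩ : ∃ r, u2 = r * z2 := ⟨u2 / z2, by rw [div_mul_cancel₀ _ h2.ne]⟩
  obtain ⟨r3, rfl⟩ : ∃ r, u3 = r * z3 := ⟨u3 / z3, by field_simp⟩
  obtain ⟨r4, rfl⟩ : ∃ r, u4 = r * z4 := ⟨u4 / z4, by rw [div_mul_cancel₀ _ h4.ne]⟩
  obtain ⟨rt, rfl⟩ : ∃ r, ut = r * zt := ⟨ut / zt, by rw [div_mul_cancel₀ _ ht.ne]⟩
  have a12 : r2 < r1 := by
    by_contra h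
    linarith [mul_nonneg (sub_nonneg.mpr (not_lt.mp h)) (mul_pos h1 (neg_pos.mpr h2)).le]
  have a23 : r3 ≤ r2 := by
    by_contra h
    linarith [mul_pos (sub_pos.mpr (not_le.mp h)) (mul_pos h3 (neg_pos.mpr h2))]
  have a34 : r4 < r3 := by
    by_contra h
    linarith [mul_nonneg (sub_nonneg.mpr (not_lt.mp h)) (mul_pos h3 (neg_pos.mpr h4)).le]
  have a1 : r1 ≤ rt := by
    by_contra h
    linarith [mul_pos (sub_pos.mpr (not_le.mp h)) (mul_pos h1 (neg_pos.mpr ht))]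
  have a4 : rt ≤ r4 := by
    by_contra h
    linarith [mul_pos (sub_pos.mpr (not_le.mp h)) (mul_pos_of_neg_of_neg h4 ht)]
  linarith

theorem par {a b : ℝ} (h : a * b ≤ 0) (hab : a ≠ b) :
    ∃ θ ∈ Set.Icc (0 : ℝ) 1, a + θ * (b - a) = 0 := by
  have hc : ContinuousOn (fun θ : ℝ => a + θ * (b - a)) (Set.Icc 0 1) := by fun_prop
  rcases lt_or_gt_of_ne hab with h1 | h1
  · exact intermediate_value_Icc (zero_le_one' ℝ) hc ⟨by simp; nlinarith, by simp; nlinarith⟩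
  · exact intermediate_value_Icc' (zero_le_one' ℝ) hc ⟨by simp; nlinarith, by simp; nlinarith⟩

theorem pp {c x : ℝ} (hc : 0 < c) (h : 0 < c * x) : 0 < x := (mul_pos_iff_of_pos_left hc).mp h

theorem pn {c x : ℝ} (hc : 0 < c) (h : c * x < 0) : x < 0 := by
  by_contra h1
  linarith [mul_nonneg hc.le (not_lt.mp h1)]

theorem HC_of_HO {s t z : ℕ → ℝ} (h : HO s t z) (h5 : 0 ≤ z 5) :
    ∃ w ∈ Set.Icc (0 : ℕ → ℝ) 1, HC s t z w := by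
  obtain ⟨z0, z1, z2, z3, z4, c0, c1s, c1t, c2, c3s, c3t, c4s, c4t, d1, d0, df, de, dz⟩ := h
  obtain ⟨w0, b0, e0⟩ := par (mul_neg_of_neg_of_pos z0 z1).le (by linarith)
  obtain ⟨w1, b1, e1⟩ := par (mul_neg_of_pos_of_neg z1 z2).le (by linarith)
  obtain ⟨w2, b2, e2⟩ := par (mul_neg_of_neg_of_pos z2 z3).le (by linarith)
  obtain ⟨w3, b3, e3⟩ := par (mul_neg_of_pos_of_neg z3 z4).le (by linarith)
  obtain ⟨w4, b4, e4⟩ := par (mul_nonpos_of_nonpos_of_nonneg z4.le h5) (by linarith)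
  obtain ⟨w5, b5, e5⟩ := par (mul_neg_of_neg_of_pos d0 d1).le (by linarith)
  have k0 : ∀ u : ℕ → ℝ, z 1 * u 0 - z 0 * u 1 = (z 1 - z 0) * ip u 0 w0 := fun u => cr e0
  have k1 : ∀ u : ℕ → ℝ, z 2 * u 1 - z 1 * u 2 = (z 2 - z 1) * ip u 1 w1 := fun u => cr e1
  have k2 : ∀ u : ℕ → ℝ, z 3 * u 2 - z 2 * u 3 = (z 3 - z 2) * ip u 2 w2 := fun u => cr e2
  have k3 : ∀ u : ℕ → ℝ, z 4 * u 3 - z 3 * u 4 = (z 4 - z 3) * ip u 3 w3 := fun u => cr e3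
  have k4 : ∀ u : ℕ → ℝ, z 5 * u 4 - z 4 * u 5 = (z 5 - z 4) * ip u 4 w4 := fun u => cr e4
  have p3 : 0 < 1 - w3 := by
    rcases eq_or_lt_of_le b3.2 with h | h
    · rw [h] at e3
      linarith
    · linarith
  have p4 : 0 < w4 := by
    rcases eq_or_lt_of_le b4.1 with h | h
    · rw [← h] at e4
      linarith
    · exact h
  have pD : 0 < dd s t z 3 5 1 - dd s t z 3 5 0 := by linarith
  obtain ⟨a, ha⟩ : ∃ a, a * ((1 - w3) * (dd s t z 3 5 1 - dd s t z 3 5 0)) = dd s t z 5 1 0 :=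
    ⟨_, div_mul_cancel₀ _ (mul_pos p3 pD).ne'⟩
  obtain ⟨b, hb⟩ : ∃ b, b * (w4 * (dd s t z 3 5 1 - dd s t z 3 5 0)) = -dd s t z 3 1 0 :=
    ⟨_, div_mul_cancel₀ _ (mul_pos p4 pD).ne'⟩
  have a0 : 0 < a := pp (mul_pos p3 pD) (by rw [mul_comm, ha]; exact df)
  have b0' : 0 < b := pp (mul_pos p4 pD) (by rw [mul_comm, hb]; exact neg_pos.mpr de)
  have th : ∀ u : ℕ → ℝ, dd s t z 3 5 1 * (u 0 - u 4) - dd s t z 3 5 0 * (u 1 - u 4)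
      = dd s t z 5 1 0 * (u 3 - u 4) - dd s t z 3 1 0 * (u 5 - u 4) →
      ip u 0 w5 = u 4 + a * (ip u 3 w3 - u 4) + b * (ip u 4 w4 - u 4) := by
    intro u hu
    apply mul_left_cancel₀ pD.ne'
    unfold ip
    linear_combination hu + (u 1 - u 0) * e5 - (u 3 - u 4) * ha - (u 5 - u 4) * hb
  have ts := th s (by unfold dd; ring)
  have tt := th t (by unfold dd; ring)
  have tz := th z (by unfold dd; ring)
  have f3 : ip z 3 w3 = 0 := e3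
  have f4 : ip z 4 w4 = 0 := e4
  have zt : ip z 0 w5 < 0 := by
    have : (dd s t z 3 5 1 - dd s t z 3 5 0) * ip z 0 w5
        = dd s t z 3 5 1 * z 0 - dd s t z 3 5 0 * z 1 := by
      unfold ip
      linear_combination (z 1 - z 0) * e5
    exact pn pD (by rw [this]; exact dz)
  have ab : a + b < 1 := by
    rw [tz, f3, f4] at zt
    by_contra h
    linarith [mul_nonneg (sub_nonneg.mpr (not_lt.mp h)) (neg_pos.mpr z4).le]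
  have q0 : 0 < z 1 - z 0 := by linarith
  have q1 : 0 < z 1 - z 2 := by linarith
  have q2 : 0 < z 3 - z 2 := by linarith
  have q3 : 0 < z 3 - z 4 := by linarith
  have q4 : 0 < z 5 - z 4 := by linarith
  have s0 : ip s 0 w0 < 0 := pn q0 (by linarith [k0 s])
  have s1 : 0 < ip s 1 w1 := pp q1 (by linarith [k1 s])
  have t1 : 0 < ip t 1 w1 := pp q1 (by linarith [k1 t])
  have t2 : ip t 2 w2 < 0 := pn q2 (by linarith [k2 t])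
  have s3 : 0 < ip s 3 w3 := pp q3 (by linarith [k3 s])
  have t3 : 0 < ip t 3 w3 := pp q3 (by linarith [k3 t])
  have s4 : 0 < ip s 4 w4 := pp q4 (by linarith [k4 s])
  have t4 : 0 < ip t 4 w4 := pp q4 (by linarith [k4 t])
  have l1 : ∀ u : ℕ → ℝ, z 1 * ip u 0 w5 - ip z 0 w5 * u 1
      = (1 - w5) * (z 1 * u 0 - z 0 * u 1) := by
    intro u
    unfold ip
    ring
  have l4 : ∀ u : ℕ → ℝ, ip u 0 w5 = u 4 + a * (ip u 3 w3 - u 4) + b * (ip u 4 w4 - u 4) →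
      0 < ip u 3 w3 → 0 < ip u 4 w4 → ip u 0 w5 * z 4 ≤ u 4 * ip z 0 w5 := by
    intro u h1 h2 h3
    rw [h1, tz, f3, f4]
    linarith [mul_pos (mul_pos a0 h2) (neg_pos.mpr z4), mul_pos (mul_pos b0' h3) (neg_pos.mpr z4)]
  have p5 : 0 ≤ 1 - w5 := sub_nonneg.mpr b5.2
  have t0 : 0 ≤ ip t 0 w0 := by
    by_contra h
    refine loop z1 z2 z3 z4 zt c1t c2.le c3t ?_ (l4 t tt t3 t4)
    rw [l1, k0]
    exact mul_nonpos_of_nonneg_of_nonpos p5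
      (mul_nonpos_of_nonneg_of_nonpos (by linarith) (not_le.mp h).le)
  have s2 : 0 ≤ ip s 2 w2 := by
    by_contra h
    refine loop z1 z2 z3 z4 zt c1s ?_ c3s ?_ (l4 s ts s3 s4)
    · rw [k2]
      exact mul_nonpos_of_nonneg_of_nonpos (by linarith) (not_le.mp h).le
    · rw [l1]
      exact mul_nonpos_of_nonneg_of_nonpos p5 c0.le
  have hm : min (s 1) (s 4) ≤ 0 := by
    by_contra h
    rw [not_le, lt_min_iff] at h
    have h1 : z 1 * ip s 0 w5 - ip z 0 w5 * s 1 ≤ 0 := by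
      rw [l1]
      exact mul_nonpos_of_nonneg_of_nonpos p5 c0.le
    have h2 : 0 < ip s 0 w5 := by
      rw [ts]
      linarith [mul_pos a0 s3, mul_pos b0' s4, mul_pos (sub_pos.mpr ab) h.2]
    linarith [mul_pos z1 h2, mul_pos (neg_pos.mpr zt) h.1]
  refine ⟨fun i => if i = 0 then w0 else if i = 1 then w1 else if i = 2 then w2 else
    if i = 3 then w3 else if i = 4 then w4 else if i = 5 then w5 else if i = 6 then a else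
    if i = 7 then b else 0, ⟨fun i => ?_, fun i => ?_⟩, ?_⟩
  · simp only [Pi.zero_apply]
    split_ifs <;> linarith [b0.1, b1.1, b2.1, b3.1, b4.1, b5.1]
  · simp only [Pi.one_apply]
    split_ifs <;> linarith [b0.2, b1.2, b2.2, b3.2, b4.2, b5.2]
  · exact ⟨z0.le, z1.le, z2.le, z3.le, z4.le, h5, e0, e1, e2, e3, e4, s0.le, t0, s1.le, t1.le,
      s2, t2.le, s3.le, t3.le, s4.le, t4.le, ab.le, ts, tt, tz, d1.le, hm⟩

end Pool.Agent.P.MP_85ac4c_co.Nine
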