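import Pool.Agent.P.MP_85ac4c_co.NineA

/-!
The closed pattern of crossings is the open one when the chains do not meet.
-/

set_option autoImplicit false

namespace Pool.Agent.P.MP_85ac4c_co.Nine

open Set

/-- the links `i` and `j` share a point -/
def Mt (s t z : ℕ → ℝ) (i j : ℕ) (a b : ℝ) : Prop :=
  ip s i a = ip s j b ∧ ip t i a = ip t j b ∧ ip z i a = ip z j b

theorem joint {s t z : ℕ → ℝ} {i : ℕ}
    (nb : ∀ θ ∈ Icc (0 : ℝ) 1, ¬ Bad (ip s i θ) (ip t i θ) (ip z i θ))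
    (nb' : ∀ θ ∈ Icc (0 : ℝ) 1, ¬ Bad (ip s (i + 1) θ) (ip t (i + 1) θ) (ip z (i + 1) θ))
    {a b : ℝ} (ha : a ∈ Icc (0 : ℝ) 1) (hb : b ∈ Icc (0 : ℝ) 1) (za : ip z i a = 0)
    (zb : ip z (i + 1) b = 0)
    (h : (0 ≤ ip s i a ∧ 0 ≤ ip t i a ∧ (ip s (i + 1) b ≤ 0 ∨ ip t (i + 1) b ≤ 0)) ∨
      (0 ≤ ip s (i + 1) b ∧ 0 ≤ ip t (i + 1) b ∧ (ip s i a ≤ 0 ∨ ip t i a ≤ 0))) :
    z (i + 1) ≠ 0 := by
  intro hz
  have o0 : (0 : ℝ) ∈ Icc (0 : ℝ) 1 := ⟨le_rfl, zero_le_one⟩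
  have o1 : (1 : ℝ) ∈ Icc (0 : ℝ) 1 := ⟨zero_le_one, le_rfl⟩
  have y0 : ip z (i + 1) 0 = 0 := by rw [ip_zero, hz]
  have y1 : ip z i 1 = 0 := by rw [ip_one, hz]
  by_cases hin : 0 ≤ s (i + 1) ∧ 0 ≤ t (i + 1)
  · rcases h with ⟨-, -, h⟩ | ⟨-, -, h⟩
    · exact seg nb' o0 hb y0 zb (by rw [ip_zero]; exact hin.1) (by rw [ip_zero]; exact hin.2) h
    · exact seg nb o1 ha y1 za (by rw [ip_one]; exact hin.1) (by rw [ip_one]; exact hin.2) h
  · have hout : s (i + 1) ≤ 0 ∨ t (i + 1) ≤ 0 := by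
      rw [not_and_or, not_le, not_le] at hin
      exact hin.imp le_of_lt le_of_lt
    rcases h with ⟨h1, h2, -⟩ | ⟨h1, h2, -⟩
    · exact seg nb ha o1 za y1 h1 h2 (by rw [ip_one, ip_one]; exact hout)
    · exact seg nb' hb o0 zb y0 h1 h2 (by rw [ip_zero, ip_zero]; exact hout)

theorem mixI {x y k : ℝ} (hx : x ∈ Icc (0 : ℝ) 1) (hy : y ∈ Icc (0 : ℝ) 1) (h0 : 0 ≤ k)
    (h1 : k ≤ 1) : x + k * (y - x) ∈ Icc (0 : ℝ) 1 :=
  ⟨by nlinarith [hx.1, hy.1], by nlinarith [hx.2, hy.2]⟩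

theorem mulI {x y : ℝ} (hx : x ∈ Icc (0 : ℝ) 1) (hy : y ∈ Icc (0 : ℝ) 1) :
    x * y ∈ Icc (0 : ℝ) 1 :=
  ⟨mul_nonneg hx.1 hy.1, by nlinarith [hx.1, hy.1, hx.2, hy.2]⟩

theorem subI {x : ℝ} (hx : x ∈ Icc (0 : ℝ) 1) : 1 - x ∈ Icc (0 : ℝ) 1 :=
  ⟨by linarith [hx.2], by linarith [hx.1]⟩

/-- the thread is transversal to the triangle -/
theorem transv {s t z : ℕ → ℝ} {w0 w3 w4 w5 a b : ℝ} (b0 : w0 ∈ Icc (0 : ℝ) 1)
    (b3 : w3 ∈ Icc (0 : ℝ) 1) (b4 : w4 ∈ Icc (0 : ℝ) 1) (b5 : w5 ∈ Icc (0 : ℝ) 1)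
    (a0 : 0 < a) (b0' : 0 < b) (ab : a + b < 1) (p5 : w5 < 1) (z4 : z 4 < 0)
    (e0 : ip z 0 w0 = 0) (e3 : ip z 3 w3 = 0) (e4 : ip z 4 w4 = 0)
    (s0 : ip s 0 w0 < 0) (s3 : 0 < ip s 3 w3) (s4 : 0 < ip s 4 w4)
    (ts : ip s 0 w5 = s 4 + a * (ip s 3 w3 - s 4) + b * (ip s 4 w4 - s 4))
    (tt : ip t 0 w5 = t 4 + a * (ip t 3 w3 - t 4) + b * (ip t 4 w4 - t 4))
    (tz : ip z 0 w5 = z 4 + a * (ip z 3 w3 - z 4) + b * (ip z 4 w4 - z 4))
    (d03 : ∀ x ∈ Icc (0 : ℝ) 1, ∀ y ∈ Icc (0 : ℝ) 1, ¬ Mt s t z 0 3 x y)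
    (d04 : ∀ x ∈ Icc (0 : ℝ) 1, ∀ y ∈ Icc (0 : ℝ) 1, ¬ Mt s t z 0 4 x y)
    (d34 : ∀ x ∈ Icc (0 : ℝ) 1, ∀ y ∈ Icc (0 : ℝ) 1, Mt s t z 3 4 x y → ip z 3 x = z 4)
    (hD : (1 - w5) * dd s t z 3 5 0 + w5 * dd s t z 3 5 1 = 0) : dd s t z 3 5 1 ≠ 0 := by
  intro h1
  have h0 : dd s t z 3 5 0 = 0 := by
    rw [h1, mul_zero, add_zero] at hD
    exact (mul_eq_zero.mp hD).resolve_left (by linarith)
  have col : (ip s 4 w4 - ip s 3 w3) * (ip t 0 w0 - ip t 3 w3)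
      = (ip t 4 w4 - ip t 3 w3) * (ip s 0 w0 - ip s 3 w3) := by
    apply mul_left_cancel₀ z4.ne
    have : ((1 - w3) * w4) * ((1 - w0) * dd s t z 3 5 0 + w0 * dd s t z 3 5 1) =
        (ip s 3 w3 - s 4) * ((ip t 4 w4 - t 4) * (ip z 0 w0 - z 4)
          - (ip z 4 w4 - z 4) * (ip t 0 w0 - t 4))
        - (ip t 3 w3 - t 4) * ((ip s 4 w4 - s 4) * (ip z 0 w0 - z 4)
          - (ip z 4 w4 - z 4) * (ip s 0 w0 - s 4))
        + (ip z 3 w3 - z 4) * ((ip s 4 w4 - s 4) * (ip t 0 w0 - t 4)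
          - (ip t 4 w4 - t 4) * (ip s 0 w0 - s 4)) := by
      unfold dd ip
      ring
    rw [h0, h1, e0, e3, e4] at this
    linear_combination this
  have hs : ip s 4 w4 - ip s 3 w3 ≠ 0 := by
    intro h
    rw [h, zero_mul] at col
    have h2 := (mul_eq_zero.mp col.symm).resolve_right (by linarith)
    have := d34 w3 b3 w4 b4 ⟨by linarith, by linarith, by rw [e3, e4]⟩
    linarith
  obtain ⟨m, hm⟩ : ∃ m, m * (ip s 4 w4 - ip s 3 w3) = ip s 0 w0 - ip s 3 w3 :=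
    ⟨_, div_mul_cancel₀ _ hs⟩
  have hm' : m * (ip t 4 w4 - ip t 3 w3) = ip t 0 w0 - ip t 3 w3 := by
    apply mul_left_cancel₀ hs
    linear_combination (ip t 4 w4 - ip t 3 w3) * hm - col
  have hz' : m * (ip z 4 w4 - ip z 3 w3) = ip z 0 w0 - ip z 3 w3 := by
    rw [e0, e3, e4]
    ring
  rcases lt_or_ge m 0 with m0 | m0
  · obtain ⟨k, hk⟩ : ∃ k, k * (b - m) = b := ⟨_, div_mul_cancel₀ _ (by linarith)⟩
    have k0 : 0 < k := pp (c := b - m) (by linarith) (by linarith)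
    have k1 : k - 1 < 0 := pn (c := b - m) (by linarith) (by linarith)
    have hc : 1 - (1 - k) * (1 - a - b) ∈ Icc (0 : ℝ) 1 :=
      subI (mulI ⟨by linarith, by linarith⟩ ⟨by linarith, by linarith⟩)
    have key : ∀ u : ℕ → ℝ, ip u 0 w5 = u 4 + a * (ip u 3 w3 - u 4) + b * (ip u 4 w4 - u 4) →
        m * (ip u 4 w4 - ip u 3 w3) = ip u 0 w0 - ip u 3 w3 → ip u 0 (w5 + k * (w0 - w5))
          = ip u 3 (1 - (1 - (1 - k) * (1 - a - b)) * (1 - w3)) := by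
      intro u h2 h3
      have e1 : ip u 0 (w5 + k * (w0 - w5)) = ip u 0 w5 + k * (ip u 0 w0 - ip u 0 w5) := by
        unfold ip
        ring
      have e2 : ip u 3 (1 - (1 - (1 - k) * (1 - a - b)) * (1 - w3))
          = u 4 + (1 - (1 - k) * (1 - a - b)) * (ip u 3 w3 - u 4) := by
        unfold ip
        ring
      rw [e1, e2, h2]
      linear_combination (ip u 3 w3 - ip u 4 w4) * hk - k * h3
    exact d03 _ (mixI b5 b0 k0.le (by linarith)) _ (subI (mulI hc (subI b3)))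
      ⟨key s ts hm, key t tt hm', key z tz hz'⟩
  · have m1 : 1 < m := by
      by_contra h
      linarith [mul_nonneg m0 s4.le, mul_nonneg (sub_nonneg.mpr (not_lt.mp h)) s3.le]
    obtain ⟨k, hk⟩ : ∃ k, k * (a + m - 1) = a := ⟨_, div_mul_cancel₀ _ (by linarith)⟩
    have k0 : 0 < k := pp (c := a + m - 1) (by linarith) (by linarith)
    have k1 : k - 1 < 0 := pn (c := a + m - 1) (by linarith) (by linarith)
    have hc : 1 - (1 - k) * (1 - a - b) ∈ Icc (0 : ℝ) 1 :=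
      subI (mulI ⟨by linarith, by linarith⟩ ⟨by linarith, by linarith⟩)
    have key : ∀ u : ℕ → ℝ, ip u 0 w5 = u 4 + a * (ip u 3 w3 - u 4) + b * (ip u 4 w4 - u 4) →
        m * (ip u 4 w4 - ip u 3 w3) = ip u 0 w0 - ip u 3 w3 → ip u 0 (w5 + k * (w0 - w5))
          = ip u 4 ((1 - (1 - k) * (1 - a - b)) * w4) := by
      intro u h2 h3
      have e1 : ip u 0 (w5 + k * (w0 - w5)) = ip u 0 w5 + k * (ip u 0 w0 - ip u 0 w5) := by
        unfold ip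
        ring
      have e2 : ip u 4 ((1 - (1 - k) * (1 - a - b)) * w4)
          = u 4 + (1 - (1 - k) * (1 - a - b)) * (ip u 4 w4 - u 4) := by
        unfold ip
        ring
      rw [e1, e2, h2]
      linear_combination (ip u 4 w4 - ip u 3 w3) * hk - k * h3
    exact d04 _ (mixI b5 b0 k0.le (by linarith)) _ (mulI hc b4)
      ⟨key s ts hm, key t tt hm', key z tz hz'⟩

theorem HO_of_HC {s t z w : ℕ → ℝ} (hw : w ∈ Icc (0 : ℕ → ℝ) 1) (h : HC s t z w)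
    (nb : ∀ i < 5, ∀ θ ∈ Icc (0 : ℝ) 1, ¬ Bad (ip s i θ) (ip t i θ) (ip z i θ))
    (d03 : ∀ x ∈ Icc (0 : ℝ) 1, ∀ y ∈ Icc (0 : ℝ) 1, ¬ Mt s t z 0 3 x y)
    (d04 : ∀ x ∈ Icc (0 : ℝ) 1, ∀ y ∈ Icc (0 : ℝ) 1, ¬ Mt s t z 0 4 x y)
    (d34 : ∀ x ∈ Icc (0 : ℝ) 1, ∀ y ∈ Icc (0 : ℝ) 1, Mt s t z 3 4 x y → ip z 3 x = z 4)
    (h5 : w 5 ≠ 0) : HO s t z := by
  have bw : ∀ i, w i ∈ Icc (0 : ℝ) 1 := fun i => ⟨hw.1 i, hw.2 i⟩
  obtain ⟨z0, z1, z2, z3, z4, z5, e0, e1, e2, e3, e4, s0, t0, s1, t1, s2, t2, s3, t3, s4, t4, ab,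
    ts, tt, tz, d1, -⟩ := h
  unfold tri at ts tt tz
  have n0 := nb 0 (by norm_num)
  have n1 := nb 1 (by norm_num)
  have n2 := nb 2 (by norm_num)
  have n3 := nb 3 (by norm_num)
  have n4 := nb 4 (by norm_num)
  have st : ∀ i < 5, ip z i (w i) = 0 → (0 ≤ ip t i (w i) → ip s i (w i) ≠ 0) ∧
      (0 ≤ ip s i (w i) → ip t i (w i) ≠ 0) := fun i hi h =>
    ⟨fun h1 h2 => nb i hi _ (bw i) ⟨h, Or.inl ⟨h2, h1⟩⟩,
      fun h1 h2 => nb i hi _ (bw i) ⟨h, Or.inr ⟨h2, h1⟩⟩⟩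
  have s0' := lt_of_le_of_ne s0 ((st 0 (by norm_num) e0).1 t0)
  have s1' := lt_of_le_of_ne s1 ((st 1 (by norm_num) e1).1 t1).symm
  have t1' := lt_of_le_of_ne t1 ((st 1 (by norm_num) e1).2 s1).symm
  have t2' := lt_of_le_of_ne t2 ((st 2 (by norm_num) e2).2 s2)
  have s3' := lt_of_le_of_ne s3 ((st 3 (by norm_num) e3).1 t3).symm
  have t3' := lt_of_le_of_ne t3 ((st 3 (by norm_num) e3).2 s3).symm
  have s4' := lt_of_le_of_ne s4 ((st 4 (by norm_num) e4).1 t4).symm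
  have t4' := lt_of_le_of_ne t4 ((st 4 (by norm_num) e4).2 s4).symm
  have z1' : 0 < z 1 := lt_of_le_of_ne z1
    (joint n0 n1 (bw 0) (bw 1) e0 e1 (Or.inr ⟨s1, t1, Or.inl s0⟩)).symm
  have z2' : z 2 < 0 := lt_of_le_of_ne z2
    (joint n1 n2 (bw 1) (bw 2) e1 e2 (Or.inl ⟨s1, t1, Or.inr t2⟩))
  have z3' : 0 < z 3 := lt_of_le_of_ne z3
    (joint n2 n3 (bw 2) (bw 3) e2 e3 (Or.inr ⟨s3, t3, Or.inr t2⟩)).symm
  have a0 := (bw 6).1
  have b0 := (bw 7).1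
  have c0 : 0 ≤ 1 - w 6 - w 7 := by linarith
  have tz' : ip z 0 (w 5) = (1 - w 6 - w 7) * z 4 := by
    rw [tz, e3, e4]
    ring
  have z4' : z 4 < 0 := by
    refine lt_of_le_of_ne z4 fun hz => ?_
    by_cases hin : 0 ≤ s 4 ∧ 0 ≤ t 4
    · refine seg n0 (bw 5) (bw 0) (by rw [tz', hz, mul_zero]) e0 ?_ ?_ (Or.inl s0)
      · rw [ts]
        linarith [mul_nonneg a0 s3, mul_nonneg b0 s4, mul_nonneg c0 hin.1]
      · rw [tt]
        linarith [mul_nonneg a0 t3, mul_nonneg b0 t4, mul_nonneg c0 hin.2]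
    · rw [not_and_or, not_le, not_le] at hin
      refine seg n3 (bw 3) ⟨zero_le_one, le_rfl⟩ e3 (by rw [ip_one, hz]) s3 t3 ?_
      rw [ip_one, ip_one]
      exact hin.imp le_of_lt le_of_lt
  have ab' : w 6 + w 7 < 1 := by
    refine lt_of_le_of_ne ab fun h => ?_
    have h1 : 1 - w 6 - w 7 = 0 := by linarith
    refine seg n0 (bw 5) (bw 0) (by rw [tz', h1, zero_mul]) e0 ?_ ?_ (Or.inl s0)
    · rw [ts]
      linarith [mul_nonneg a0 s3, mul_nonneg b0 s4, (by rw [h1, zero_mul] :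
        (1 - w 6 - w 7) * s 4 = 0)]
    · rw [tt]
      linarith [mul_nonneg a0 t3, mul_nonneg b0 t4, (by rw [h1, zero_mul] :
        (1 - w 6 - w 7) * t 4 = 0)]
  have zt : ip z 0 (w 5) < 0 := by
    rw [tz']
    exact mul_neg_of_pos_of_neg (by linarith) z4'
  have p5 : w 5 < 1 := by
    refine lt_of_le_of_ne (bw 5).2 fun h => ?_
    rw [h, ip_one] at zt
    linarith
  have p5' : 0 < w 5 := lt_of_le_of_ne (bw 5).1 h5.symm
  have q5 : 0 < 1 - w 5 := by linarith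
  have z0' : z 0 < 0 := by
    unfold ip at zt
    exact pn q5 (by linarith [mul_pos p5' z1'])
  have a0' : 0 < w 6 := by
    refine lt_of_le_of_ne a0 fun h => d04 _ (bw 5) _ (mulI (bw 7) (bw 4)) ⟨?_, ?_, ?_⟩
    · rw [ts, ← h]
      unfold ip
      ring
    · rw [tt, ← h]
      unfold ip
      ring
    · rw [tz, ← h]
      unfold ip
      ring
  have b0' : 0 < w 7 := by
    refine lt_of_le_of_ne b0 fun h => d03 _ (bw 5) _ (subI (mulI (bw 6) (subI (bw 3))))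
      ⟨?_, ?_, ?_⟩
    · rw [ts, ← h]
      unfold ip
      ring
    · rw [tt, ← h]
      unfold ip
      ring
    · rw [tz, ← h]
      unfold ip
      ring
  have p3 : 0 < 1 - w 3 := by
    rcases eq_or_lt_of_le (bw 3).2 with h | h
    · rw [h, ip_one] at e3
      linarith
    · linarith
  have p4 : 0 < w 4 := by
    rcases eq_or_lt_of_le (bw 4).1 with h | h
    · rw [← h, ip_zero] at e4
      linarith
    · exact h
  have ts' := ts
  have tt' := tt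
  have tz'' := tz
  unfold ip at ts' tt' tz''
  simp only [Nat.reduceAdd] at ts' tt' tz''
  have hD : (1 - w 5) * dd s t z 3 5 0 + w 5 * dd s t z 3 5 1 = 0 := by
    unfold dd
    linear_combination ((t 3 - t 4) * (z 5 - z 4) - (z 3 - z 4) * (t 5 - t 4)) * ts'
      - ((s 3 - s 4) * (z 5 - z 4) - (z 3 - z 4) * (s 5 - s 4)) * tt'
      + ((s 3 - s 4) * (t 5 - t 4) - (t 3 - t 4) * (s 5 - s 4)) * tz''
  have hf : (1 - w 5) * dd s t z 5 1 0 = w 6 * (1 - w 3) * dd s t z 3 5 1 := by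
    unfold dd
    linear_combination ((t 5 - t 4) * (z 1 - z 4) - (z 5 - z 4) * (t 1 - t 4)) * ts'
      - ((s 5 - s 4) * (z 1 - z 4) - (z 5 - z 4) * (s 1 - s 4)) * tt'
      + ((s 5 - s 4) * (t 1 - t 4) - (t 5 - t 4) * (s 1 - s 4)) * tz''
  have he : (1 - w 5) * dd s t z 3 1 0 = -(w 7 * w 4 * dd s t z 3 5 1) := by
    unfold dd
    linear_combination ((t 3 - t 4) * (z 1 - z 4) - (z 3 - z 4) * (t 1 - t 4)) * ts'
      - ((s 3 - s 4) * (z 1 - z 4) - (z 3 - z 4) * (s 1 - s 4)) * tt'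
      + ((s 3 - s 4) * (t 1 - t 4) - (t 3 - t 4) * (s 1 - s 4)) * tz''
  have d1' : 0 < dd s t z 3 5 1 := lt_of_le_of_ne d1 (transv (bw 0) (bw 3) (bw 4) (bw 5) a0' b0'
    ab' p5 z4' e0 e3 e4 s0' s3' s4' ts tt tz d03 d04 d34 hD).symm
  have hz : (1 - w 5) * (dd s t z 3 5 1 * z 0 - dd s t z 3 5 0 * z 1)
      = dd s t z 3 5 1 * ip z 0 (w 5) := by
    unfold ip
    linear_combination (-z 1) * hD
  have k0 := fun u => cr (u := u) e0
  have k1 := fun u => cr (u := u) e1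
  have k2 := fun u => cr (u := u) e2
  have k3 := fun u => cr (u := u) e3
  have k4 := fun u => cr (u := u) e4
  simp only [Nat.reduceAdd] at k0 k1 k2 k3 k4
  have q0 : 0 < z 1 - z 0 := by linarith
  have q1 : 0 < z 1 - z 2 := by linarith
  have q2 : 0 < z 3 - z 2 := by linarith
  have q3 : 0 < z 3 - z 4 := by linarith
  have q4 : 0 < z 5 - z 4 := by linarith
  refine ⟨z0', z1', z2', z3', z4', ?_, ?_, ?_, ?_, ?_, ?_, ?_, ?_, d1', ?_, ?_, ?_, ?_⟩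
  · rw [k0]
    exact mul_neg_of_pos_of_neg q0 s0'
  · linarith only [k1 s, mul_pos q1 s1']
  · linarith only [k1 t, mul_pos q1 t1']
  · rw [k2]
    exact mul_neg_of_pos_of_neg q2 t2'
  · linarith only [k3 s, mul_pos q3 s3']
  · linarith only [k3 t, mul_pos q3 t3']
  · rw [k4]
    exact mul_pos q4 s4'
  · rw [k4]
    exact mul_pos q4 t4'
  · exact pn q5 (by linarith only [hD, mul_pos p5' d1'])
  · exact pp q5 (by rw [hf]; exact mul_pos (mul_pos a0' p3) d1')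
  · exact pn q5 (by rw [he]; exact neg_neg_of_pos (mul_pos (mul_pos b0' p4) d1'))
  · exact pn q5 (by rw [hz]; exact mul_neg_of_pos_of_neg d1' zt)

theorem open_HO {X : Type} [TopologicalSpace X] {s t z : X → ℕ → ℝ} (hs : Continuous s)
    (ht : Continuous t) (hz : Continuous z) : IsOpen {x | HO (s x) (t x) (z x)} := by
  unfold HO dd
  simp only [ofPred_and]
  repeat' apply IsOpen.inter
  all_goals exact isOpen_lt (by fun_prop) (by fun_prop)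

theorem closed_HC {X : Type} [TopologicalSpace X] {s t z w : X → ℕ → ℝ} (hs : Continuous s)
    (ht : Continuous t) (hz : Continuous z) (hw : Continuous w) :
    IsClosed {x | HC (s x) (t x) (z x) (w x)} := by
  unfold HC dd tri ip
  simp only [ofPred_and]
  repeat' apply IsClosed.inter
  all_goals first
    | exact isClosed_le (by fun_prop) (by fun_prop)
    | exact isClosed_eq (by fun_prop) (by fun_prop)

theorem closed_ex {X : Type} [TopologicalSpace X] (C : X → (ℕ → ℝ) → Prop)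
    (h : IsClosed {y : X × (ℕ → ℝ) | C y.1 y.2}) :
    IsClosed {x | ∃ w ∈ Icc (0 : ℕ → ℝ) 1, C x w} := by
  have : CompactSpace (Icc (0 : ℕ → ℝ) 1) := isCompact_iff_compactSpace.mp isCompact_Icc
  have h1 : IsClosed {y : X × Icc (0 : ℕ → ℝ) 1 | C y.1 y.2} :=
    h.preimage (f := fun y : X × Icc (0 : ℕ → ℝ) 1 => (y.1, (y.2 : ℕ → ℝ))) (by fun_prop)
  convert isClosedMap_fst_of_compactSpace _ h1 using 1
  ext x
  simp

end Pool.Agent.P.MP_85ac4c_co.Nine
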