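import Pool.Agent.P.MP_85ac4c_co.NineB
import Pool.Agent.P.MP_85ac4c_co.Defs

/-!
The metric part of the lock: oblique coordinates attached to the 2-chain.
-/

set_option autoImplicit false

namespace Pool.Agent.P.MP_85ac4c_co.Nine

open Set

/-- scalar product in coordinates -/
def dt (x y : E3) : ℝ := x 0 * y 0 + x 1 * y 1 + x 2 * y 2

/-- the determinant -/
def zl (A B x : E3) : ℝ :=
  A 0 * (B 1 * x 2 - B 2 * x 1) - A 1 * (B 0 * x 2 - B 2 * x 0) + A 2 * (B 0 * x 1 - B 1 * x 0)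

/-- the coordinate along `A`, times the Gram determinant -/
def sl (A B x : E3) : ℝ := dt B B * dt A x - dt A B * dt B x

/-- the Gram determinant -/
def gr (A B : E3) : ℝ := dt A A * dt B B - dt A B ^ 2

theorem dt_self (x : E3) : dt x x = ‖x‖ ^ 2 := by
  rw [EuclideanSpace.real_norm_sq_eq, Fin.sum_univ_three]
  unfold dt
  ring

theorem dt_comm (x y : E3) : dt x y = dt y x := by
  unfold dt
  ring

theorem gr_comm (A B : E3) : gr A B = gr B A := by
  unfold gr dt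
  ring

theorem zl_swap (A B x : E3) : zl B A x = -zl A B x := by
  unfold zl
  ring

theorem ident (A B U : E3) : dt U U * dt B B * gr A B
    = gr A B * dt B U ^ 2 + sl A B U ^ 2 + dt B B * zl A B U ^ 2 := by
  unfold gr sl zl dt
  ring

theorem gr_nonneg (A B : E3) : 0 ≤ gr A B := by
  have : gr A B = (A 0 * B 1 - A 1 * B 0) ^ 2 + (A 0 * B 2 - A 2 * B 0) ^ 2
      + (A 1 * B 2 - A 2 * B 1) ^ 2 := by
    unfold gr dt
    ring
  rw [this]
  positivity

theorem cs (x y : E3) : dt x y ^ 2 ≤ dt x x * dt y y := by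
  have := gr_nonneg x y
  unfold gr at this
  linarith

theorem ext3 {x y : E3} (h0 : x 0 = y 0) (h1 : x 1 = y 1) (h2 : x 2 = y 2) : x = y := by
  ext i
  fin_cases i
  exacts [h0, h1, h2]

theorem recon (A B x : E3) (h : zl A B x = 0) : gr A B • x = sl A B x • A + sl B A x • B := by
  unfold zl at h
  apply ext3 <;> simp only [PiLp.add_apply, PiLp.smul_apply, smul_eq_mul] <;> unfold gr sl dt
  · linear_combination (A 1 * B 2 - A 2 * B 1) * h
  · linear_combination (A 2 * B 0 - A 0 * B 2) * h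
  · linear_combination (A 0 * B 1 - A 1 * B 0) * h

theorem sl_sub (A B x y : E3) : sl A B (x - y) = sl A B x - sl A B y := by
  simp only [sl, dt, PiLp.sub_apply]
  ring

theorem zl_sub (A B x y : E3) : zl A B (x - y) = zl A B x - zl A B y := by
  simp only [zl, PiLp.sub_apply]
  ring

theorem inj {A B x y : E3} (hG : 0 < gr A B) (h1 : sl A B x = sl A B y)
    (h2 : sl B A x = sl B A y) (h3 : zl A B x = zl A B y) : x = y := by
  have := recon A B (x - y) (by rw [zl_sub, h3, sub_self])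
  rw [sl_sub, sl_sub, h1, h2, sub_self, sub_self, zero_smul, zero_smul, add_zero] at this
  exact sub_eq_zero.mp ((smul_eq_zero.mp this).resolve_left hG.ne')

theorem lip {A B : E3} {L g : ℝ} (hL : 0 < L) (hg : 0 ≤ g) (hB : ‖B‖ = L) (hG : gr A B = g ^ 2)
    (U : E3) : |sl A B U| ≤ L * g * ‖U‖ ∧ |zl A B U| ≤ g * ‖U‖ := by
  have h := ident A B U
  rw [dt_self, dt_self, hB, hG] at h
  have h1 : 0 ≤ g ^ 2 * dt B U ^ 2 := by positivity
  have h2 : 0 ≤ L ^ 2 * zl A B U ^ 2 := by positivity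
  have h3 : 0 ≤ sl A B U ^ 2 := by positivity
  refine ⟨abs_le_of_sq_le_sq' (by nlinarith) (by positivity) |> abs_le.mpr,
    abs_le_of_sq_le_sq' ?_ (by positivity) |> abs_le.mpr⟩
  apply le_of_mul_le_mul_left _ (pow_pos hL 2)
  nlinarith

/-- the point with parameter `θ` on a link -/
def pt (p : ℕ → E3) (i : ℕ) (θ : ℝ) : E3 := p i + θ • (p (i + 1) - p i)

/-- first coordinate of the joints -/
def sc (a v b : E3) (p : ℕ → E3) (i : ℕ) : ℝ := sl (a - v) (b - v) (p i - v)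

/-- height of the joints -/
def zc (a v b : E3) (p : ℕ → E3) (i : ℕ) : ℝ := zl (a - v) (b - v) (p i - v)

theorem sc_pt (a v b : E3) (p : ℕ → E3) (i : ℕ) (θ : ℝ) :
    ip (sc a v b p) i θ = sl (a - v) (b - v) (pt p i θ - v) := by
  simp only [ip, sc, sl, dt, pt, PiLp.sub_apply, PiLp.add_apply, PiLp.smul_apply, smul_eq_mul]
  ring

theorem zc_pt (a v b : E3) (p : ℕ → E3) (i : ℕ) (θ : ℝ) :
    ip (zc a v b p) i θ = zl (a - v) (b - v) (pt p i θ - v) := by
  simp only [ip, zc, zl, pt, PiLp.sub_apply, PiLp.add_apply, PiLp.smul_apply, smul_eq_mul]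
  ring

theorem pt_mem (p : ℕ → E3) (i : ℕ) {θ : ℝ} (h : θ ∈ Icc (0 : ℝ) 1) :
    pt p i θ ∈ segment ℝ (p i) (p (i + 1)) := by
  rw [segment_eq_image']
  exact ⟨θ, h, rfl⟩

theorem pt_l (p : ℕ → E3) (i : ℕ) {θ : ℝ} (h : θ ∈ Icc (0 : ℝ) 1) :
    dist (pt p i θ) (p i) ≤ dist (p i) (p (i + 1)) := by
  have := dist_add_dist_of_mem_segment (pt_mem p i h)
  rw [dist_comm]
  linarith [dist_nonneg (x := pt p i θ) (y := p (i + 1))]

theorem pt_r (p : ℕ → E3) (i : ℕ) {θ : ℝ} (h : θ ∈ Icc (0 : ℝ) 1) :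
    dist (pt p i θ) (p (i + 1)) ≤ dist (p i) (p (i + 1)) := by
  have := dist_add_dist_of_mem_segment (pt_mem p i h)
  linarith [dist_nonneg (x := p i) (y := pt p i θ)]

theorem ray {a v b q : E3} {L : ℝ} (hL : 0 < L) (hb : dist b v = L) (hq : dist q v ≤ L)
    (hG : 0 < gr (a - v) (b - v)) (hz : zl (a - v) (b - v) (q - v) = 0)
    (hs : sl (a - v) (b - v) (q - v) = 0) (ht : 0 ≤ sl (b - v) (a - v) (q - v)) :
    q ∈ segment ℝ v b := by
  have h := recon _ _ _ hz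
  rw [hs, zero_smul, zero_add] at h
  obtain ⟨c, hc⟩ : ∃ c, c = sl (b - v) (a - v) (q - v) / gr (a - v) (b - v) := ⟨_, rfl⟩
  have c0 : 0 ≤ c := hc ▸ div_nonneg ht hG.le
  have h1 : q - v = c • (b - v) := by
    rw [hc, div_eq_inv_mul, mul_smul, ← h, smul_smul, inv_mul_cancel₀ hG.ne', one_smul]
  rw [dist_eq_norm] at hb hq
  rw [h1, norm_smul, hb, Real.norm_of_nonneg c0] at hq
  rw [segment_eq_image']
  exact ⟨c, ⟨c0, by nlinarith⟩, by simp only [← h1]; simp⟩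

theorem bad_mem {a v b q : E3} {L : ℝ} (hL : 0 < L) (ha : dist a v = L) (hb : dist b v = L)
    (hq : dist q v ≤ L) (hG : 0 < gr (a - v) (b - v))
    (h : Bad (sl (a - v) (b - v) (q - v)) (sl (b - v) (a - v) (q - v))
      (zl (a - v) (b - v) (q - v))) : q ∈ segment ℝ v a ∨ q ∈ segment ℝ v b := by
  obtain ⟨hz, ⟨h1, h2⟩ | ⟨h1, h2⟩⟩ := h
  · exact Or.inr (ray hL hb hq hG hz h1 h2)
  · exact Or.inl (ray hL ha hq (gr_comm _ _ ▸ hG) (by rw [zl_swap, hz, neg_zero]) h1 h2)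

/-- what is kept along a motion, for one half of the chain -/
structure Fx (a v b : E3) (p : ℕ → E3) : Prop where
  la : dist a v = 300000
  lb : dist b v = 300000
  l0 : 8400 ≤ dist (p 0) (p 1)
  l0' : dist (p 0) (p 1) ≤ 8500
  l1 : dist (p 1) (p 2) ≤ 352
  l2 : dist (p 2) (p 3) ≤ 2878
  l3 : dist (p 3) (p 4) ≤ 124
  l4 : 3777 ≤ dist (p 4) (p 5)
  l4' : dist (p 4) (p 5) ≤ 3778
  na : ∀ i < 5, ∀ x ∈ segment ℝ (p i) (p (i + 1)), x ∉ segment ℝ v a
  nb : ∀ i < 5, ∀ x ∈ segment ℝ (p i) (p (i + 1)), x ∉ segment ℝ v b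
  d03 : ∀ x ∈ segment ℝ (p 0) (p 1), x ∉ segment ℝ (p 3) (p 4)
  d04 : ∀ x ∈ segment ℝ (p 0) (p 1), x ∉ segment ℝ (p 4) (p 5)
  d34 : ∀ x ∈ segment ℝ (p 3) (p 4), x ∈ segment ℝ (p 4) (p 5) → x = p 4

/-- the open invariant of one half -/
def OpH (a v b : E3) (p : ℕ → E3) : Prop :=
  HO (sc a v b p) (sc b v a p) (zc a v b p) ∧ dt (b - v) (p 4 - p 5) < 0 ∧ 0 < gr (a - v) (b - v)

/-- the closed invariant of one half -/
def ClH (a v b : E3) (p : ℕ → E3) (w : ℕ → ℝ) : Prop :=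
  HC (sc a v b p) (sc b v a p) (zc a v b p) w ∧ dt (b - v) (p 4 - p 5) ≤ 0 ∧
    dt (a - v) (b - v) ≤ 72000000000 ∧
    pt p 0 (w 0) = v - (w 8 / 4) • (a - v) + (w 9 / 4) • (b - v)

variable {a v b : E3} {p : ℕ → E3} {w : ℕ → ℝ}

theorem Fx.na' (F : Fx a v b p) : ‖a - v‖ = 300000 := dist_eq_norm a v ▸ F.la

theorem Fx.nb' (F : Fx a v b p) : ‖b - v‖ = 300000 := dist_eq_norm b v ▸ F.lb

theorem gr_pos (F : Fx a v b p) (hw : w ∈ Icc (0 : ℕ → ℝ) 1) (h : ClH a v b p w) :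
    0 < gr (a - v) (b - v) := by
  obtain ⟨-, -, h1, h2⟩ := h
  refine lt_of_le_of_ne (gr_nonneg _ _) fun h => ?_
  have hA := dt_self (a - v)
  have hB := dt_self (b - v)
  rw [F.na'] at hA
  rw [F.nb'] at hB
  unfold gr at h
  rw [hA, hB] at h
  have h3 : dt (a - v) (b - v) = -300000 ^ 2 := by
    have : (dt (a - v) (b - v) + 300000 ^ 2) * (dt (a - v) (b - v) - 300000 ^ 2) = 0 := by
      linarith
    rcases mul_eq_zero.mp this with h4 | h4 <;> linarith
  have h4 : (a - v) + (b - v) = 0 := by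
    rw [← norm_eq_zero, ← pow_eq_zero_iff two_ne_zero, ← dt_self]
    simp only [dt, PiLp.add_apply] at hA hB h3 ⊢
    linarith
  have h5 : a - v = -(b - v) := eq_neg_of_add_eq_zero_left h4
  refine F.nb 0 (by norm_num) _ (pt_mem p 0 ⟨hw.1 0, hw.2 0⟩) ?_
  rw [h2, h5, segment_eq_image']
  have := hw.1 8
  have := hw.1 9
  have := hw.2 8
  have := hw.2 9
  simp only [Pi.zero_apply, Pi.one_apply] at *
  refine ⟨w 8 / 4 + w 9 / 4, ⟨by linarith, by linarith⟩, ?_⟩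
  simp only [add_smul, smul_neg]
  abel

theorem near (F : Fx a v b p) (hw : w ∈ Icc (0 : ℕ → ℝ) 1) (h : ClH a v b p w) :
    ∀ i < 6, dist (p i) v ≤ 200000 := by
  obtain ⟨-, -, -, h2⟩ := h
  have h8 : w 8 ∈ Icc (0 : ℝ) 1 := ⟨hw.1 8, hw.2 8⟩
  have h9 : w 9 ∈ Icc (0 : ℝ) 1 := ⟨hw.1 9, hw.2 9⟩
  have h3 : dist (pt p 0 (w 0)) v ≤ 150000 := by
    rw [h2, dist_eq_norm]
    have : v - (w 8 / 4) • (a - v) + (w 9 / 4) • (b - v) - v
        = (w 9 / 4) • (b - v) - (w 8 / 4) • (a - v) := by abel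
    rw [this]
    refine (norm_sub_le _ _).trans ?_
    rw [norm_smul, norm_smul, F.na', F.nb', Real.norm_of_nonneg (by linarith [h9.1]),
      Real.norm_of_nonneg (by linarith [h8.1])]
    linarith [h8.2, h9.2]
  have h0 := pt_l p 0 (θ := w 0) ⟨hw.1 0, hw.2 0⟩
  have q0 := dist_triangle_left (p 0) v (pt p 0 (w 0))
  have q1 := dist_triangle_left (p 1) v (p 0)
  have q2 := dist_triangle_left (p 2) v (p 1)
  have q3 := dist_triangle_left (p 3) v (p 2)
  have q4 := dist_triangle_left (p 4) v (p 3)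
  have q5 := dist_triangle_left (p 5) v (p 4)
  have := F.l0'
  have := F.l1
  have := F.l2
  have := F.l3
  have := F.l4'
  simp only [Nat.reduceAdd] at h0
  intro i hi
  interval_cases i <;> linarith

theorem near_seg (F : Fx a v b p) (hw : w ∈ Icc (0 : ℕ → ℝ) 1) (h : ClH a v b p w) {i : ℕ}
    (hi : i < 5) {θ : ℝ} (hθ : θ ∈ Icc (0 : ℝ) 1) : dist (pt p i θ) v ≤ 300000 :=
  (convex_closedBall v 300000).segment_subset
    ((near F hw h i (by omega)).trans (by norm_num))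
    ((near F hw h (i + 1) (by omega)).trans (by norm_num)) (pt_mem p i hθ)

theorem mt_eq (hG : 0 < gr (a - v) (b - v)) {i j : ℕ} {x y : ℝ}
    (h : Mt (sc a v b p) (sc b v a p) (zc a v b p) i j x y) : pt p i x = pt p j y := by
  obtain ⟨h1, h2, h3⟩ := h
  rw [sc_pt, sc_pt] at h1 h2
  rw [zc_pt, zc_pt] at h3
  exact sub_left_injective (inj hG h1 h2 h3)

theorem HO_of_ClH (F : Fx a v b p) (hw : w ∈ Icc (0 : ℕ → ℝ) 1) (h : ClH a v b p w) :
    HO (sc a v b p) (sc b v a p) (zc a v b p) := by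
  have hG := gr_pos F hw h
  have bw : ∀ i, w i ∈ Icc (0 : ℝ) 1 := fun i => ⟨hw.1 i, hw.2 i⟩
  refine HO_of_HC hw h.1 (fun i hi θ hθ hb => ?_) (fun x hx y hy hm => ?_)
    (fun x hx y hy hm => ?_) (fun x hx y hy hm => ?_) fun h5 => ?_
  · rw [sc_pt, sc_pt, zc_pt] at hb
    rcases bad_mem (by norm_num) F.la F.lb (near_seg F hw h hi hθ) hG hb with h1 | h1
    · exact F.na i hi _ (pt_mem p i hθ) h1
    · exact F.nb i hi _ (pt_mem p i hθ) h1
  · exact F.d03 _ (pt_mem p 0 hx) (mt_eq hG hm ▸ pt_mem p 3 hy)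
  · exact F.d04 _ (pt_mem p 0 hx) (mt_eq hG hm ▸ pt_mem p 4 hy)
  · rw [zc_pt, F.d34 _ (pt_mem p 3 hx) (mt_eq hG hm ▸ pt_mem p 4 hy)]
    rfl
  · obtain ⟨⟨-, -, -, -, -, -, -, -, -, -, -, -, -, -, -, -, -, -, -, -, -, ab, ts, tt, tz, -⟩,
      -⟩ := h
    rw [h5, ip_zero] at ts tt tz
    have e : p 0 = (1 - w 6 - w 7) • p 4 + w 6 • pt p 3 (w 3) + w 7 • pt p 4 (w 4) := by
      refine sub_left_injective (b := v) (inj hG ?_ ?_ ?_)
      · rw [← sc, ts, tri, sc_pt, sc_pt]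
        simp only [sc, sl, dt, PiLp.sub_apply, PiLp.add_apply, PiLp.smul_apply, smul_eq_mul]
        ring
      · rw [← sc, tt, tri, sc_pt, sc_pt]
        simp only [sc, sl, dt, PiLp.sub_apply, PiLp.add_apply, PiLp.smul_apply, smul_eq_mul]
        ring
      · rw [← zc, tz, tri, zc_pt, zc_pt]
        simp only [zc, zl, PiLp.sub_apply, PiLp.add_apply, PiLp.smul_apply, smul_eq_mul]
        ring
    have q3 := dist_triangle_left (p 3) (p 1) (p 2)
    have q4 := dist_triangle_left (p 4) (p 1) (p 3)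
    have q5 := dist_triangle_left (p 5) (p 1) (p 4)
    have := F.l0
    have := F.l1
    have := F.l2
    have := F.l3
    have := F.l4'
    have := dist_comm (p 1) (p 2)
    have cv := convex_closedBall (p 1) 8000
    have m3 : p 3 ∈ Metric.closedBall (p 1) 8000 := by
      rw [Metric.mem_closedBall]
      linarith
    have m4 : p 4 ∈ Metric.closedBall (p 1) 8000 := by
      rw [Metric.mem_closedBall]
      linarith
    have m5 : p 5 ∈ Metric.closedBall (p 1) 8000 := by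
      rw [Metric.mem_closedBall]
      linarith
    have k3 := cv.segment_subset m3 m4 (pt_mem p 3 (bw 3))
    have k4 := cv.segment_subset m4 m5 (pt_mem p 4 (bw 4))
    have := cv.sum_mem (t := Finset.univ) (w := ![1 - w 6 - w 7, w 6, w 7])
      (z := ![p 4, pt p 3 (w 3), pt p 4 (w 4)]) (by
        intro i _
        fin_cases i
        · simp only [Fin.zero_eta, Matrix.cons_val_zero]
          linarith
        · exact (bw 6).1
        · exact (bw 7).1) (by
        simp only [Fin.sum_univ_three, Matrix.cons_val]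
        ring) (by
        intro i _
        fin_cases i
        exacts [m4, k3, k4])
    simp only [Fin.sum_univ_three, Matrix.cons_val] at this
    rw [← e, Metric.mem_closedBall] at this
    linarith

theorem metric (F : Fx a v b p) (hw : w ∈ Icc (0 : ℕ → ℝ) 1)
    (h : HC (sc a v b p) (sc b v a p) (zc a v b p) w) {g : ℝ} (hg : 0 ≤ g)
    (hG : gr (a - v) (b - v) = g ^ 2) : sc a v b p 4 ≤ 300000 * g * 3354 ∧
      -(300000 * g * 124) ≤ sc b v a p 4 ∧ |zc a v b p 4| ≤ g * 124 := by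
  obtain ⟨-, -, -, -, -, -, -, -, -, e3, -, -, -, -, -, -, -, -, t3, -, -, -, -, -, -, -, hm⟩ := h
  have L := lip (by norm_num) hg F.nb' hG
  have L' := lip (by norm_num) hg F.na' (gr_comm _ _ ▸ hG)
  have d3 : ‖pt p 3 (w 3) - v - (p 4 - v)‖ ≤ 124 := by
    rw [sub_sub_sub_cancel_right, ← dist_eq_norm]
    exact (pt_r p 3 ⟨hw.1 3, hw.2 3⟩).trans F.l3
  have d1 : ‖p 4 - v - (p 1 - v)‖ ≤ 3354 := by
    rw [sub_sub_sub_cancel_right, ← dist_eq_norm]
    have q3 := dist_triangle_left (p 3) (p 1) (p 2)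
    have q4 := dist_triangle_left (p 4) (p 1) (p 3)
    linarith [F.l1, F.l2, F.l3, dist_comm (p 1) (p 2)]
  refine ⟨?_, ?_, ?_⟩
  · rcases min_le_iff.mp hm with h | h
    · have := (abs_le.mp (L (p 4 - v - (p 1 - v))).1).2
      rw [sl_sub] at this
      unfold sc at *
      nlinarith
    · nlinarith
  · have := (abs_le.mp (L' (pt p 3 (w 3) - v - (p 4 - v))).1).2
    rw [sl_sub, ← sc_pt] at this
    unfold sc at *
    nlinarith
  · have := (L (pt p 3 (w 3) - v - (p 4 - v))).2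
    rw [zl_sub, ← zc_pt, e3, zero_sub, abs_neg] at this
    unfold zc
    nlinarith

theorem angle {A B U : E3} {g : ℝ} (hg : 0 < g) (hB : ‖B‖ = 300000) (hG : gr A B = g ^ 2)
    (hU : 3777 ≤ ‖U‖) (h0 : 0 ≤ sl A B U) (h1 : sl A B U ≤ 300000 * g * 3478)
    (h2 : |zl A B U| ≤ g * 248) : 9000000000 * dt U U ≤ dt B U ^ 2 := by
  have h := ident A B U
  rw [dt_self B, hB, hG] at h
  have h3 : sl A B U ^ 2 ≤ (300000 * g * 3478) ^ 2 := pow_le_pow_left₀ h0 h1 2
  have h4 : zl A B U ^ 2 ≤ (g * 248) ^ 2 := sq_le_sq' (abs_le.mp h2).1 (abs_le.mp h2).2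
  have h5 : 3777 ^ 2 ≤ dt U U := by
    rw [dt_self]
    exact pow_le_pow_left₀ (by norm_num) hU 2
  have hg2 : 0 < g ^ 2 := by positivity
  apply le_of_mul_le_mul_left _ hg2
  nlinarith [mul_le_mul_of_nonneg_left h5 hg2.le]

theorem apex (F : Fx a v b p) (hw : w ∈ Icc (0 : ℕ → ℝ) 1)
    (h : HC (sc a v b p) (sc b v a p) (zc a v b p) w) (hG : 0 < gr (a - v) (b - v))
    (hc : dt (a - v) (b - v) ≤ 72000000000) : ∃ x ∈ Icc (0 : ℝ) 1, ∃ y ∈ Icc (0 : ℝ) 1,
      pt p 0 (w 0) = v - (x / 4) • (a - v) + (y / 4) • (b - v) := by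
  obtain ⟨-, -, -, -, -, -, e0, -, e2, -, -, s0, t0, -, -, s2, t2, -⟩ := h
  rw [zc_pt] at e0 e2
  rw [sc_pt] at s0 t0 s2 t2
  have k : ∀ q : E3, zl (a - v) (b - v) q = 0 → q = (sl (a - v) (b - v) q / gr (a - v) (b - v)) •
      (a - v) + (sl (b - v) (a - v) q / gr (a - v) (b - v)) • (b - v) := by
    intro q hq
    rw [div_eq_inv_mul, div_eq_inv_mul, mul_smul, mul_smul, ← smul_add, ← recon _ _ _ hq,
      smul_smul, inv_mul_cancel₀ hG.ne', one_smul]
  have k0 := k _ e0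
  have k2 := k _ e2
  have x0 := div_nonpos_of_nonpos_of_nonneg s0 hG.le
  have y0 := div_nonneg t0 hG.le
  have x2 := div_nonneg s2 hG.le
  have y2 := div_nonpos_of_nonpos_of_nonneg t2 hG.le
  generalize sl (a - v) (b - v) (pt p 0 (w 0) - v) / gr (a - v) (b - v) = x at k0 x0
  generalize sl (b - v) (a - v) (pt p 0 (w 0) - v) / gr (a - v) (b - v) = y at k0 y0
  generalize sl (a - v) (b - v) (pt p 2 (w 2) - v) / gr (a - v) (b - v) = x' at k2 x2
  generalize sl (b - v) (a - v) (pt p 2 (w 2) - v) / gr (a - v) (b - v) = y' at k2 y2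
  have hd : ‖pt p 0 (w 0) - v - (pt p 2 (w 2) - v)‖ ≤ 11730 := by
    rw [sub_sub_sub_cancel_right, ← dist_eq_norm]
    have q1 := pt_r p 0 (θ := w 0) ⟨hw.1 0, hw.2 0⟩
    have q2 := pt_l p 2 (θ := w 2) ⟨hw.1 2, hw.2 2⟩
    have q3 := dist_triangle (pt p 0 (w 0)) (p 1) (pt p 2 (w 2))
    have q4 := dist_triangle_right (p 1) (pt p 2 (w 2)) (p 2)
    simp only [Nat.reduceAdd] at q1 q2
    linarith [F.l0', F.l1, F.l2]
  have hd2 := pow_le_pow_left₀ (norm_nonneg _) hd 2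
  rw [← dt_self, k0, k2] at hd2
  have hA := dt_self (a - v)
  have hB := dt_self (b - v)
  rw [F.na'] at hA
  rw [F.nb'] at hB
  have e : dt (x • (a - v) + y • (b - v) - (x' • (a - v) + y' • (b - v)))
      (x • (a - v) + y • (b - v) - (x' • (a - v) + y' • (b - v)))
      = (x' - x) ^ 2 * dt (a - v) (a - v) + (y - y') ^ 2 * dt (b - v) (b - v)
        - 2 * ((x' - x) * (y - y')) * dt (a - v) (b - v) := by
    generalize a - v = A
    generalize b - v = B
    simp only [dt, PiLp.sub_apply, PiLp.add_apply, PiLp.smul_apply, smul_eq_mul]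
    ring
  rw [e, hA, hB] at hd2
  have hxy : 0 ≤ (x' - x) * (y - y') := mul_nonneg (by linarith) (by linarith)
  have h1 : (x' - x) ^ 2 + (y - y') ^ 2 ≤ (1 / 4) ^ 2 := by
    nlinarith [mul_le_mul_of_nonneg_left hc hxy, sq_nonneg ((x' - x) - (y - y'))]
  have h2 := (abs_le_of_sq_le_sq' (a := x' - x) (b := 1 / 4)
    (by nlinarith [sq_nonneg (y - y')]) (by norm_num)).2
  have h3 := (abs_le_of_sq_le_sq' (a := y - y') (b := 1 / 4)
    (by nlinarith [sq_nonneg (x' - x)]) (by norm_num)).2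
  refine ⟨-4 * x, ⟨by linarith, by linarith⟩, 4 * y, ⟨by linarith, by linarith⟩, ?_⟩
  rw [show -4 * x / 4 = -x by ring, show 4 * y / 4 = y by ring, eq_add_of_sub_eq k0, neg_smul]
  abel

end Pool.Agent.P.MP_85ac4c_co.Nine
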