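import Pool.Agent.P.MP_85ac4c_co.NineC

/-!
The two halves together: the invariant is open and closed along a motion.
-/

set_option autoImplicit false

namespace Pool.Agent.P.MP_85ac4c_co.Nine

open Set

variable {a v b : E3} {p p' : ℕ → E3} {w w' : ℕ → ℝ}

theorem dt_rev (x y z : E3) : dt x (y - z) = -dt x (z - y) := by
  simp only [dt, PiLp.sub_apply]
  ring

theorem steep (F : Fx a v b p) (F' : Fx b v a p') (h4 : p' 4 = p 5)
    (hw : w ∈ Icc (0 : ℕ → ℝ) 1) (hw' : w' ∈ Icc (0 : ℕ → ℝ) 1)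
    (h : HC (sc a v b p) (sc b v a p) (zc a v b p) w)
    (h' : HC (sc b v a p') (sc a v b p') (zc b v a p') w') (hG : 0 < gr (a - v) (b - v))
    (h0 : 0 ≤ sl (a - v) (b - v) (p 4 - p 5)) :
    9000000000 * dt (p 4 - p 5) (p 4 - p 5) ≤ dt (b - v) (p 4 - p 5) ^ 2 := by
  have hg := Real.sqrt_pos.mpr hG
  have e := (Real.sq_sqrt hG.le).symm
  obtain ⟨m1, -, m3⟩ := metric F hw h hg.le e
  obtain ⟨-, n2, n3⟩ := metric F' hw' h' hg.le (gr_comm _ _ ▸ e)
  unfold sc at m1 n2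
  unfold zc at m3 n3
  rw [h4] at n2 n3
  rw [zl_swap, abs_neg] at n3
  refine angle hg F.nb' e (dist_eq_norm (p 4) (p 5) ▸ F.l4) h0 ?_ ?_
  · rw [← sub_sub_sub_cancel_right (p 4) _ v, sl_sub]
    linarith
  · rw [← sub_sub_sub_cancel_right (p 4) _ v, zl_sub]
    linarith [abs_sub (zl (a - v) (b - v) (p 4 - v)) (zl (a - v) (b - v) (p 5 - v))]

theorem Fx.upos (F : Fx a v b p) : 0 < dt (p 4 - p 5) (p 4 - p 5) := by
  rw [dt_self, ← dist_eq_norm]
  have := F.l4
  positivity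

theorem cl_of_op (F : Fx a v b p) (F' : Fx b v a p') (h4 : p' 4 = p 5) (h5 : p' 5 = p 4)
    (h : OpH a v b p) (h' : OpH b v a p') : ∃ w ∈ Icc (0 : ℕ → ℝ) 1, ClH a v b p w := by
  obtain ⟨ho, hb, hG⟩ := h
  obtain ⟨ho', ha, hG'⟩ := h'
  have z4 := ho.2.2.2.2.1
  have z4' := ho'.2.2.2.2.1
  obtain ⟨w, hw, hc⟩ := HC_of_HO ho (by
    unfold zc at z4' ⊢
    rw [h4, zl_swap] at z4'
    linarith)
  obtain ⟨w', hw', hc'⟩ := HC_of_HO ho' (by
    unfold zc at z4 ⊢
    rw [h5, zl_swap]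
    linarith)
  have hA := dt_self (a - v)
  have hB := dt_self (b - v)
  rw [F.na'] at hA
  rw [F.nb'] at hB
  have ang : dt (a - v) (b - v) ≤ 72000000000 := by
    by_contra hn
    have hp : 0 < dt (a - v) (b - v) := by linarith
    have k' := steep F' F h5.symm hw' hw hc' hc hG' (by
      unfold sl
      rw [hA, h4, h5, dt_rev (b - v), dt_comm (b - v) (a - v)]
      rw [h4, h5] at ha
      nlinarith [mul_pos hp (neg_pos.mpr ha)])
    rw [h4, h5, dt_rev] at ha
    have k := steep F F' h4 hw hw' hc hc' hG (by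
      unfold sl
      rw [hB]
      nlinarith [mul_pos hp (neg_pos.mpr hb)])
    have e : dt (p 5 - p 4) (p 5 - p 4) = dt (p 4 - p 5) (p 4 - p 5) := by
      simp only [dt, PiLp.sub_apply]
      ring
    rw [h4, h5, dt_rev (a - v), neg_sq, e] at k'
    have c := cs ((a - v) - (b - v)) (p 4 - p 5)
    have e1 : dt ((a - v) - (b - v)) (p 4 - p 5)
        = dt (a - v) (p 4 - p 5) - dt (b - v) (p 4 - p 5) := by
      simp only [dt, PiLp.sub_apply]
      ring
    have e2 : dt ((a - v) - (b - v)) ((a - v) - (b - v))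
        = dt (a - v) (a - v) + dt (b - v) (b - v) - 2 * dt (a - v) (b - v) := by
      simp only [dt, PiLp.sub_apply]
      ring
    rw [e1, e2, hA, hB] at c
    have u := F.upos
    generalize dt (p 4 - p 5) (p 4 - p 5) = q at *
    generalize dt (a - v) (p 4 - p 5) = x at *
    generalize dt (b - v) (p 4 - p 5) = y at *
    generalize dt (a - v) (b - v) = r at *
    have h1 : 9000000000 * q ≤ x * (-y) := by
      refine (abs_le_of_sq_le_sq' ?_ (mul_pos (by linarith) (by linarith)).le).2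
      calc (9000000000 * q) ^ 2 = (9000000000 * q) * (9000000000 * q) := by ring
        _ ≤ x ^ 2 * y ^ 2 := mul_le_mul k' k (by positivity) (by positivity)
        _ = (x * -y) ^ 2 := by ring
    nlinarith [mul_pos u (sub_pos.mpr (not_le.mp hn))]
  obtain ⟨x, hx, y, hy, he⟩ := apex F hw hc hG ang
  refine ⟨fun i => if i = 8 then x else if i = 9 then y else w i, ⟨fun i => ?_, fun i => ?_⟩,
    hc, hb.le, ang, he⟩
  · dsimp only
    split_ifs
    exacts [hx.1, hy.1, hw.1 i]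
  · dsimp only
    split_ifs
    exacts [hx.2, hy.2, hw.2 i]

theorem op_of_cl (F : Fx a v b p) (F' : Fx b v a p') (h4 : p' 4 = p 5) (h5 : p' 5 = p 4)
    (hw : w ∈ Icc (0 : ℕ → ℝ) 1) (hw' : w' ∈ Icc (0 : ℕ → ℝ) 1)
    (h : ClH a v b p w) (h' : ClH b v a p' w') : OpH a v b p := by
  have hG := gr_pos F hw h
  refine ⟨HO_of_ClH F hw h, lt_of_le_of_ne h.2.1 fun h0 => ?_, hG⟩
  have ha := h'.2.1
  rw [h4, h5, dt_rev] at ha
  have k := steep F F' h4 hw hw' h.1 h'.1 hG (by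
    unfold sl
    rw [h0, mul_zero, sub_zero, dt_self]
    exact mul_nonneg (sq_nonneg _) (by linarith))
  rw [h0] at k
  linarith [F.upos]

theorem no_plane (F : Fx a v b p) (hw : w ∈ Icc (0 : ℕ → ℝ) 1) (h : ClH a v b p w) (n : E3)
    (c : ℝ) (ha : inner ℝ n a < c) (hv : inner ℝ n v < c) (hb : inner ℝ n b < c)
    (hp : ∀ i < 6, c < inner ℝ n (p i)) : False := by
  have hG := gr_pos F hw h
  have bw : ∀ i, w i ∈ Icc (0 : ℝ) 1 := fun i => ⟨hw.1 i, hw.2 i⟩
  have n1 := near_seg F hw h (i := 1) (by norm_num) (bw 1)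
  have n2 := near_seg F hw h (i := 2) (by norm_num) (bw 2)
  obtain ⟨⟨-, -, -, -, -, -, -, e1, e2, -, -, -, -, s1, t1, -, t2, -⟩, -⟩ := h
  obtain ⟨μ, hμ, hbad⟩ := ivt _ _ (ip (sc a v b p) 2 (w 2)) _ s1 t1 (Or.inr t2)
  obtain ⟨r, r0, r1⟩ : ∃ r : ℕ → E3, r 0 = pt p 1 (w 1) ∧ r 1 = pt p 2 (w 2) :=
    ⟨fun i => if i = 0 then pt p 1 (w 1) else pt p 2 (w 2), rfl, rfl⟩
  have hq := pt_mem r 0 hμ
  simp only [Nat.reduceAdd] at hq
  rw [r0, r1] at hq
  have lin : IsLinearMap ℝ fun x : E3 => inner ℝ n x := (innerₛₗ ℝ n).isLinear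
  have up := convex_halfSpace_gt lin c
  have lo := convex_halfSpace_lt lin c
  have hu := up.segment_subset
    (up.segment_subset (hp 1 (by norm_num)) (hp 2 (by norm_num)) (pt_mem p 1 (bw 1)))
    (up.segment_subset (hp 2 (by norm_num)) (hp 3 (by norm_num)) (pt_mem p 2 (bw 2))) hq
  have hb' : Bad (sl (a - v) (b - v) (pt r 0 μ - v)) (sl (b - v) (a - v) (pt r 0 μ - v))
      (zl (a - v) (b - v) (pt r 0 μ - v)) := by
    rw [← sc_pt, ← sc_pt, ← zc_pt]
    rw [zc_pt] at e1 e2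
    simp only [sc_pt] at hbad
    unfold ip sc zc
    simp only [Nat.reduceAdd]
    rw [r0, r1, e1, e2]
    simpa using hbad
  rcases bad_mem (by norm_num) F.la F.lb
    ((convex_closedBall v 300000).segment_subset n1 n2 hq) hG hb' with h1 | h1
  · exact lt_asymm (mem_ofPred.mp hu) (mem_ofPred.mp (lo.segment_subset hv ha h1))
  · exact lt_asymm (mem_ofPred.mp hu) (mem_ofPred.mp (lo.segment_subset hv hb h1))

section top

variable {X : Type} [TopologicalSpace X] {a v b : X → E3} {p : X → ℕ → E3}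

theorem cont_sc (ha : Continuous a) (hv : Continuous v) (hb : Continuous b) (hp : Continuous p) :
    Continuous fun x => sc (a x) (v x) (b x) (p x) := by
  refine continuous_pi fun i => ?_
  unfold sc sl dt
  fun_prop

theorem cont_zc (ha : Continuous a) (hv : Continuous v) (hb : Continuous b) (hp : Continuous p) :
    Continuous fun x => zc (a x) (v x) (b x) (p x) := by
  refine continuous_pi fun i => ?_
  unfold zc zl
  fun_prop

theorem open_OpH (ha : Continuous a) (hv : Continuous v) (hb : Continuous b) (hp : Continuous p) :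
    IsOpen {x | OpH (a x) (v x) (b x) (p x)} := by
  unfold OpH
  simp only [ofPred_and]
  refine (open_HO (cont_sc ha hv hb hp) (cont_sc hb hv ha hp) (cont_zc ha hv hb hp)).inter
    (IsOpen.inter (isOpen_lt ?_ continuous_const) (isOpen_lt continuous_const ?_))
  · unfold dt
    fun_prop
  · unfold gr dt
    fun_prop

theorem closed_ClH (ha : Continuous a) (hv : Continuous v) (hb : Continuous b)
    (hp : Continuous p) :
    IsClosed {x | ∃ w ∈ Icc (0 : ℕ → ℝ) 1, ClH (a x) (v x) (b x) (p x) w} := by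
  refine closed_ex _ ?_
  have ha' := ha.comp (continuous_fst (X := X) (Y := ℕ → ℝ))
  have hv' := hv.comp (continuous_fst (X := X) (Y := ℕ → ℝ))
  have hb' := hb.comp (continuous_fst (X := X) (Y := ℕ → ℝ))
  have hp' := hp.comp (continuous_fst (X := X) (Y := ℕ → ℝ))
  unfold ClH
  simp only [ofPred_and]
  refine (closed_HC (cont_sc ha' hv' hb' hp') (cont_sc hb' hv' ha' hp') (cont_zc ha' hv' hb' hp')
    continuous_snd).inter (IsClosed.inter (isClosed_le ?_ continuous_const)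
      (IsClosed.inter (isClosed_le ?_ continuous_const) (isClosed_eq ?_ ?_)))
  · unfold dt
    fun_prop
  · unfold dt
    fun_prop
  · unfold pt
    fun_prop
  · fun_prop

theorem stays [PreconnectedSpace X] {p' : X → ℕ → E3} (ha : Continuous a) (hv : Continuous v)
    (hb : Continuous b) (hp : Continuous p) (hp' : Continuous p')
    (F : ∀ x, Fx (a x) (v x) (b x) (p x)) (F' : ∀ x, Fx (b x) (v x) (a x) (p' x))
    (h4 : ∀ x, p' x 4 = p x 5) (h5 : ∀ x, p' x 5 = p x 4) (x0 : X)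
    (h : OpH (a x0) (v x0) (b x0) (p x0)) (h' : OpH (b x0) (v x0) (a x0) (p' x0)) (x : X) :
    ∃ w ∈ Icc (0 : ℕ → ℝ) 1, ClH (a x) (v x) (b x) (p x) w := by
  have e : {x | OpH (a x) (v x) (b x) (p x)} ∩ {x | OpH (b x) (v x) (a x) (p' x)}
      = {x | ∃ w ∈ Icc (0 : ℕ → ℝ) 1, ClH (a x) (v x) (b x) (p x) w}
        ∩ {x | ∃ w ∈ Icc (0 : ℕ → ℝ) 1, ClH (b x) (v x) (a x) (p' x) w} := by
    ext x
    constructor
    · rintro ⟨h1, h2⟩
      exact ⟨cl_of_op (F x) (F' x) (h4 x) (h5 x) h1 h2,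
        cl_of_op (F' x) (F x) (h5 x).symm (h4 x).symm h2 h1⟩
    · rintro ⟨⟨w, hw, h1⟩, w', hw', h2⟩
      exact ⟨op_of_cl (F x) (F' x) (h4 x) (h5 x) hw hw' h1 h2,
        op_of_cl (F' x) (F x) (h5 x).symm (h4 x).symm hw' hw h2 h1⟩
  have hc : IsClopen ({x | OpH (a x) (v x) (b x) (p x)} ∩ {x | OpH (b x) (v x) (a x) (p' x)}) :=
    ⟨e ▸ (closed_ClH ha hv hb hp).inter (closed_ClH hb hv ha hp'),
      (open_OpH ha hv hb hp).inter (open_OpH hb hv ha hp')⟩
  have := hc.eq_univ ⟨x0, h, h'⟩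
  rw [e] at this
  exact (eq_univ_iff_forall.mp this x).1

end top

end Pool.Agent.P.MP_85ac4c_co.Nine
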