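import Pool.Agent.P.MP_85ac4c_co.NineD

/-!
The locked configuration of a 2-chain and a 9-chain.
-/

set_option autoImplicit false

namespace Pool.Agent.P.MP_85ac4c_co.Nine

open Set

/-- integer points -/
def toE (u : ℤ × ℤ × ℤ) : E3 := WithLp.toLp 2 ![(u.1 : ℝ), (u.2.1 : ℝ), (u.2.2 : ℝ)]

/-- integer scalar product -/
def iz (n u : ℤ × ℤ × ℤ) : ℤ := n.1 * u.1 + n.2.1 * u.2.1 + n.2.2 * u.2.2

/-- the joints of the 9-chain -/
def cz : ℕ → ℤ × ℤ × ℤ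
  | 0 => (8200, 1700, -92)
  | 1 => (-120, 135, 1)
  | 2 => (150, -90, -1)
  | 3 => (3000, 300, 60)
  | 4 => (3000, 330, -60)
  | 5 => (330, 3000, 60)
  | 6 => (300, 3000, -60)
  | 7 => (-90, 150, 1)
  | 8 => (135, -120, -1)
  | _ => (1700, 8200, 92)

/-- the joints of the 2-chain -/
def pz : ℕ → ℤ × ℤ × ℤ
  | 0 => (300000, 0, 0)
  | 1 => (0, 0, 0)
  | _ => (0, 300000, 0)

/-- separating directions for two links of the 9-chain -/
def ct : ℕ → ℕ → ℤ × ℤ × ℤ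
  | 0, 1 => (0, -1, -1) | 0, 2 => (0, -1, 3) | 0, 3 => (1, -5, -5) | 0, 4 => (-2, 3, -100)
  | 0, 5 => (-1, 1, -1) | 0, 6 => (-1, 3, -3) | 0, 7 => (1, -1, 100) | 0, 8 => (0, -1, 100)
  | 1, 2 => (1, -1, -1) | 1, 3 => (0, 1, -1) | 1, 4 => (0, 1, -1) | 1, 5 => (-1, 1, -1)
  | 1, 6 => (0, 1, -1) | 1, 7 => (3, -5, 1000) | 1, 8 => (0, -1, 100) | 2, 3 => (0, 1, -1)
  | 2, 4 => (0, 1, -1) | 2, 5 => (-1, 1, -1) | 2, 6 => (-1, 1, -1) | 2, 7 => (-1, -1, 1)
  | 2, 8 => (-3, 1, -3) | 3, 4 => (-1, 0, -1) | 3, 5 => (-1, 0, -1) | 3, 6 => (-1, -1, -1)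
  | 3, 7 => (-1, -1, -1) | 3, 8 => (-1, 0, -1) | 4, 5 => (-1, 0, -1) | 4, 6 => (-1, -1, -1)
  | 4, 7 => (-1, -1, -1) | 4, 8 => (-3, 2, -100) | 5, 6 => (-1, -1, -1) | 5, 7 => (-1, -1, -1)
  | 5, 8 => (4, -1, -2) | 6, 7 => (-1, -1, -1) | 6, 8 => (1, 0, 3) | 7, 8 => (1, 0, -1)
  | _, _ => (0, 0, 0)

/-- separating directions for a link of the 2-chain and a link of the 9-chain -/
def dtb : ℕ → ℕ → ℤ × ℤ × ℤ
  | 0, 0 => (0, 1, -1) | 0, 1 => (0, 1, -100) | 0, 2 => (0, -1, 10) | 0, 3 => (0, 1, -1)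
  | 0, 4 => (0, 1, -1) | 0, 5 => (-1, 1, -1) | 0, 6 => (-1, 1, -1) | 0, 7 => (-2, 6, -1000)
  | 0, 8 => (0, -1, 100) | 1, 0 => (-1, 0, -100) | 1, 1 => (6, -2, 1000) | 1, 2 => (1, -1, -1)
  | 1, 3 => (1, -1, -1) | 1, 4 => (1, 0, -1) | 1, 5 => (1, 0, -1) | 1, 6 => (-1, 0, -10)
  | 1, 7 => (1, 0, 100) | 1, 8 => (1, 0, -1)
  | _, _ => (0, 0, 0)

/-- the 9-chain -/
def v0 : Fin 10 → E3 := fun i => toE (cz i)

/-- the 2-chain -/
def p0 : Fin 3 → E3 := fun i => toE (pz i)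

theorem dt_toE (n u : ℤ × ℤ × ℤ) : dt (toE n) (toE u) = (iz n u : ℝ) := by
  simp [dt, toE, iz]

theorem toE_sub (a b : ℤ × ℤ × ℤ) : toE a - toE b = toE (a - b) := by
  apply ext3 <;> simp [toE]

theorem dt_mix (n a b : E3) (s t : ℝ) : dt n (s • a + t • b) = s * dt n a + t * dt n b := by
  simp only [dt, PiLp.add_apply, PiLp.smul_apply, smul_eq_mul]
  ring

/-- the direction `n` separates two segments -/
def SepD (n a b c d : ℤ × ℤ × ℤ) : Prop :=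
  iz n a < iz n c ∧ iz n a < iz n d ∧ iz n b < iz n c ∧ iz n b < iz n d

instance (n a b c d : ℤ × ℤ × ℤ) : Decidable (SepD n a b c d) := by
  unfold SepD
  infer_instance

theorem sepD {n a b c d : ℤ × ℤ × ℤ} (h : SepD n a b c d) {x : E3}
    (h1 : x ∈ segment ℝ (toE a) (toE b)) (h2 : x ∈ segment ℝ (toE c) (toE d)) : False := by
  obtain ⟨s, t, s0, t0, st, rfl⟩ := h1
  obtain ⟨s', t', s0', t0', st', e⟩ := h2
  have := congrArg (dt (toE n)) e
  simp only [dt_mix, dt_toE] at this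
  obtain ⟨k1, k2, k3, k4⟩ := h
  have m : ((max (iz n a) (iz n b) : ℤ) : ℝ) < ((min (iz n c) (iz n d) : ℤ) : ℝ) := by
    exact_mod_cast max_lt (lt_min k1 k2) (lt_min k3 k4)
  have m1 : (iz n a : ℝ) ≤ ((max (iz n a) (iz n b) : ℤ) : ℝ) := by exact_mod_cast le_max_left _ _
  have m2 : (iz n b : ℝ) ≤ ((max (iz n a) (iz n b) : ℤ) : ℝ) := by exact_mod_cast le_max_right _ _
  have m3 : ((min (iz n c) (iz n d) : ℤ) : ℝ) ≤ iz n c := by exact_mod_cast min_le_left _ _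
  have m4 : ((min (iz n c) (iz n d) : ℤ) : ℝ) ≤ iz n d := by exact_mod_cast min_le_right _ _
  generalize ((max (iz n a) (iz n b) : ℤ) : ℝ) = M at *
  generalize ((min (iz n c) (iz n d) : ℤ) : ℝ) = N at *
  have e1 : M = s * M + t * M := by rw [← add_mul, st, one_mul]
  have e2 : N = s' * N + t' * N := by rw [← add_mul, st', one_mul]
  linarith [mul_le_mul_of_nonneg_left m1 s0, mul_le_mul_of_nonneg_left m2 t0,
    mul_le_mul_of_nonneg_left m3 s0', mul_le_mul_of_nonneg_left m4 t0']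

theorem sepA {n a b c : ℤ × ℤ × ℤ} (k1 : iz n a < iz n b) (k2 : iz n b < iz n c) {x : E3}
    (h1 : x ∈ segment ℝ (toE a) (toE b)) (h2 : x ∈ segment ℝ (toE b) (toE c)) : x = toE b := by
  obtain ⟨s, t, s0, t0, st, rfl⟩ := h1
  obtain ⟨s', t', s0', t0', st', e⟩ := h2
  have := congrArg (dt (toE n)) e
  simp only [dt_mix, dt_toE] at this
  have m1 : (iz n a : ℝ) < iz n b := by exact_mod_cast k1
  have m2 : (iz n b : ℝ) < iz n c := by exact_mod_cast k2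
  obtain rfl : t = 1 - s := by linarith
  obtain rfl : s' = 1 - t' := by linarith
  obtain rfl : s = 0 := by
    by_contra h
    nlinarith [mul_pos (lt_of_le_of_ne s0 (Ne.symm h)) (sub_pos.mpr m1),
      mul_nonneg t0' (sub_pos.mpr m2).le]
  simp

theorem toE_ne {a b : ℤ × ℤ × ℤ} (h : iz (a - b) (a - b) ≠ 0) : toE a ≠ toE b := by
  intro e
  have := dt_toE (a - b) (a - b)
  rw [← toE_sub, e, sub_self, dt_self, norm_zero] at this
  exact h (by exact_mod_cast (by linarith : (iz (a - b) (a - b) : ℝ) = 0))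

theorem dsq (a b : ℤ × ℤ × ℤ) : dist (toE a) (toE b) ^ 2 = (iz (a - b) (a - b) : ℝ) := by
  rw [dist_eq_norm, ← dt_self, toE_sub, dt_toE]

theorem dle (a b : ℤ × ℤ × ℤ) (k : ℕ) (h : iz (a - b) (a - b) ≤ (k : ℤ) ^ 2) :
    dist (toE a) (toE b) ≤ k :=
  (abs_le_of_sq_le_sq' (by rw [dsq]; exact_mod_cast h) (Nat.cast_nonneg k)).2

theorem dge (a b : ℤ × ℤ × ℤ) (k : ℕ) (h : (k : ℤ) ^ 2 ≤ iz (a - b) (a - b)) :
    (k : ℝ) ≤ dist (toE a) (toE b) :=
  (abs_le_of_sq_le_sq' (by rw [dsq]; exact_mod_cast h) dist_nonneg).2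

theorem cert1 : ∀ i j : Fin 9, i < j → if j.val = i.val + 1 then
    iz (ct i j) (cz i) < iz (ct i j) (cz (i + 1)) ∧
      iz (ct i j) (cz (i + 1)) < iz (ct i j) (cz (j + 1))
    else SepD (ct i j) (cz i) (cz (i + 1)) (cz j) (cz (j + 1)) := by decide

theorem cert2 : ∀ (i : Fin 2) (j : Fin 9),
    SepD (dtb i j) (pz i) (pz (i + 1)) (cz j) (cz (j + 1)) := by decide

theorem cert3 : ∀ i : Fin 9, iz (cz i - cz (i + 1)) (cz i - cz (i + 1)) ≠ 0 := by decide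

theorem adm : Admissible p0 v0 := by
  refine ⟨⟨fun i => ?_, fun i j hij x h1 h2 => ?_⟩, ⟨fun i => toE_ne (cert3 i),
    fun i j hij x h1 h2 => ?_⟩, fun i j => disjoint_left.mpr fun x h1 h2 => sepD (cert2 i j) h1 h2⟩
  · fin_cases i <;> exact toE_ne (by decide)
  · obtain ⟨rfl, rfl⟩ : i = 0 ∧ j = 1 := by omega
    exact ⟨rfl, sepA (n := (-1, 1, 0)) (by decide) (by decide) h1 h2⟩
  · have := cert1 i j hij
    split_ifs at this with h
    · refine ⟨h, sepA this.1 this.2 h1 ?_⟩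
      rw [← h]
      exact h2
    · exact (sepD this h1 h2).elim

/-- the first half of the 9-chain -/
def c1 (W : Fin 10 → E3) (i : ℕ) : E3 := W (Fin.ofNat 10 i)

/-- the second half of the 9-chain, backwards -/
def c2 (W : Fin 10 → E3) (i : ℕ) : E3 := W (Fin.ofNat 10 (9 - i))

theorem fx {P : Fin 3 → E3} {W : Fin 10 → E3} (h : Admissible P W) (hp : SameLengths p0 P)
    (hv : SameLengths v0 W) : Fx (P 0) (P 1) (P 2) (c1 W) ∧ Fx (P 2) (P 1) (P 0) (c2 W) := by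
  obtain ⟨-, ⟨-, hs⟩, hd⟩ := h
  have la : dist (P 0) (P 1) = 300000 := (hp 0).trans
    (le_antisymm (dle (pz 0) (pz 1) 300000 (by decide)) (dge (pz 0) (pz 1) 300000 (by decide)))
  have lb : dist (P 2) (P 1) = 300000 := (dist_comm _ _).trans ((hp 1).trans
    (le_antisymm (dle (pz 1) (pz 2) 300000 (by decide)) (dge (pz 1) (pz 2) 300000 (by decide))))
  have le : ∀ (i : Fin 9) (k : ℕ), iz (cz i - cz (i + 1)) (cz i - cz (i + 1)) ≤ (k : ℤ) ^ 2 →
      dist (W i.castSucc) (W i.succ) ≤ k := fun i k h => (hv i).trans_le (dle _ _ k h)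
  have ge : ∀ (i : Fin 9) (k : ℕ), (k : ℤ) ^ 2 ≤ iz (cz i - cz (i + 1)) (cz i - cz (i + 1)) →
      (k : ℝ) ≤ dist (W i.castSucc) (W i.succ) := fun i k h => (dge _ _ k h).trans_eq (hv i).symm
  have na : ∀ j, ∀ x ∈ link W j, x ∉ segment ℝ (P 1) (P 0) := fun j x hx h =>
    disjoint_left.mp (hd 0 j) ((segment_symm ℝ (P 1) (P 0)).subset h) hx
  have nb : ∀ j, ∀ x ∈ link W j, x ∉ segment ℝ (P 1) (P 2) := fun j x hx h =>
    disjoint_left.mp (hd 1 j) h hx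
  have k1 : ∀ i < 5, ∃ j, segment ℝ (c1 W i) (c1 W (i + 1)) = link W j := by
    intro i hi
    interval_cases i
    exacts [⟨0, rfl⟩, ⟨1, rfl⟩, ⟨2, rfl⟩, ⟨3, rfl⟩, ⟨4, rfl⟩]
  have k2 : ∀ i < 5, ∃ j, segment ℝ (c2 W (i + 1)) (c2 W i) = link W j := by
    intro i hi
    interval_cases i
    exacts [⟨8, rfl⟩, ⟨7, rfl⟩, ⟨6, rfl⟩, ⟨5, rfl⟩, ⟨4, rfl⟩]
  constructor
  · refine ⟨la, lb, ge 0 8400 (by decide), le 0 8500 (by decide), le 1 352 (by decide),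
      le 2 2878 (by decide), le 3 124 (by decide), ge 4 3777 (by decide), le 4 3778 (by decide),
      fun i hi x hx => ?_, fun i hi x hx => ?_, fun x h1 h2 => ?_, fun x h1 h2 => ?_,
      fun x h1 h2 => (hs 3 4 (by decide) x h1 h2).2⟩
    · obtain ⟨j, hj⟩ := k1 i hi
      exact na j x (hj ▸ hx)
    · obtain ⟨j, hj⟩ := k1 i hi
      exact nb j x (hj ▸ hx)
    · exact absurd (hs 0 3 (by decide) x h1 h2).1 (by decide)
    · exact absurd (hs 0 4 (by decide) x h1 h2).1 (by decide)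
  · refine ⟨lb, la, (ge 8 8400 (by decide)).trans_eq (dist_comm _ _),
      (dist_comm _ _).trans_le (le 8 8500 (by decide)),
      (dist_comm _ _).trans_le (le 7 352 (by decide)),
      (dist_comm _ _).trans_le (le 6 2878 (by decide)),
      (dist_comm _ _).trans_le (le 5 124 (by decide)),
      (ge 4 3777 (by decide)).trans_eq (dist_comm _ _),
      (dist_comm _ _).trans_le (le 4 3778 (by decide)),
      fun i hi x hx => ?_, fun i hi x hx => ?_, fun x h1 h2 => ?_, fun x h1 h2 => ?_,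
      fun x h1 h2 => ?_⟩
    · obtain ⟨j, hj⟩ := k2 i hi
      rw [segment_symm] at hx
      exact nb j x (hj ▸ hx)
    · obtain ⟨j, hj⟩ := k2 i hi
      rw [segment_symm] at hx
      exact na j x (hj ▸ hx)
    · rw [segment_symm] at h1 h2
      exact absurd (hs 5 8 (by decide) x h2 h1).1 (by decide)
    · rw [segment_symm] at h1 h2
      exact absurd (hs 4 8 (by decide) x h2 h1).1 (by decide)
    · rw [segment_symm] at h1 h2
      exact (hs 4 5 (by decide) x h2 h1).2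

theorem start1 : OpH (p0 0) (p0 1) (p0 2) (c1 v0) := by
  simp only [OpH, HO, dd, sc, zc, sl, zl, gr, dt, c1, v0, p0, toE, PiLp.sub_apply]
  simp [cz, pz, Fin.ofNat]
  norm_num

theorem start2 : OpH (p0 2) (p0 1) (p0 0) (c2 v0) := by
  simp only [OpH, HO, dd, sc, zc, sl, zl, gr, dt, c2, v0, p0, toE, PiLp.sub_apply]
  simp [cz, pz, Fin.ofNat]
  norm_num

theorem locked : ¬ Separable p0 v0 := by
  rintro ⟨P, W, hP, hW, e1, e2, h, n, c, h1, h2⟩
  have F := fun x : Icc (0 : ℝ) 1 => fx (h x x.2).1 (h x x.2).2.1 (h x x.2).2.2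
  obtain ⟨w, hw, hc⟩ := stays (X := Icc (0 : ℝ) 1) (a := fun x => P x 0) (v := fun x => P x 1)
    (b := fun x => P x 2) (p := fun x => c1 (W x)) (p' := fun x => c2 (W x)) (by fun_prop)
    (by fun_prop) (by fun_prop) (by unfold c1; fun_prop) (by unfold c2; fun_prop)
    (fun x => (F x).1) (fun x => (F x).2) (fun _ => rfl) (fun _ => rfl) ⟨0, le_rfl, zero_le_one⟩
    (by simpa only [e1, e2] using start1) (by simpa only [e1, e2] using start2)
    ⟨1, zero_le_one, le_rfl⟩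
  exact no_plane (F ⟨1, zero_le_one, le_rfl⟩).1 hw hc n c (h1 0) (h1 1) (h1 2) fun i _ => h2 _

end Pool.Agent.P.MP_85ac4c_co.Nine
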