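import Pool.Agent.P.MP_85ac4c_co.Defs

/-!
Admissibility is an open condition; generic perturbations; extension of a chain.
-/

namespace Pool.Agent.P.MP_85ac4c_co

open Set Filter Topology

section
variable {X : Type} [TopologicalSpace X] {x₀ : X} {a b c d : X → E3}

theorem ev_disj (ha : Continuous a) (hb : Continuous b) (hc : Continuous c) (hd : Continuous d)
    (h : Disjoint (segment ℝ (a x₀) (b x₀)) (segment ℝ (c x₀) (d x₀))) :
    ∀ᶠ x in 𝓝 x₀, Disjoint (segment ℝ (a x) (b x)) (segment ℝ (c x) (d x)) := by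
  have : ∀ᶠ x in 𝓝 x₀, ∀ y ∈ Icc (0 : ℝ) 1 ×ˢ Icc (0 : ℝ) 1,
      (1 - y.1) • a x + y.1 • b x ≠ (1 - y.2) • c x + y.2 • d x := by
    refine (isCompact_Icc.prod isCompact_Icc).eventually_forall_of_forall_eventually fun y hy => ?_
    refine (isOpen_ne_fun (by fun_prop) (by fun_prop)).mem_nhds fun e => ?_
    rw [segment_eq_image, segment_eq_image] at h
    exact disjoint_left.1 h ⟨y.1, hy.1, rfl⟩ ⟨y.2, hy.2, e.symm⟩
  refine this.mono fun x hx => disjoint_left.2 ?_
  rw [segment_eq_image, segment_eq_image]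
  rintro _ ⟨s, hs, rfl⟩ ⟨t, ht, e⟩
  exact hx (s, t) ⟨hs, ht⟩ e.symm

theorem ev_adj (ha : Continuous a) (hb : Continuous b) (hc : Continuous c) (h1 : a x₀ ≠ b x₀)
    (h2 : b x₀ ≠ c x₀)
    (h : ∀ y ∈ segment ℝ (a x₀) (b x₀), y ∈ segment ℝ (b x₀) (c x₀) → y = b x₀) :
    ∀ᶠ x in 𝓝 x₀, ∀ y ∈ segment ℝ (a x) (b x), y ∈ segment ℝ (b x) (c x) → y = b x := by
  have : ∀ᶠ x in 𝓝 x₀, ∀ s ∈ Icc (0 : ℝ) 1, s • (a x - b x) ≠ (1 - s) • (c x - b x) := by
    refine isCompact_Icc.eventually_forall_of_forall_eventually fun s hs => ?_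
    refine (isOpen_ne_fun (by fun_prop) (by fun_prop)).mem_nhds fun e => ?_
    dsimp only at e
    have h3 := h (b x₀ + s • (a x₀ - b x₀))
      ⟨s, 1 - s, hs.1, sub_nonneg.2 hs.2, by ring, by module⟩
      ⟨s, 1 - s, hs.1, sub_nonneg.2 hs.2, by ring, by rw [e]; module⟩
    rw [add_eq_left, smul_eq_zero, sub_eq_zero] at h3
    rw [h3.resolve_right h1, zero_smul, sub_zero, one_smul, eq_comm, sub_eq_zero] at e
    exact h2 e.symm
  refine this.mono fun x hx => ?_
  rintro _ ⟨u, u', hu, hu', hs, rfl⟩ ⟨w', w, hw', hw, hs', e⟩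
  obtain rfl : u' = 1 - u := by linarith
  obtain rfl : w' = 1 - w := by linarith
  rcases (add_nonneg hu hw).eq_or_lt with h0 | h0
  · obtain rfl : u = 0 := by linarith
    simp
  · refine absurd ?_ (hx (u / (u + w)) ⟨div_nonneg hu h0.le, (div_le_one h0).2 (by linarith)⟩)
    have e1 : 1 - u / (u + w) = w / (u + w) := by field_simp; ring
    rw [e1, div_eq_inv_mul, div_eq_inv_mul, mul_smul, mul_smul]
    congr 1
    linear_combination (norm := module) -e

theorem ev_simple {k : ℕ} {v : X → Fin (k + 1) → E3} (hv : Continuous v) (h : Simple (v x₀)) :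
    ∀ᶠ x in 𝓝 x₀, Simple (v x) := by
  refine (eventually_all.2 fun i => ?_).and
    (eventually_all.2 fun i => eventually_all.2 fun j => eventually_all.2 fun hij => ?_)
  · exact (isOpen_ne_fun (by fun_prop) (by fun_prop)).mem_nhds (h.1 i)
  · by_cases e : j.val = i.val + 1
    · have e' : j.castSucc = i.succ := Fin.ext e
      have := ev_adj (x₀ := x₀) (a := fun x => v x i.castSucc) (b := fun x => v x i.succ)
        (c := fun x => v x j.succ) (by fun_prop) (by fun_prop) (by fun_prop) (h.1 i)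
        (e' ▸ h.1 j) fun y h1 h2 => (h.2 i j hij y h1 (by rwa [link, e'])).2
      exact this.mono fun x hx y h1 h2 => ⟨e, hx y h1 (by rwa [link, e'] at h2)⟩
    · have := ev_disj (x₀ := x₀) (a := fun x => v x i.castSucc) (b := fun x => v x i.succ)
        (c := fun x => v x j.castSucc) (d := fun x => v x j.succ) (by fun_prop) (by fun_prop)
        (by fun_prop) (by fun_prop) (disjoint_left.2 fun y h1 h2 => e (h.2 i j hij y h1 h2).1)
      exact this.mono fun x hx y h1 h2 => absurd h2 (disjoint_left.1 hx h1)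

end

theorem ev_adm {m k : ℕ} {q₀ : (Fin (m + 1) → E3) × (Fin (k + 1) → E3)}
    (h : Admissible q₀.1 q₀.2) : ∀ᶠ q in 𝓝 q₀, Admissible q.1 q.2 :=
  (ev_simple continuous_fst h.1).and ((ev_simple continuous_snd h.2.1).and
    (eventually_all.2 fun i => eventually_all.2 fun j =>
      ev_disj (by fun_prop) (by fun_prop) (by fun_prop) (by fun_prop) (h.2.2 i j)))

/-- only finitely many matrices of a line through an invertible matrix are singular -/
theorem fin_bad {n : ℕ} (M N : Matrix (Fin n) (Fin n) ℝ) (h : N.det ≠ 0) :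
    {t : ℝ | (M + t • (N - M)).det = 0}.Finite := by
  let p : Polynomial ℝ :=
    (M.map Polynomial.C + (Polynomial.X : Polynomial ℝ) • (N - M).map Polynomial.C).det
  have hp : ∀ t, p.eval t = (M + t • (N - M)).det := fun t => by
    rw [← Polynomial.coe_evalRingHom, RingHom.map_det]
    congr 1
    ext i j
    simp
  have h0 : p ≠ 0 := fun e => h (by simpa [e] using (hp 1).symm)
  exact (Polynomial.finite_setOfPred_isRoot h0).subset fun t ht => (hp t).trans ht

theorem pick {P : ℝ → Prop} (hP : ∀ᶠ t in 𝓝 (0 : ℝ), P t) {S : Set ℝ} (hS : S.Finite) :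
    ∃ t, 0 < t ∧ t < 1 ∧ t ∉ S ∧ ∀ s ∈ Icc 0 t, P s := by
  obtain ⟨ε, hε, H⟩ := Metric.eventually_nhds_iff.1 hP
  obtain ⟨t, ht, hn⟩ := (Ioo_infinite (lt_min hε one_pos)).exists_notMem_finite hS
  refine ⟨t, ht.1, ht.2.trans_le (min_le_right _ _), hn, fun s hs => H ?_⟩
  rw [Real.dist_eq, sub_zero, abs_of_nonneg hs.1]
  exact hs.2.trans_lt (ht.2.trans_le (min_le_left _ _))

/-! ### adding a link -/

theorem link_snoc {k : ℕ} (v : Fin (k + 1) → E3) (x : E3) (i : Fin k) :
    link (Fin.snoc v x : Fin (k + 2) → E3) i.castSucc = link v i := by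
  rw [link, link, Fin.succ_castSucc, Fin.snoc_castSucc, Fin.snoc_castSucc]

theorem link_last {k : ℕ} (v : Fin (k + 1) → E3) (x : E3) :
    link (Fin.snoc v x : Fin (k + 2) → E3) (Fin.last k) = segment ℝ (v (Fin.last k)) x := by
  rw [link, Fin.succ_last, Fin.snoc_castSucc, Fin.snoc_last]

theorem isClosed_link {k : ℕ} (v : Fin (k + 1) → E3) (i : Fin k) : IsClosed (link v i) := by
  rw [link, segment_eq_image]
  exact (isCompact_Icc.image (by fun_prop)).isClosed

theorem extend {m k : ℕ} {p : Fin (m + 1) → E3} {v : Fin (k + 2) → E3} (h : Admissible p v) :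
    ∃ x, Admissible p (Fin.snoc v x : Fin (k + 3) → E3) := by
  set z := v (Fin.last (k + 1)) with hz
  set y := v (Fin.last k).castSucc with hy
  have hyz : y ≠ z := h.2.1.1 (Fin.last k)
  have hzl : z ∈ link v (Fin.last k) := right_mem_segment _ _ _
  have hC : IsClosed ((⋃ i, link p i) ∪ ⋃ j : Fin k, link v j.castSucc) :=
    (isClosed_iUnion_of_finite (isClosed_link p)).union
      (isClosed_iUnion_of_finite fun j => isClosed_link v _)
  have hzC : z ∉ (⋃ i, link p i) ∪ ⋃ j : Fin k, link v j.castSucc := by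
    rintro (hh | hh) <;> obtain ⟨i, hi⟩ := mem_iUnion.1 hh
    · exact disjoint_left.1 (h.2.2 i _) hi hzl
    · obtain ⟨e1, e2⟩ := h.2.1.2 _ _ (Fin.castSucc_lt_last i) z hi hzl
      refine hyz (Eq.symm (e2.trans ?_))
      congr 1
      exact Fin.ext e1.symm
  obtain ⟨ε, hε, hb⟩ := Metric.isOpen_iff.1 hC.isOpen_compl z hzC
  have hn : 0 < ‖z - y‖ := norm_pos_iff.2 (sub_ne_zero.2 hyz.symm)
  set δ := ε / 2 / ‖z - y‖ with hδ
  have hδ0 : 0 < δ := by positivity
  have hs : segment ℝ z (z + δ • (z - y)) ⊆ Metric.ball z ε := by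
    refine (convex_ball z ε).segment_subset (Metric.mem_ball_self hε) ?_
    rw [mem_ball_iff_norm, add_sub_cancel_left, norm_smul, Real.norm_of_nonneg hδ0.le, hδ,
      div_mul_cancel₀ _ hn.ne']
    linarith
  refine ⟨z + δ • (z - y), h.1, ⟨fun i => ?_, fun i j hij x h1 h2 => ?_⟩, fun i j => ?_⟩
  · induction i using Fin.lastCases with
    | last =>
      rw [Fin.succ_last, Fin.snoc_castSucc, Fin.snoc_last, ne_eq, left_eq_add, smul_eq_zero,
        sub_eq_zero]
      exact fun e => e.elim hδ0.ne' hyz.symm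
    | cast i =>
      rw [Fin.succ_castSucc, Fin.snoc_castSucc, Fin.snoc_castSucc]
      exact h.2.1.1 i
  · induction i using Fin.lastCases with
    | last => exact absurd hij (not_lt.2 (Fin.le_last _))
    | cast i =>
      rw [link_snoc] at h1
      rw [Fin.succ_castSucc, Fin.snoc_castSucc]
      induction j using Fin.lastCases with
      | cast j =>
        rw [link_snoc] at h2
        exact h.2.1.2 i j (Fin.castSucc_lt_castSucc_iff.1 hij) x h1 h2
      | last =>
        rw [link_last] at h2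
        induction i using Fin.lastCases with
        | cast i => exact absurd (Or.inr (mem_iUnion.2 ⟨i, h1⟩)) (hb (hs h2))
        | last =>
          refine ⟨rfl, ?_⟩
          obtain ⟨u, u', hu, hu', e1, rfl⟩ := h1
          obtain ⟨w', w, hw', hw, e2, e3⟩ := h2
          obtain rfl : u' = 1 - u := by linarith
          obtain rfl : w' = 1 - w := by linarith
          change (1 - w) • z + w • (z + δ • (z - y)) = u • y + (1 - u) • z at e3
          have e4 : (w * δ + u) • (z - y) = 0 := by linear_combination (norm := module) e3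
          have e5 := (smul_eq_zero.1 e4).resolve_right (sub_ne_zero.2 hyz.symm)
          have := mul_nonneg hw hδ0.le
          obtain rfl : u = 0 := by linarith
          simp
  · induction j using Fin.lastCases with
    | cast j => rw [link_snoc]; exact h.2.2 i j
    | last =>
      rw [link_last]
      exact disjoint_left.2 fun x h1 h2 => hb (hs h2) (Or.inl (mem_iUnion.2 ⟨i, h1⟩))

theorem restrict {m k : ℕ} {p : Fin (m + 1) → E3} {v : Fin (k + 1) → E3} {x : E3}
    (h : Separable p (Fin.snoc v x : Fin (k + 2) → E3)) : Separable p v := by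
  obtain ⟨P, W, hP, hW, e1, e2, H, n, c, h1, h2⟩ := h
  have hl : ∀ t (i : Fin k), link (fun j : Fin (k + 1) => W t j.castSucc) i =
      link (W t) i.castSucc := fun t i => by rw [link, link, Fin.succ_castSucc]
  refine ⟨P, fun t j => W t j.castSucc, hP, by fun_prop, e1, ?_, fun t ht => ?_, n, c, h1,
    fun j => h2 _⟩
  · funext j
    simp only [e2, Fin.snoc_castSucc]
  · obtain ⟨⟨a1, a2, a3⟩, a4, a5⟩ := H t ht
    refine ⟨⟨a1, ⟨fun i => ?_, fun i j hij y y1 y2 => ?_⟩, fun i j => ?_⟩, a4, fun i => ?_⟩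
    · simpa only [Fin.succ_castSucc] using a2.1 i.castSucc
    · rw [hl] at y1 y2
      simpa only [Fin.succ_castSucc, Fin.val_castSucc] using
        a2.2 _ _ (Fin.castSucc_lt_castSucc_iff.2 hij) y y1 y2
    · rw [hl]; exact a3 i _
    · simpa only [Fin.succ_castSucc, Fin.snoc_castSucc] using a5 i.castSucc

end Pool.Agent.P.MP_85ac4c_co
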