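import Pool.Agent.P.MP_85ac4c_co.Slide
import Pool.Agent.P.MP_85ac4c_co.Topo

/-!
From the projective model to configurations of chains.
-/

namespace Pool.Agent.P.MP_85ac4c_co

open Set Filter Topology

abbrev Cf : Type := (Fin 3 → E3) × (Fin 6 → E3)

/-- admissible configurations with given link lengths -/
def FF (la : Fin 2 → ℝ) (lv : Fin 5 → ℝ) : Set Cf :=
  {q | Admissible q.1 q.2 ∧ (∀ i : Fin 2, dist (q.1 i.castSucc) (q.1 i.succ) = la i) ∧
    ∀ i : Fin 5, dist (q.2 i.castSucc) (q.2 i.succ) = lv i}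

noncomputable section

def NN (w : Fin 4 → E3) : V →ₗ[ℝ] E3 where
  toFun z := z 0 • w 0 + z 1 • w 1 + z 2 • w 2 + z 3 • w 3
  map_add' x y := by simp only [Pi.add_apply]; module
  map_smul' c x := by simp only [Pi.smul_apply, smul_eq_mul, RingHom.id_apply]; module

theorem NN_apply (w : Fin 4 → E3) (z : V) :
    NN w z = z 0 • w 0 + z 1 • w 1 + z 2 • w 2 + z 3 • w 3 := rfl

theorem NN_e (w : Fin 4 → E3) (i : Fin 4) : NN w (e i) = w i := by
  fin_cases i <;> simp [NN_apply, e]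

def pt (w : Fin 4 → E3) (P : V) : E3 := (fs P)⁻¹ • NN w P

def dir (w : Fin 4 → E3) (P D : V) : E3 := fs P • NN w D - fs D • NN w P

def ep (w : Fin 4 → E3) (P D : V) (L : ℝ) : E3 := pt w P + (L / ‖dir w P D‖) • dir w P D

def rl (w : Fin 4 → E3) (la : Fin 2 → ℝ) (lv : Fin 5 → ℝ) (x : St) : Cf :=
  (![ep w x.1 x.2.1 (la 0), pt w x.1, ep w x.1 x.2.2.1 (la 1)],
    ![ep w (e 0) x.2.2.2.1 (lv 0), w 0, w 1, w 2, w 3, ep w (e 3) x.2.2.2.2 (lv 4)])

end

structure Core (w : Fin 4 → E3) (la : Fin 2 → ℝ) (lv : Fin 5 → ℝ) : Prop where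
  inj : ∀ z, NN w z = 0 → fs z = 0 → z = 0
  pa : ∀ i, 0 < la i
  pv : ∀ i, 0 < lv i
  d1 : dist (w 0) (w 1) = lv 1
  d2 : dist (w 1) (w 2) = lv 2
  d3 : dist (w 2) (w 3) = lv 3

structure Nd (w : Fin 4 → E3) (x : St) : Prop where
  pos : 0 < fs x.1
  hA : dir w x.1 x.2.1 ≠ 0
  hC : dir w x.1 x.2.2.1 ≠ 0
  hU : dir w (e 0) x.2.2.2.1 ≠ 0
  hW : dir w (e 3) x.2.2.2.2 ≠ 0

variable {w : Fin 4 → E3} {la : Fin 2 → ℝ} {lv : Fin 5 → ℝ} {B A C U W : V}

theorem pt_e (i : Fin 4) : pt w (e i) = w i := by rw [pt, fs_e, NN_e, inv_one, one_smul]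

@[fun_prop] theorem cont_fs : Continuous fs := fs.continuous_of_finiteDimensional

@[fun_prop] theorem cont_NN (w : Fin 4 → E3) : Continuous (NN w) :=
  (NN w).continuous_of_finiteDimensional

theorem dist_ep {P D : V} (h : dir w P D ≠ 0) {L : ℝ} (hL : 0 < L) :
    dist (pt w P) (ep w P D L) = L := by
  rw [ep, dist_self_add_right, norm_smul, Real.norm_of_nonneg (by positivity),
    div_mul_cancel₀ _ (norm_ne_zero_iff.2 h)]

theorem Core.dir_ne (h : Core w la lv) {P D R : V} (hi : I3 P D R) (hp : fs P ≠ 0) :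
    dir w P D ≠ 0 := fun e0 => by
  have := h.inj (fs P • D - fs D • P) (by rw [map_sub, map_smul, map_smul]; exact e0)
    (by rw [map_sub, map_smul, map_smul, smul_eq_mul, smul_eq_mul]; ring)
  exact hp (hi (-fs D) (fs P) 0 (by linear_combination (norm := module) this)).2.1

theorem Core.nd (h : Core w la lv) {x : St} (hx : x ∈ MS) : Nd w x :=
  ⟨hx.pos, h.dir_ne hx.ind hx.pos.ne', h.dir_ne hx.ind.swap hx.pos.ne',
    h.dir_ne hx.cg.h1.i3 (by rw [fs_e]; exact one_ne_zero),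
    h.dir_ne hx.cg.h4.i3 (by rw [fs_e]; exact one_ne_zero)⟩

theorem ev_nd {x : St} (hx : Nd w x) : ∀ᶠ y in 𝓝 x, Nd w y := by
  have a1 : ∀ᶠ y : St in 𝓝 x, 0 < fs y.1 :=
    (isOpen_lt continuous_const (by fun_prop)).mem_nhds hx.pos
  have a2 : ∀ᶠ y : St in 𝓝 x, dir w y.1 y.2.1 ≠ 0 :=
    (isOpen_ne_fun (by unfold dir; fun_prop) continuous_const).mem_nhds hx.hA
  have a3 : ∀ᶠ y : St in 𝓝 x, dir w y.1 y.2.2.1 ≠ 0 :=
    (isOpen_ne_fun (by unfold dir; fun_prop) continuous_const).mem_nhds hx.hC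
  have a4 : ∀ᶠ y : St in 𝓝 x, dir w (e 0) y.2.2.2.1 ≠ 0 :=
    (isOpen_ne_fun (by unfold dir; fun_prop) continuous_const).mem_nhds hx.hU
  have a5 : ∀ᶠ y : St in 𝓝 x, dir w (e 3) y.2.2.2.2 ≠ 0 :=
    (isOpen_ne_fun (by unfold dir; fun_prop) continuous_const).mem_nhds hx.hW
  filter_upwards [a1, a2, a3, a4, a5] with y b1 b2 b3 b4 b5 using ⟨b1, b2, b3, b4, b5⟩

theorem cont_pt {x : St} {P : St → V} (hP : Continuous P) (h : fs (P x) ≠ 0) :
    ContinuousAt (fun y => pt w (P y)) x := by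
  unfold pt
  exact ((by fun_prop : Continuous fun y => fs (P y)).continuousAt.inv₀ h).smul (by fun_prop)

theorem cont_ep {x : St} {P D : St → V} (hP : Continuous P) (hD : Continuous D)
    (h : fs (P x) ≠ 0) (h' : dir w (P x) (D x) ≠ 0) (L : ℝ) :
    ContinuousAt (fun y => ep w (P y) (D y) L) x := by
  have hd : Continuous fun y => dir w (P y) (D y) := by unfold dir; fun_prop
  exact (cont_pt hP h).add ((continuousAt_const.div hd.norm.continuousAt
    (norm_ne_zero_iff.2 h')).smul hd.continuousAt)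

theorem cont_rl {x : St} (hx : Nd w x) : ContinuousAt (rl w la lv) x := by
  have e1 : ∀ i, fs (e i) ≠ 0 := fun i => by rw [fs_e]; exact one_ne_zero
  refine ContinuousAt.prodMk (continuousAt_pi.2 fun i => ?_) (continuousAt_pi.2 fun i => ?_)
  · fin_cases i
    · exact cont_ep (P := fun y => y.1) (D := fun y => y.2.1) (by fun_prop) (by fun_prop)
        hx.pos.ne' hx.hA (la 0)
    · exact cont_pt (P := fun y => y.1) (by fun_prop) hx.pos.ne'
    · exact cont_ep (P := fun y => y.1) (D := fun y => y.2.2.1) (by fun_prop) (by fun_prop)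
        hx.pos.ne' hx.hC (la 1)
  · fin_cases i
    · exact cont_ep (P := fun _ => e 0) (D := fun y => y.2.2.2.1) (by fun_prop) (by fun_prop)
        (e1 _) hx.hU (lv 0)
    · exact continuousAt_const (y := w 0)
    · exact continuousAt_const (y := w 1)
    · exact continuousAt_const (y := w 2)
    · exact continuousAt_const (y := w 3)
    · exact cont_ep (P := fun _ => e 3) (D := fun y => y.2.2.2.2) (by fun_prop) (by fun_prop)
        (e1 _) hx.hW (lv 4)

theorem Core.len (h : Core w la lv) {x : St} (hx : Nd w x) :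
    (∀ i : Fin 2, dist ((rl w la lv x).1 i.castSucc) ((rl w la lv x).1 i.succ) = la i) ∧
      ∀ i : Fin 5, dist ((rl w la lv x).2 i.castSucc) ((rl w la lv x).2 i.succ) = lv i := by
  refine ⟨fun i => ?_, fun i => ?_⟩
  · fin_cases i
    · exact (dist_comm _ _).trans (dist_ep hx.hA (h.pa 0))
    · exact dist_ep hx.hC (h.pa 1)
  · fin_cases i
    · have := dist_ep hx.hU (h.pv 0)
      rw [pt_e] at this
      exact (dist_comm _ _).trans this
    · exact h.d1
    · exact h.d2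
    · exact h.d3
    · have := dist_ep hx.hW (h.pv 4)
      rw [pt_e] at this
      exact this

theorem seg_ray {P D : V} (hp : 0 < fs P) {L : ℝ} (hL : 0 < L) :
    segment ℝ (pt w P) (ep w P D L) ⊆ NN w '' Ray P D := by
  rintro _ ⟨a, b, -, hb, hab, rfl⟩
  obtain rfl : a = 1 - b := by linarith
  set τ := b * (L / ‖dir w P D‖) with hτ
  have h0 : 0 ≤ τ := by positivity
  refine ⟨((fs P)⁻¹ - τ * fs D) • P + (τ * fs P) • D, ⟨?_, _, _, by positivity, rfl⟩, ?_⟩
  · rw [map_add, map_smul, map_smul, smul_eq_mul, smul_eq_mul]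
    field_simp
    ring
  · rw [map_add, map_smul, map_smul, ep, hτ]
    generalize L / ‖dir w P D‖ = r
    rw [pt, dir]
    module

theorem seg_seg (i j : Fin 4) : segment ℝ (w i) (w j) ⊆ NN w '' Seg (e i) (e j) := by
  rintro _ ⟨a, b, ha, hb, hab, rfl⟩
  refine ⟨a • e i + b • e j, ⟨?_, a, b, ha, hb, rfl⟩, ?_⟩
  · simpa [fs_e] using hab
  · simp [NN_e]

theorem Core.same (h : Core w la lv) {S T : Set V} (hS : ∀ z ∈ S, fs z = 1)
    (hT : ∀ z ∈ T, fs z = 1) {y : E3} (h1 : y ∈ NN w '' S) (h2 : y ∈ NN w '' T) :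
    ∃ z ∈ S, z ∈ T ∧ y = NN w z := by
  obtain ⟨z, hz, rfl⟩ := h1
  obtain ⟨z', hz', e0⟩ := h2
  have := h.inj (z' - z) (by rw [map_sub, e0, sub_self])
    (by rw [map_sub, hS z hz, hT z' hz', sub_self])
  exact ⟨z, hz, sub_eq_zero.1 this ▸ hz', rfl⟩

theorem pl_symm {P Q z : V} (h : z ∈ Pl P Q) : z ∈ Pl Q P :=
  let ⟨h1, β, t, e0⟩ := h
  ⟨h1, t, β, e0.trans (add_comm _ _)⟩

theorem sk_e : Sk (e 0) (e 1) (e 2) (e 3) := fun a b c d h => by
  have h0 := congrFun h 0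
  have h1 := congrFun h 1
  have h2 := congrFun h 2
  have h3 := congrFun h 3
  simp [e] at h0 h1 h2 h3
  exact ⟨h0, h1, h2, h3⟩

theorem Core.adm (h : Core w la lv) {x : St} (hx : x ∈ MS) : rl w la lv x ∈ FF la lv := by
  obtain ⟨B, A, C, U, W⟩ := x
  have hl := h.len (h.nd hx)
  replace hx : MA B A C U W := hx
  have f1 : ∀ i, 0 < fs (e i) := fun i => by rw [fs_e]; exact one_pos
  have lp : ∀ i, link (rl w la lv (B, A, C, U, W)).1 i ⊆ NN w '' ![Ray B A, Ray B C] i := by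
    intro i
    fin_cases i
    · exact (segment_symm _ _ _).subset.trans (seg_ray hx.pos (h.pa 0))
    · exact seg_ray hx.pos (h.pa 1)
  have lq : ∀ i, link (rl w la lv (B, A, C, U, W)).2 i ⊆ NN w ''
      ![Ray (e 0) U, Seg (e 0) (e 1), Seg (e 1) (e 2), Seg (e 2) (e 3), Ray (e 3) W] i := by
    intro i
    fin_cases i
    · have := seg_ray (w := w) (D := U) (f1 0) (h.pv 0)
      rw [pt_e] at this
      exact (segment_symm _ _ _).subset.trans this
    · exact seg_seg 0 1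
    · exact seg_seg 1 2
    · exact seg_seg 2 3
    · have := seg_ray (w := w) (D := W) (f1 3) (h.pv 4)
      rw [pt_e] at this
      exact this
  have so : ∀ i : Fin 5, ![Ray (e 0) U, Seg (e 0) (e 1), Seg (e 1) (e 2), Seg (e 2) (e 3),
      Ray (e 3) W] i ⊆ Obs U W := by
    intro i
    fin_cases i
    · exact fun _ hz => Or.inr (Or.inl hz)
    · exact fun _ hz => Or.inl (Or.inl (Or.inl hz))
    · exact fun _ hz => Or.inl (Or.inl (Or.inr hz))
    · exact fun _ hz => Or.inl (Or.inr hz)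
    · exact fun _ hz => Or.inr (Or.inr hz)
  have sp : ∀ i : Fin 5, ![Ray (e 0) U, Seg (e 0) (e 1), Seg (e 1) (e 2), Seg (e 2) (e 3),
      Ray (e 3) W] i ⊆ ![Pl (e 0) U, Pl (e 0) (e 1), Pl (e 1) (e 2), Pl (e 2) (e 3),
      Pl (e 3) W] i := by
    intro i
    fin_cases i
    exacts [ray_sub _ _, seg_sub _ _, seg_sub _ _, seg_sub _ _, ray_sub _ _]
  have s1 : ∀ i : Fin 2, ∀ z ∈ ![Ray B A, Ray B C] i, fs z = 1 := by
    intro i
    fin_cases i <;> exact fun _ hz => hz.1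
  have i1 : I3 (e 1) (e 0) (e 2) := fun a b c e0 => by
    obtain ⟨h1, h2, h3⟩ := sk_e.i3 b a c (by linear_combination (norm := module) e0)
    exact ⟨h2, h1, h3⟩
  have i2 : I3 (e 2) (e 1) (e 3) := fun a b c e0 => by
    obtain ⟨-, h1, h2, h3⟩ := sk_e 0 b a c (by linear_combination (norm := module) e0)
    exact ⟨h2, h1, h3⟩
  refine ⟨⟨⟨fun i => ?_, fun i j hij y y1 y2 => ?_⟩, ⟨fun i => ?_, fun i j hij y y1 y2 => ?_⟩,
    fun i j => disjoint_left.2 fun y y1 y2 => ?_⟩, hl⟩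
  · exact dist_pos.1 ((h.pa i).trans_eq (hl.1 i).symm)
  · obtain ⟨z, z1, z2, rfl⟩ := h.same (s1 i) (s1 j) (lp i y1) (lp j y2)
    fin_cases i <;> fin_cases j <;> try exact absurd hij (by decide)
    refine ⟨rfl, ?_⟩
    rw [hx.ind.inter (ray_sub _ _ z1) (ray_sub _ _ z2), map_smul]
    rfl
  · exact dist_pos.1 ((h.pv i).trans_eq (hl.2 i).symm)
  · obtain ⟨z, z1, z2, rfl⟩ := h.same (fun z hz => fs_obs (so i hz))
      (fun z hz => fs_obs (so j hz)) (lq i y1) (lq j y2)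
    replace z1 := sp i z1
    replace z2 := sp j z2
    have fin : ∀ k, z = (fs (e k))⁻¹ • e k → NN w z = w k := fun k hk => by
      rw [hk, fs_e, inv_one, one_smul, NN_e]
    fin_cases i <;> fin_cases j <;> try exact absurd hij (by decide)
    · exact ⟨rfl, fin 0 (hx.cg.h1.i3.inter z1 z2)⟩
    · exact absurd z2 (disjoint_left.1 hx.cg.h1.disj z1)
    · exact absurd z2 (disjoint_left.1 hx.cg.h2.disj z1)
    · exact absurd z2 (disjoint_left.1 hx.cg.h3.disj z1)
    · exact ⟨rfl, fin 1 (i1.inter (pl_symm z1) z2)⟩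
    · exact absurd z2 (disjoint_left.1 sk_e.disj z1)
    · exact absurd z1 (disjoint_left.1 hx.cg.h4.disj z2)
    · exact ⟨rfl, fin 2 (i2.inter (pl_symm z1) z2)⟩
    · exact absurd z1 (disjoint_left.1 hx.cg.h5.disj z2)
    · exact ⟨rfl, fin 3 (hx.cg.h5.i3'.inter z2 (pl_symm z1))⟩
  · obtain ⟨z, z1, z2, rfl⟩ := h.same (s1 i) (fun z hz => fs_obs (so j hz)) (lp i y1) (lq j y2)
    fin_cases i
    · exact disjoint_left.1 hx.dA z1 (so j z2)
    · exact disjoint_left.1 hx.dC z1 (so j z2)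

theorem Core.join (h : Core w la lv) {x y : St} (H : JoinedIn MS x y) :
    JoinedIn (FF la lv) (rl w la lv x) (rl w la lv y) :=
  (H.map_continuousOn fun _ hz => (cont_rl (h.nd hz)).continuousWithinAt).mono
    (image_subset_iff.2 fun _ hz => h.adm hz)

/-! ### perturbation into general position -/

theorem sk_iff {P Q R S : V} : Sk P Q R S ↔ (Matrix.of ![P, Q, R, S]).det ≠ 0 := by
  have key : ∀ v : V, Matrix.vecMul v (Matrix.of ![P, Q, R, S]) =
      v 0 • P + v 1 • Q + v 2 • R + v 3 • S := fun v => by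
    funext j
    simp [Matrix.vecMul, dotProduct, Fin.sum_univ_four]
  rw [ne_eq, ← Matrix.exists_vecMul_eq_zero_iff]
  constructor
  · rintro h ⟨v, hv, e0⟩
    obtain ⟨h0, h1, h2, h3⟩ := h _ _ _ _ (key v ▸ e0)
    exact hv (funext fun j => by fin_cases j <;> assumption)
  · intro h a b c d e0
    have : (![a, b, c, d] : V) = 0 := by
      by_contra hn
      exact h ⟨_, hn, (key _).trans e0⟩
    exact ⟨congrFun this 0, congrFun this 1, congrFun this 2, congrFun this 3⟩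

theorem Sk.fin {P' Q' R' S' : V} (h : Sk P' Q' R' S') (P Q R S : V) :
    {t : ℝ | ¬ Sk (P + t • (P' - P)) (Q + t • (Q' - Q)) (R + t • (R' - R))
      (S + t • (S' - S))}.Finite := by
  refine (fin_bad (Matrix.of ![P, Q, R, S]) _ (sk_iff.1 h)).subset fun t ht => ?_
  rw [mem_ofPred_eq, sk_iff, not_not] at ht
  rw [mem_ofPred_eq, ← ht]
  congr 1
  ext i j
  fin_cases i <;> simp

def B1 : V := ![-1, -1, -2, -1]
def A1 : V := ![-1, 0, 0, 1]
def C1 : V := ![-1, 0, 1, 0]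
def U1 : V := ![0, 2, 1, 1]
def W1 : V := ![1, 1, 1, 0]

theorem tgt : Sk B1 A1 C1 (e 3) ∧ CG U1 W1 ∧ LG B1 A1 U1 W1 ∧ LG B1 C1 U1 W1 := by
  refine ⟨?_, ⟨?_, ?_, ?_, ?_, ?_⟩, ⟨?_, ?_, ?_, ?_, ?_⟩, ⟨?_, ?_, ?_, ?_, ?_⟩⟩
  all_goals
    intro a b c d h
    have h0 := congrFun h 0
    have h1 := congrFun h 1
    have h2 := congrFun h 2
    have h3 := congrFun h 3
    simp only [Pi.add_apply, Pi.smul_apply, smul_eq_mul, Pi.zero_apply] at h0 h1 h2 h3
    simp [e, B1, A1, C1, U1, W1] at h0 h1 h2 h3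
    refine ⟨?_, ?_, ?_, ?_⟩ <;> linarith

theorem LG.finb {B' D' U' W' : V} (h : LG B' D' U' W') (B D U W : V) :
    {t : ℝ | ¬ LG (B + t • (B' - B)) (D + t • (D' - D)) (U + t • (U' - U))
      (W + t • (W' - W))}.Finite := by
  refine (((((h.h1.fin B D (e 0) U).union (h.h2.fin B D (e 0) (e 1))).union
    (h.h3.fin B D (e 1) (e 2))).union (h.h4.fin B D (e 2) (e 3))).union
    (h.h5.fin B D (e 3) W)).subset fun t ht => ?_
  by_contra hn
  simp only [mem_union, mem_ofPred_eq, not_or, not_not, sub_self, smul_zero, add_zero] at hn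
  exact ht ⟨hn.1.1.1.1, hn.1.1.1.2, hn.1.1.2, hn.1.2, hn.2⟩

theorem gp_fin (B A C U W : V) : {t : ℝ | ¬ GP (B + t • (B1 - B)) (A + t • (A1 - A))
    (C + t • (C1 - C)) (U + t • (U1 - U)) (W + t • (W1 - W))}.Finite := by
  obtain ⟨h1, h2, h3, h4⟩ := tgt
  refine ((((((((h1.fin B A C (e 3)).union (h2.h1.fin (e 0) U (e 1) (e 2))).union
    (h2.h2.fin (e 0) U (e 2) (e 3))).union (h2.h3.fin (e 0) U (e 3) W)).union
    (h2.h4.fin (e 3) W (e 0) (e 1))).union (h2.h5.fin (e 3) W (e 1) (e 2))).union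
    (h3.finb B A U W)).union (h4.finb B C U W)).subset fun t ht => ?_
  by_contra hn
  simp only [mem_union, mem_ofPred_eq, not_or, not_not, sub_self, smul_zero, add_zero] at hn
  exact ht ⟨hn.1.1.1.1.1.1.1.i3, ⟨hn.1.1.1.1.1.1.2, hn.1.1.1.1.1.2, hn.1.1.1.1.2, hn.1.1.1.2,
    hn.1.1.2⟩, hn.1.2, hn.2⟩

theorem Core.perturb (h : Core w la lv) {x : St} (hx : Nd w x) (ha : rl w la lv x ∈ FF la lv) :
    ∃ B A C U W, GP B A C U W ∧ 0 < fs B ∧
      JoinedIn (FF la lv) (rl w la lv x) (rl w la lv (B, A, C, U, W)) ∧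
      ∀ j, x.1 j ≤ 0 → B j < 0 := by
  obtain ⟨B, A, C, U, W⟩ := x
  let Γ : ℝ → St := fun t => (B + t • (B1 - B), A + t • (A1 - A), C + t • (C1 - C),
    U + t • (U1 - U), W + t • (W1 - W))
  have hΓ : Continuous Γ := by fun_prop
  have h0 : Γ 0 = (B, A, C, U, W) := by simp [Γ]
  have ev : ∀ᶠ y in 𝓝 (B, A, C, U, W), Nd w y ∧ Admissible (rl w la lv y).1 (rl w la lv y).2 :=
    (ev_nd hx).and ((cont_rl hx).eventually (ev_adm ha.1))
  obtain ⟨t, t0, t1, tn, H⟩ := pick (hΓ.continuousAt.eventually (h0.symm ▸ ev)) (gp_fin B A C U W)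
  refine ⟨_, _, _, _, _, not_not.1 tn, (H t (right_mem_Icc.2 t0.le)).1.pos, ?_, fun j hj => ?_⟩
  · have := MP_85ac4c_co.join (F := FF la lv) (fun s => rl w la lv (Γ s)) t0.le
      (fun s hs => ((cont_rl (H s hs).1).comp hΓ.continuousAt).continuousWithinAt)
      (fun s hs => ⟨(H s hs).2, h.len (H s hs).1⟩)
    rwa [h0] at this
  · have : B1 j ≤ -1 := by fin_cases j <;> simp [B1]
    simp only [Pi.add_apply, Pi.smul_apply, Pi.sub_apply, smul_eq_mul] at hj ⊢
    nlinarith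

/-! ### the final motion -/

def Sep (q : Cf) : Prop :=
  ∃ (n : E3) (c : ℝ), (∀ i, inner ℝ n (q.1 i) < c) ∧ ∀ j, c < inner ℝ n (q.2 j)

theorem sep_of_far {q : Cf} (hq : q ∈ FF la lv)
    (hd : la 0 + la 1 + (lv 0 + lv 1 + lv 2 + lv 3 + lv 4) < dist (q.1 1) (q.2 1)) : Sep q := by
  obtain ⟨-, h1, h2⟩ := hq
  have a0 : dist (q.1 0) (q.1 1) = la 0 := h1 0
  have a1 : dist (q.1 1) (q.1 2) = la 1 := h1 1
  have b0 : dist (q.2 0) (q.2 1) = lv 0 := h2 0
  have b1 : dist (q.2 1) (q.2 2) = lv 1 := h2 1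
  have b2 : dist (q.2 2) (q.2 3) = lv 2 := h2 2
  have b3 : dist (q.2 3) (q.2 4) = lv 3 := h2 3
  have b4 : dist (q.2 4) (q.2 5) = lv 4 := h2 4
  have p0 : 0 ≤ la 0 := a0 ▸ dist_nonneg
  have p1 : 0 ≤ la 1 := a1 ▸ dist_nonneg
  have r0 : 0 ≤ lv 0 := b0 ▸ dist_nonneg
  have r1 : 0 ≤ lv 1 := b1 ▸ dist_nonneg
  have r2 : 0 ≤ lv 2 := b2 ▸ dist_nonneg
  have r3 : 0 ≤ lv 3 := b3 ▸ dist_nonneg
  have r4 : 0 ≤ lv 4 := b4 ▸ dist_nonneg
  have c1 : ∀ i, q.1 i ∈ Metric.closedBall (q.1 1) (la 0 + la 1) := fun i => by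
    rw [Metric.mem_closedBall]
    fin_cases i
    · exact a0.trans_le (by linarith)
    · exact (dist_self _).trans_le (by linarith)
    · exact ((dist_comm _ _).trans a1).trans_le (by linarith)
  have c2 : ∀ i, q.2 i ∈ Metric.closedBall (q.2 1) (lv 0 + lv 1 + lv 2 + lv 3 + lv 4) := fun i => by
    rw [Metric.mem_closedBall']
    have t3 := dist_triangle (q.2 1) (q.2 2) (q.2 3)
    have t4 := dist_triangle (q.2 1) (q.2 3) (q.2 4)
    have t5 := dist_triangle (q.2 1) (q.2 4) (q.2 5)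
    fin_cases i
    · exact ((dist_comm _ _).trans b0).trans_le (by linarith)
    · exact (dist_self _).trans_le (by linarith)
    · exact b1.trans_le (by linarith)
    · exact t3.trans (by linarith)
    · exact t4.trans (by linarith)
    · exact t5.trans (by linarith)
  obtain ⟨f, u, v, f1, f2, f3⟩ := geometric_hahn_banach_compact_closed (convex_closedBall _ _)
    (isCompact_closedBall _ _) (convex_closedBall _ _) Metric.isClosed_closedBall
    (Metric.closedBall_disjoint_closedBall hd)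
  refine ⟨(InnerProductSpace.toDual ℝ E3).symm f, u, fun i => ?_, fun j => ?_⟩ <;>
    rw [InnerProductSpace.toDual_symm_apply]
  · exact f1 _ (c1 i)
  · exact f2.trans (f3 _ (c2 j))

theorem Core.final (h : Core w la lv) (g : GP B A C U W) (hp : 0 < fs B) {j : Fin 4}
    (hj : B j < 0) : ∃ q, JoinedIn (FF la lv) (rl w la lv (B, A, C, U, W)) q ∧ Sep q := by
  set R := la 0 + la 1 + (lv 0 + lv 1 + lv 2 + lv 3 + lv 4) with hR
  set s₀ := fs B / -B j with hs₀
  have s0 : 0 < s₀ := div_pos hp (by linarith)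
  have s1 : fs B + s₀ * B j = 0 := by
    have := hj.ne
    rw [hs₀]
    field_simp
    ring
  have hn : NN w (lam j s₀ * B) ≠ 0 := fun e0 => by
    have := congrFun (h.inj _ e0 (by rw [fs_lam, s1])) j
    exact (mul_neg_of_pos_of_neg (lam_pos j s0.le j) hj).ne this
  have ev : ∀ᶠ s in 𝓝 s₀, R * (fs B + s * B j) <
      ‖NN w (lam j s * B) - (fs B + s * B j) • w 0‖ := by
    refine (isOpen_lt (by fun_prop) (by unfold lam; fun_prop)).mem_nhds ?_
    simpa [s1] using hn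
  obtain ⟨s, hs, s2, s3⟩ := ((ev.filter_mono nhdsWithin_le_nhds).and
    (Ioo_mem_nhdsLT s0)).exists
  have f0 : 0 < fs B + s * B j := by nlinarith
  have J := h.join (join_lam g j s2.le hp f0)
  refine ⟨_, J, sep_of_far J.target_mem ?_⟩
  change R < dist (pt w (lam j s * B)) (w 0)
  have : pt w (lam j s * B) - w 0 =
      (fs B + s * B j)⁻¹ • (NN w (lam j s * B) - (fs B + s * B j) • w 0) := by
    rw [pt, fs_lam, smul_sub, smul_smul, inv_mul_cancel₀ f0.ne', one_smul]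
  rw [dist_eq_norm, this, norm_smul, Real.norm_of_nonneg (inv_pos.2 f0).le, ← div_eq_inv_mul]
  exact (lt_div_iff₀ f0).2 hs

theorem Core.free (h : Core w la lv) {x : St} (hx : Nd w x) (ha : rl w la lv x ∈ FF la lv) :
    ∃ q, JoinedIn (FF la lv) (rl w la lv x) q ∧ Sep q := by
  obtain ⟨B, A, C, U, W, g, hp, J, -⟩ := h.perturb hx ha
  by_cases hB : 0 ≤ B
  · obtain ⟨y, hy, j, hj⟩ := out_main g hp hB
    obtain ⟨B', A', C', U', W', g', hp', J', H⟩ :=
      h.perturb (h.nd hy.target_mem) (h.adm hy.target_mem)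
    obtain ⟨q, hq, hs⟩ := h.final g' hp' (H j hj)
    exact ⟨q, ((J.trans (h.join hy)).trans J').trans hq, hs⟩
  · obtain ⟨j, hj⟩ : ∃ j, B j < 0 := by
      by_contra hc
      push Not at hc
      exact hB hc
    obtain ⟨q, hq, hs⟩ := h.final g hp hj
    exact ⟨q, J.trans hq, hs⟩

end Pool.Agent.P.MP_85ac4c_co
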