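import Pool.Agent.P.MP_85ac4c_co.NineB

/-!
The affine part of the lock of a 2-chain with a 7-chain.  The joints `0, …, 7` have coordinates
`s, t` along the two links of the 2-chain and height `z`; the apex is the origin.
-/

set_option autoImplicit false

namespace Pool.Agent.P.MP_85ac4c_co.Seven

open Set Nine

/-- the value of `u` where the line of link `i` meets `z = 0` is above `m` -/
def Gt (u z : ℕ → ℝ) (i : ℕ) (m : ℝ) : Prop :=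
  m * (z (i + 1) - z i) ^ 2 < (z (i + 1) - z i) * (z (i + 1) * u i - z i * u (i + 1))

/-- the value of `u` where the line of link `i` meets `z = 0` is below `m` -/
def Lt (u z : ℕ → ℝ) (i : ℕ) (m : ℝ) : Prop :=
  (z (i + 1) - z i) * (z (i + 1) * u i - z i * u (i + 1)) < m * (z (i + 1) - z i) ^ 2

theorem gt_iff {u z : ℕ → ℝ} {i : ℕ} {θ m : ℝ} (h : ip z i θ = 0) (hz : z i ≠ z (i + 1)) :
    Gt u z i m ↔ m < ip u i θ := by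
  have := sq_pos_of_ne_zero (sub_ne_zero.mpr hz.symm)
  unfold Gt
  rw [cr h, ← mul_assoc, ← sq, mul_comm m, mul_lt_mul_iff_right₀ this]

theorem lt_iff {u z : ℕ → ℝ} {i : ℕ} {θ m : ℝ} (h : ip z i θ = 0) (hz : z i ≠ z (i + 1)) :
    Lt u z i m ↔ ip u i θ < m := by
  have := sq_pos_of_ne_zero (sub_ne_zero.mpr hz.symm)
  unfold Lt
  rw [cr h, ← mul_assoc, ← sq, mul_comm m, mul_lt_mul_iff_right₀ this]

/-- the line of link `i` pierces the open square -/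
def Pin (c A B : ℕ → ℝ) (m : ℝ) (i : ℕ) : Prop :=
  Gt A c i 0 ∧ Lt A c i m ∧ Gt B c i 0 ∧ Lt B c i m

/-- the line of link `i` misses the closed square -/
def Pout (c A B : ℕ → ℝ) (m : ℝ) (i : ℕ) : Prop :=
  Lt A c i 0 ∨ Gt A c i m ∨ Lt B c i 0 ∨ Gt B c i m

/-- a point of link `i` lies in the closed square -/
def Hit (c A B : ℕ → ℝ) (m : ℝ) (i : ℕ) (θ : ℝ) : Prop :=
  ip c i θ = 0 ∧ 0 ≤ ip A i θ ∧ ip A i θ ≤ m ∧ 0 ≤ ip B i θ ∧ ip B i θ ≤ m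

/-- the last two links thread the square, open form -/
def TO (c A B : ℕ → ℝ) (m : ℝ) : Prop :=
  (0 < c 6 ∨ Pin c A B m 5) ∧ (c 6 < 0 ∨ (c 7 < 0 ∧ Pin c A B m 6)) ∧
    (c 7 < 0 ∨ Pout c A B m 6)

/-- the last two links thread the square, closed form -/
def TC (c A B : ℕ → ℝ) (m θ : ℝ) : Prop :=
  (Hit c A B m 5 θ ∨ (c 7 ≤ 0 ∧ 0 ≤ c 6 ∧ Hit c A B m 6 θ)) ∧ (c 7 ≤ 0 ∨ ¬ Pin c A B m 6)

section thread

variable {c A B : ℕ → ℝ} {m : ℝ}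

theorem pin_iff {i : ℕ} {θ : ℝ} (h : ip c i θ = 0) (hz : c i ≠ c (i + 1)) :
    Pin c A B m i ↔ 0 < ip A i θ ∧ ip A i θ < m ∧ 0 < ip B i θ ∧ ip B i θ < m := by
  unfold Pin
  rw [gt_iff h hz, gt_iff h hz, lt_iff h hz, lt_iff h hz]

theorem hit_of_pin {i : ℕ} {θ : ℝ} (h : ip c i θ = 0) (hz : c i ≠ c (i + 1))
    (hp : Pin c A B m i) : Hit c A B m i θ := by
  obtain ⟨h1, h2, h3, h4⟩ := (pin_iff h hz).mp hp
  exact ⟨h, h1.le, h2.le, h3.le, h4.le⟩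

theorem TC_of_TO (c5 : 0 < c 5) (h : TO c A B m) : ∃ θ ∈ Icc (0 : ℝ) 1, TC c A B m θ := by
  obtain ⟨h1, h2, h3⟩ := h
  have k : c 7 ≤ 0 ∨ ¬ Pin c A B m 6 := by
    refine h3.imp le_of_lt fun h ⟨k1, k2, k3, k4⟩ => ?_
    unfold Pout Gt Lt at *
    rcases h with h | h | h | h <;> linarith
  rcases le_or_gt (c 6) 0 with h6 | h6
  · obtain ⟨θ, hθ, e⟩ := par (mul_nonpos_of_nonneg_of_nonpos c5.le h6) (by linarith)
    exact ⟨θ, hθ, Or.inl (hit_of_pin (i := 5) e (by linarith [c5, h6] : c 6 < c 5).ne'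
      (h1.resolve_left (by linarith))), k⟩
  · obtain ⟨h7, h8⟩ := h2.resolve_left (by linarith)
    obtain ⟨θ, hθ, e⟩ := par (mul_neg_of_pos_of_neg h6 h7).le (by linarith)
    exact ⟨θ, hθ, Or.inr ⟨h7.le, h6.le,
      hit_of_pin (i := 6) e (by linarith : c 7 < c 6).ne' h8⟩, k⟩

theorem exit {θ : ℝ} (hθ : θ ∈ Icc (0 : ℝ) 1) (h6 : c 6 = 0) (h7 : c 7 = 0)
    (h : Hit c A B m 6 θ) (h1 : ¬ Hit c A B m 6 1)
    (nb : ∀ x ∈ Icc (0 : ℝ) 1, Hit c A B m 6 x →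
      0 < ip A 6 x ∧ ip A 6 x < m ∧ 0 < ip B 6 x ∧ ip B 6 x < m) : False := by
  have z : ∀ x, ip c 6 x = 0 := fun x => by simp [ip, h6, h7]
  have hc : ContinuousOn (fun x : ℝ => min (min (ip A 6 x) (m - ip A 6 x))
      (min (ip B 6 x) (m - ip B 6 x))) (Icc θ 1) := by
    unfold ip
    fun_prop
  have k : ∀ x, 0 ≤ min (min (ip A 6 x) (m - ip A 6 x)) (min (ip B 6 x) (m - ip B 6 x)) ↔
      Hit c A B m 6 x := fun x => by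
    simp only [le_min_iff, sub_nonneg, Hit, z, true_and, and_assoc]
  obtain ⟨x, hx, e⟩ := @intermediate_value_Icc' _ _ _ _ _ _ _ _ _ _ _ hθ.2 _ hc 0
    ⟨(not_le.mp ((k 1).not.mpr h1)).le, (k θ).mpr h⟩
  obtain ⟨k1, k2, k3, k4⟩ := nb x ⟨hθ.1.trans hx.1, hx.2⟩ ((k x).mp e.ge)
  exact (lt_min (lt_min k1 (sub_pos.mpr k2)) (lt_min k3 (sub_pos.mpr k4))).ne' e

theorem TO_of_TC {θ : ℝ} (hθ : θ ∈ Icc (0 : ℝ) 1) (c5 : 0 < c 5) (h : TC c A B m θ)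
    (h1 : ¬ Hit c A B m 6 1)
    (n5 : ∀ x ∈ Icc (0 : ℝ) 1, Hit c A B m 5 x →
      0 < ip A 5 x ∧ ip A 5 x < m ∧ 0 < ip B 5 x ∧ ip B 5 x < m)
    (n6 : ∀ x ∈ Icc (0 : ℝ) 1, Hit c A B m 6 x →
      0 < ip A 6 x ∧ ip A 6 x < m ∧ 0 < ip B 6 x ∧ ip B 6 x < m) : TO c A B m := by
  have p5 : ∀ x ∈ Icc (0 : ℝ) 1, Hit c A B m 5 x → c 5 ≠ c 6 → Pin c A B m 5 :=
    fun x hx k hz => (pin_iff k.1 hz).mpr (n5 x hx k)
  have p6 : ∀ x ∈ Icc (0 : ℝ) 1, Hit c A B m 6 x → c 6 ≠ c 7 → Pin c A B m 6 :=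
    fun x hx k hz => (pin_iff k.1 hz).mpr (n6 x hx k)
  have e : Hit c A B m 5 1 ↔ Hit c A B m 6 0 := by simp only [Hit, ip_one, ip_zero]
  have n7 : ∀ x ∈ Icc (0 : ℝ) 1, Hit c A B m 6 x → c 7 ≠ 0 := by
    intro x hx k h7
    refine exit hx ?_ h7 k h1 n6
    by_contra h6
    have k1 := k.1
    unfold ip at k1
    rw [show c (6 + 1) = 0 from h7] at k1
    obtain rfl : x = 1 := by
      have : (1 - x) * c 6 = 0 := by linarith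
      linarith [(mul_eq_zero.mp this).resolve_right h6]
    exact h1 k
  obtain ⟨k | ⟨k7, k6, k⟩, k2⟩ := h
  · have k1 := k.1
    unfold ip at k1
    simp only [Nat.reduceAdd] at k1
    have c6 : c 6 ≤ 0 := by
      by_contra h6
      rcases eq_or_lt_of_le hθ.1 with h | h
      · rw [← h] at k1
        linarith
      · linarith [mul_pos h (not_le.mp h6), mul_nonneg (sub_nonneg.mpr hθ.2) c5.le]
    have a7 : ∀ x ∈ Icc (0 : ℝ) 1, Hit c A B m 6 x → c 6 ≠ c 7 → c 7 < 0 := fun x hx k hz =>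
      lt_of_le_of_ne (k2.resolve_right (not_not.mpr (p6 x hx k hz))) (n7 x hx k)
    refine ⟨Or.inr (p5 θ hθ k (by linarith : c 6 < c 5).ne'), ?_⟩
    rcases eq_or_lt_of_le c6 with h6 | h6
    · obtain rfl : θ = 1 := by
        rw [h6] at k1
        have : (1 - θ) * c 5 = 0 := by linarith
        linarith [(mul_eq_zero.mp this).resolve_right c5.ne']
      have o0 : (0 : ℝ) ∈ Icc (0 : ℝ) 1 := ⟨le_rfl, zero_le_one⟩
      have hz : c 6 ≠ c 7 := h6 ▸ (n7 0 o0 (e.mp k)).symm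
      have := a7 0 o0 (e.mp k) hz
      exact ⟨Or.inr ⟨this, p6 0 o0 (e.mp k) hz⟩, Or.inl this⟩
    · refine ⟨Or.inl h6, ?_⟩
      by_contra hn
      rw [not_or, not_lt] at hn
      have hz : c 6 ≠ c 7 := by linarith [hn.1]
      obtain ⟨x, hx, ex⟩ := par (mul_nonpos_of_nonpos_of_nonneg c6 hn.1) hz
      have ex' : ip c 6 x = 0 := ex
      refine absurd (a7 x hx ?_ hz) (not_lt.mpr hn.1)
      have := hn.2
      unfold Pout at this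
      rw [gt_iff ex' hz, gt_iff ex' hz, lt_iff ex' hz, lt_iff ex' hz] at this
      simp only [not_or, not_lt] at this
      exact ⟨ex', this⟩
  · have c7 := lt_of_le_of_ne k7 (n7 θ hθ k)
    refine ⟨?_, Or.inr ⟨c7, p6 θ hθ k (by linarith : c 7 < c 6).ne'⟩, Or.inl c7⟩
    refine (eq_or_lt_of_le k6).symm.imp id fun h6 => ?_
    have k1 := k.1
    unfold ip at k1
    simp only [Nat.reduceAdd] at k1
    obtain rfl : θ = 0 := by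
      rw [← h6] at k1
      have : θ * c 7 = 0 := by linarith
      exact (mul_eq_zero.mp this).resolve_right c7.ne
    exact p5 1 ⟨zero_le_one, le_rfl⟩ (e.mpr k) (by linarith : c 6 < c 5).ne'

end thread

/-- determinant of three joints -/
def dj (s t z : ℕ → ℝ) (i j k : ℕ) : ℝ :=
  s i * (t j * z k - z j * t k) - t i * (s j * z k - z j * s k) + z i * (s j * t k - t j * s k)

/-- first coordinate in the parallelogram on the links `0, 1` -/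
def aa (s t z : ℕ → ℝ) (i : ℕ) : ℝ := dj s t z i 2 1

/-- second coordinate in the parallelogram on the links `0, 1` -/
def bb (s t z : ℕ → ℝ) (i : ℕ) : ℝ := dj s t z 0 i 1

/-- height over the plane of the links `0, 1` -/
def cc (s t z : ℕ → ℝ) (i : ℕ) : ℝ :=
  dj s t z 0 2 i + dj s t z i 2 1 + dj s t z 0 i 1 - dj s t z 0 2 1

/-- the open pattern of crossings -/
def HO (s t z : ℕ → ℝ) : Prop :=
  (z 0 < 0 ∧ 0 < z 1 ∧ z 2 < 0 ∧ 0 < z 3 ∧ z 4 < 0 ∧ 0 < z 5 ∧ z 6 < 0 ∧ 0 < z 7) ∧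
  (Gt s z 0 0 ∧ Gt t z 0 0 ∧ Lt s z 1 0 ∧ Gt t z 1 0 ∧ Gt s z 2 0 ∧ Gt t z 2 0 ∧ Lt s z 3 0 ∧
    Gt t z 3 0 ∧ Gt s z 4 0 ∧ Gt t z 4 0 ∧ Gt s z 5 0 ∧ Lt t z 5 0 ∧ Gt s z 6 0 ∧ Gt t z 6 0) ∧
  (0 < cc s t z 3 ∧ 0 < cc s t z 5 ∧ Gt (cc s t z) z 5 0) ∧
  (dj s t z 3 4 6 < 0 ∧ 0 < dj s t z 3 4 7 ∧ dj s t z 4 6 7 < 0 ∧ 0 < dj s t z 3 6 7 ∧
    dj s t z 3 6 7 - dj s t z 4 6 7 < dj s t z 3 4 7 - dj s t z 3 4 6 ∧
    0 < dj s t z 3 4 7 * z 6 - dj s t z 3 4 6 * z 7) ∧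
  TO (cc s t z) (aa s t z) (bb s t z) (dj s t z 0 2 1)

/-- the closed pattern of crossings, with witnesses -/
def HC (s t z w : ℕ → ℝ) : Prop :=
  (z 0 ≤ 0 ∧ 0 ≤ z 1 ∧ z 2 ≤ 0 ∧ 0 ≤ z 3 ∧ z 4 ≤ 0 ∧ 0 ≤ z 5 ∧ z 6 ≤ 0 ∧ 0 ≤ z 7) ∧
  (ip z 0 (w 0) = 0 ∧ ip z 1 (w 1) = 0 ∧ ip z 2 (w 2) = 0 ∧ ip z 3 (w 3) = 0 ∧
    ip z 4 (w 4) = 0 ∧ ip z 5 (w 5) = 0 ∧ ip z 6 (w 6) = 0) ∧
  (0 ≤ ip s 0 (w 0) ∧ 0 ≤ ip t 0 (w 0) ∧ ip s 1 (w 1) ≤ 0 ∧ 0 ≤ ip t 1 (w 1) ∧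
    0 ≤ ip s 2 (w 2) ∧ 0 ≤ ip t 2 (w 2) ∧ ip s 3 (w 3) ≤ 0 ∧ 0 ≤ ip t 3 (w 3) ∧
    0 ≤ ip s 4 (w 4) ∧ 0 ≤ ip t 4 (w 4) ∧ 0 ≤ ip s 5 (w 5) ∧ ip t 5 (w 5) ≤ 0 ∧
    0 ≤ ip s 6 (w 6) ∧ 0 ≤ ip t 6 (w 6)) ∧
  (0 ≤ cc s t z 3 ∧ 0 ≤ cc s t z 5 ∧ 0 ≤ ip (cc s t z) 5 (w 5)) ∧
  (w 8 + w 9 ≤ 1 ∧ ip s 6 (w 7) = w 8 * s 3 + w 9 * s 4 ∧ ip t 6 (w 7) = w 8 * t 3 + w 9 * t 4 ∧
    ip z 6 (w 7) = w 8 * z 3 + w 9 * z 4 ∧ 0 ≤ ip z 6 (w 7)) ∧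
  TC (cc s t z) (aa s t z) (bb s t z) (dj s t z 0 2 1) (w 10)

theorem HC_of_HO {s t z : ℕ → ℝ} (h : HO s t z) : ∃ w ∈ Icc (0 : ℕ → ℝ) 1, HC s t z w := by
  obtain ⟨⟨z0, z1, z2, z3, z4, z5, z6, z7⟩,
    ⟨s0, t0, s1, t1, s2, t2, s3, t3, s4, t4, s5, t5, s6, t6⟩, ⟨c3, c5, c6⟩,
    ⟨n6, n7, nx, ny, nxy, nz⟩, ho⟩ := h
  have q0 : z 0 ≠ z 1 := (z0.trans z1).ne
  have q1 : z 1 ≠ z 2 := (z2.trans z1).ne'
  have q2 : z 2 ≠ z 3 := (z2.trans z3).ne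
  have q3 : z 3 ≠ z 4 := (z4.trans z3).ne'
  have q4 : z 4 ≠ z 5 := (z4.trans z5).ne
  have q5 : z 5 ≠ z 6 := (z6.trans z5).ne'
  have q6 : z 6 ≠ z 7 := (z6.trans z7).ne
  obtain ⟨w0, b0, e0⟩ := par (mul_neg_of_neg_of_pos z0 z1).le q0
  obtain ⟨w1, b1, e1⟩ := par (mul_neg_of_pos_of_neg z1 z2).le q1
  obtain ⟨w2, b2, e2⟩ := par (mul_neg_of_neg_of_pos z2 z3).le q2
  obtain ⟨w3, b3, e3⟩ := par (mul_neg_of_pos_of_neg z3 z4).le q3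
  obtain ⟨w4, b4, e4⟩ := par (mul_neg_of_neg_of_pos z4 z5).le q4
  obtain ⟨w5, b5, e5⟩ := par (mul_neg_of_pos_of_neg z5 z6).le q5
  obtain ⟨w6, b6, e6⟩ := par (mul_neg_of_neg_of_pos z6 z7).le q6
  obtain ⟨w7, b7, e7⟩ := par (mul_neg_of_neg_of_pos n6 n7).le (n6.trans n7).ne
  obtain ⟨w10, b10, hc⟩ := TC_of_TO c5 ho
  have pD : 0 < dj s t z 3 4 7 - dj s t z 3 4 6 := by linarith
  obtain ⟨x, hx⟩ : ∃ x, (dj s t z 3 4 7 - dj s t z 3 4 6) * x = -dj s t z 4 6 7 :=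
    ⟨_, mul_div_cancel₀ _ pD.ne'⟩
  obtain ⟨y, hy⟩ : ∃ y, (dj s t z 3 4 7 - dj s t z 3 4 6) * y = dj s t z 3 6 7 :=
    ⟨_, mul_div_cancel₀ _ pD.ne'⟩
  have x0 : 0 < x := pp pD (by linarith)
  have y0 : 0 < y := pp pD (by linarith)
  have xy : x + y - 1 < 0 := pn pD (by linarith)
  have th : ∀ u : ℕ → ℝ, dj s t z 3 4 7 * u 6 - dj s t z 3 4 6 * u 7
      = dj s t z 3 6 7 * u 4 - dj s t z 4 6 7 * u 3 → ip u 6 w7 = x * u 3 + y * u 4 := by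
    intro u hu
    apply mul_left_cancel₀ pD.ne'
    unfold ip
    linear_combination hu + (u 7 - u 6) * e7 - u 3 * hx - u 4 * hy
  have zt : 0 < ip z 6 w7 := pp pD (by
    unfold ip
    linear_combination nz - (z 7 - z 6) * e7)
  refine ⟨fun i => if i = 0 then w0 else if i = 1 then w1 else if i = 2 then w2 else
    if i = 3 then w3 else if i = 4 then w4 else if i = 5 then w5 else if i = 6 then w6 else
    if i = 7 then w7 else if i = 8 then x else if i = 9 then y else w10,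
    ⟨fun i => ?_, fun i => ?_⟩, ?_⟩
  · simp only [Pi.zero_apply]
    split_ifs <;> linarith [b0.1, b1.1, b2.1, b3.1, b4.1, b5.1, b6.1, b7.1, b10.1]
  · simp only [Pi.one_apply]
    split_ifs <;> linarith [b0.2, b1.2, b2.2, b3.2, b4.2, b5.2, b6.2, b7.2, b10.2]
  · exact ⟨⟨z0.le, z1.le, z2.le, z3.le, z4.le, z5.le, z6.le, z7.le⟩,
      ⟨e0, e1, e2, e3, e4, e5, e6⟩,
      ⟨((gt_iff e0 q0).mp s0).le, ((gt_iff e0 q0).mp t0).le, ((lt_iff e1 q1).mp s1).le,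
        ((gt_iff e1 q1).mp t1).le, ((gt_iff e2 q2).mp s2).le, ((gt_iff e2 q2).mp t2).le,
        ((lt_iff e3 q3).mp s3).le, ((gt_iff e3 q3).mp t3).le, ((gt_iff e4 q4).mp s4).le,
        ((gt_iff e4 q4).mp t4).le, ((gt_iff e5 q5).mp s5).le, ((lt_iff e5 q5).mp t5).le,
        ((gt_iff e6 q6).mp s6).le, ((gt_iff e6 q6).mp t6).le⟩,
      ⟨c3.le, c5.le, ((gt_iff e5 q5).mp c6).le⟩,
      ⟨(by linarith : x + y ≤ 1), th s (by unfold dj; ring), th t (by unfold dj; ring),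
        th z (by unfold dj; ring), zt.le⟩, hc⟩

theorem open_HO {X : Type} [TopologicalSpace X] {s t z : X → ℕ → ℝ} (hs : Continuous s)
    (ht : Continuous t) (hz : Continuous z) : IsOpen {x | HO (s x) (t x) (z x)} := by
  unfold HO TO Pin Pout Gt Lt cc aa bb dj
  simp only [ofPred_and, ofPred_or]
  repeat' first | apply IsOpen.inter | apply IsOpen.union
  all_goals exact isOpen_lt (by fun_prop) (by fun_prop)

theorem closed_HC {X : Type} [TopologicalSpace X] {s t z w : X → ℕ → ℝ} (hs : Continuous s)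
    (ht : Continuous t) (hz : Continuous z) (hw : Continuous w) :
    IsClosed {x | HC (s x) (t x) (z x) (w x)} := by
  unfold HC TC Hit Pin Gt Lt cc aa bb dj ip
  simp only [not_and_or, not_lt, ofPred_and, ofPred_or]
  repeat' first | apply IsClosed.inter | apply IsClosed.union
  all_goals first
    | exact isClosed_le (by fun_prop) (by fun_prop)
    | exact isClosed_eq (by fun_prop) (by fun_prop)

end Pool.Agent.P.MP_85ac4c_co.Seven
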