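import Pool.Agent.P.MP_85ac4c_co.SevenA

/-!
The closed pattern of crossings of the 7-chain is the open one when the chains do not meet.
-/

set_option autoImplicit false

namespace Pool.Agent.P.MP_85ac4c_co.Seven

open Set Nine

theorem ip_gt {u : ℕ → ℝ} {i : ℕ} {θ τ l : ℝ} (h0 : 0 ≤ θ) (h1 : θ ≤ τ) (k0 : l < u i)
    (k1 : l < ip u i τ) : l < ip u i θ := by
  unfold ip at *
  rcases le_total 0 (u (i + 1) - u i) with h | h <;> nlinarith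

theorem ip_lt {u : ℕ → ℝ} {i : ℕ} {θ τ l : ℝ} (h0 : 0 ≤ θ) (h1 : θ ≤ τ) (k0 : u i < l)
    (k1 : ip u i τ < l) : ip u i θ < l := by
  unfold ip at *
  rcases le_total 0 (u (i + 1) - u i) with h | h <;> nlinarith

theorem ip_gt1 {u : ℕ → ℝ} {i : ℕ} {θ l : ℝ} (h : θ ∈ Icc (0 : ℝ) 1) (k0 : l < u i)
    (k1 : l < u (i + 1)) : l < ip u i θ := ip_gt h.1 h.2 k0 (by rwa [ip_one])

theorem ip_lt1 {u : ℕ → ℝ} {i : ℕ} {θ l : ℝ} (h : θ ∈ Icc (0 : ℝ) 1) (k0 : u i < l)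
    (k1 : u (i + 1) < l) : ip u i θ < l := ip_lt h.1 h.2 k0 (by rwa [ip_one])

theorem hull {x y p q M : ℝ} (hx : 0 ≤ x) (hy : 0 ≤ y) (h : x + y ≤ 1) (hp : p < M) (hq : q < M)
    (hM : 0 < M) : x * p + y * q < M := by
  have := max_lt hp (max_lt hq hM)
  have h1 := le_max_left p (max q 0)
  have h2 := (le_max_left q 0).trans (le_max_right p _)
  have h3 := (le_max_right q 0).trans (le_max_right p _)
  nlinarith

theorem lt_cr {zu zl xu xl : ℝ} (hu : 0 < zu) (hl : zl < 0)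
    (h : 0 < zu * (xl * zl) - zl * (xu * zu)) : xl < xu :=
  sub_pos.mp (pp (mul_pos hu (neg_pos.mpr hl)) (by linarith))

theorem gt_cr {zu zl xu xl : ℝ} (hu : 0 < zu) (hl : zl < 0)
    (h : zu * (xl * zl) - zl * (xu * zu) < 0) : xu < xl :=
  sub_pos.mp (pp (mul_pos hu (neg_pos.mpr hl)) (by linarith))

/-- the order of the joints as seen from the apex -/
theorem ord {z3 z4 z5 z6 zT s3 s4 s5 sT t3 t5 t6 tT a b c : ℝ} (h3 : 0 < z3) (h4 : z4 < 0)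
    (h5 : 0 < z5) (h6 : z6 < 0) (hT : 0 < zT) (c34 : z3 * s4 - z4 * s3 < 0)
    (c45 : 0 < z5 * s4 - z4 * s5) (c56 : z5 * t6 - z6 * t5 < 0) (c6T : 0 < zT * t6 - z6 * tT)
    (ha : a ≤ 0) (hb : 0 ≤ b) (f3 : a * s3 + b * t3 + c * z3 < 0)
    (f5 : 0 < a * s5 + b * t5 + c * z5) : 0 < z3 * s5 - z5 * s3 ∧ 0 < z3 * t5 - z5 * t3 ∧ 0 < b ∧
      0 < z3 * tT - zT * t3 ∧ (z3 * sT - zT * s3 ≤ 0 → 0 < a * sT + b * tT + c * zT) := by
  obtain ⟨x3, rfl⟩ : ∃ r, s3 = r * z3 := ⟨_, (div_mul_cancel₀ _ h3.ne').symm⟩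
  obtain ⟨x4, rfl⟩ : ∃ r, s4 = r * z4 := ⟨_, (div_mul_cancel₀ _ h4.ne).symm⟩
  obtain ⟨x5, rfl⟩ : ∃ r, s5 = r * z5 := ⟨_, (div_mul_cancel₀ _ h5.ne').symm⟩
  obtain ⟨xT, rfl⟩ : ∃ r, sT = r * zT := ⟨_, (div_mul_cancel₀ _ hT.ne').symm⟩
  obtain ⟨y3, rfl⟩ : ∃ r, t3 = r * z3 := ⟨_, (div_mul_cancel₀ _ h3.ne').symm⟩
  obtain ⟨y5, rfl⟩ : ∃ r, t5 = r * z5 := ⟨_, (div_mul_cancel₀ _ h5.ne').symm⟩
  obtain ⟨y6, rfl⟩ : ∃ r, t6 = r * z6 := ⟨_, (div_mul_cancel₀ _ h6.ne).symm⟩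
  obtain ⟨yT, rfl⟩ : ∃ r, tT = r * zT := ⟨_, (div_mul_cancel₀ _ hT.ne').symm⟩
  have a34 := gt_cr h3 h4 c34
  have a45 := lt_cr h5 h4 c45
  have a56 := gt_cr h5 h6 c56
  have a6T := lt_cr hT h6 c6T
  have g3 : a * x3 + b * y3 + c < 0 := pn h3 (by linarith)
  have g5 : 0 < a * x5 + b * y5 + c := pp h5 (by linarith)
  have k : 0 < b * (y5 - y3) := by
    linarith [mul_nonneg (neg_nonneg.mpr ha) (by linarith : 0 ≤ x5 - x3)]
  have b0 : 0 < b := lt_of_le_of_ne hb fun h => by simp [← h] at k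
  have y35 := pp b0 k
  refine ⟨?_, ?_, b0, ?_, fun h => ?_⟩
  · linarith [mul_pos (mul_pos h3 h5) (by linarith : 0 < x5 - x3)]
  · linarith [mul_pos (mul_pos h3 h5) y35]
  · linarith [mul_pos (mul_pos h3 hT) (by linarith : 0 < yT - y3)]
  · have x : xT ≤ x3 := by
      by_contra hn
      linarith [mul_pos (mul_pos h3 hT) (sub_pos.mpr (not_le.mp hn))]
    have : 0 < a * xT + b * yT + c := by
      linarith [mul_nonneg (neg_nonneg.mpr ha) (by linarith : 0 ≤ x5 - xT),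
        mul_nonneg hb (by linarith : 0 ≤ yT - y5)]
    linarith [mul_pos hT this]

/-- the crossing of link `0` lies in the triangle of the apex and the crossings `1, 5` -/
theorem plane {S0 T0 S1 T1 S5 T5 : ℝ} (s0 : 0 < S0) (t0 : 0 < T0) (s1 : S1 < 0) (t1 : 0 ≤ T1)
    (s5 : 0 ≤ S5) (t5 : T5 < 0)
    (h : 0 ≤ (T1 - T0) * S5 + (S0 - S1) * T5 - (S0 * T1 - T0 * S1)) : T0 < T1 ∧ S0 < S5 ∧
      ∃ x y, 0 ≤ x ∧ 0 ≤ y ∧ x + y ≤ 1 ∧ S0 = x * S1 + y * S5 ∧ T0 = x * T1 + y * T5 := by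
  have h1 : 0 < T1 - T0 := pp (c := S5 - S1) (by linarith)
    (by linarith [mul_pos (by linarith : 0 < S0 - S1) (by linarith : 0 < T1 - T5)])
  have h2 : 0 < S5 - S0 := pp h1
    (by linarith [mul_pos (by linarith : 0 < S0 - S1) (by linarith : 0 < T0 - T5)])
  have n1 : 0 < S5 * T0 - S0 * T5 := by
    linarith [mul_nonneg s5 t0.le, mul_pos s0 (neg_pos.mpr t5)]
  have n2 : 0 < S0 * T1 - S1 * T0 := by
    linarith [mul_nonneg s0.le t1, mul_pos t0 (neg_pos.mpr s1)]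
  have pD : 0 < S5 * T1 - S1 * T5 := by linarith
  obtain ⟨x, hx⟩ : ∃ x, (S5 * T1 - S1 * T5) * x = S5 * T0 - S0 * T5 :=
    ⟨_, mul_div_cancel₀ _ pD.ne'⟩
  obtain ⟨y, hy⟩ : ∃ y, (S5 * T1 - S1 * T5) * y = S0 * T1 - S1 * T0 :=
    ⟨_, mul_div_cancel₀ _ pD.ne'⟩
  refine ⟨by linarith, by linarith, x, y, (pp pD (by linarith)).le, (pp pD (by linarith)).le,
    le_of_mul_le_mul_left (by linarith) pD, mul_left_cancel₀ pD.ne' ?_,
    mul_left_cancel₀ pD.ne' ?_⟩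
  · linear_combination -S1 * hx - S5 * hy
  · linear_combination -T1 * hx - T5 * hy

theorem five {z3 z5 s3 s5 t3 t5 α β γ m a b c S1 T1 : ℝ} (h3 : 0 < z3) (h5 : 0 < z5)
    (dS : 0 < z3 * s5 - z5 * s3) (dT : 0 < z3 * t5 - z5 * t3) (hα : 0 < α) (hβ : 0 < β)
    (hm : 0 < m) (e : m = α * S1 + β * T1) (s1 : S1 < 0) (c3 : 0 < α * s3 + β * t3 + γ * z3 - m)
    (ha : a ≤ 0) (hb : 0 ≤ b) (f1 : a * S1 + b * T1 < a * s5 + b * t5 + c * z5)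
    (f3 : a * s3 + b * t3 + c * z3 < a * s5 + b * t5 + c * z5) :
    0 < α * s5 + β * t5 + γ * z5 - m := by
  by_contra c5
  have k : α * (z3 * s5 - z5 * s3) + β * (z3 * t5 - z5 * t3) < m * (z3 - z5) := by
    linarith [mul_pos h5 c3, mul_nonneg h3.le (neg_nonneg.mpr (not_lt.mp c5))]
  have h1 := mul_pos hα dS
  have h2 : 0 < z3 - z5 := pp hm (by linarith [mul_pos hβ dT])
  have h4 : 0 < T1 * (z3 - z5) - (z3 * t5 - z5 * t3) := pp hβ (by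
    rw [e] at k
    linarith [mul_pos (mul_pos hα (neg_pos.mpr s1)) h2])
  linarith [mul_nonneg hb h4.le, mul_nonneg (neg_nonneg.mpr ha) dS.le,
    mul_nonneg (mul_nonneg (neg_nonneg.mpr ha) (neg_pos.mpr s1).le) h2.le,
    mul_pos h2 (sub_pos.mpr f1), mul_pos h5 (sub_pos.mpr f3)]

/-- a linear function of the joints -/
def Lin (s t z u : ℕ → ℝ) (a b c : ℝ) : Prop := ∀ i, u i = a * s i + b * t i + c * z i

theorem Lin.ip {s t z u : ℕ → ℝ} {a b c : ℝ} (h : Lin s t z u a b c) (i : ℕ) (θ : ℝ) :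
    ip u i θ = a * ip s i θ + b * ip t i θ + c * ip z i θ := by
  unfold Nine.ip
  rw [h, h]
  ring

/-- what the lengths and the absence of contacts give -/
structure Env (s t z f g k : ℕ → ℝ) (a b c M N : ℝ) : Prop where
  nb : ∀ i < 7, ∀ θ ∈ Icc (0 : ℝ) 1, ¬ Bad (ip s i θ) (ip t i θ) (ip z i θ)
  dd : ∀ i j, i + 2 ≤ j → j < 7 → ∀ x ∈ Icc (0 : ℝ) 1, ∀ y ∈ Icc (0 : ℝ) 1, ¬ Mt s t z i j x y
  lf : Lin s t z f a b c
  lg : ∃ a b c, Lin s t z g a b c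
  lk : ∃ a b c, Lin s t z k a b c
  ha : a ≤ 0
  hb : 0 ≤ b
  f15 : f 1 < f 5
  f25 : f 2 < f 5
  f35 : f 3 < f 5
  f26 : f 2 < f 6
  f36 : f 3 < f 6
  gM : ∀ i, 1 ≤ i → i ≤ 6 → g i < M
  M0 : 0 < M
  g0 : M ≤ g 0
  g2 : M ≤ g 0 + g 2 - g 1
  kN : ∀ i, 1 ≤ i → i ≤ 6 → k i < N
  N0 : 0 < N
  k7 : N ≤ k 7
  k2 : N + k 2 - k 1 ≤ k 7

/-- the strict pattern of letters -/
structure St (s t z w : ℕ → ℝ) : Prop where
  bw : ∀ i, w i ∈ Icc (0 : ℝ) 1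
  z0 : z 0 ≤ 0
  z1 : 0 < z 1
  z2 : z 2 < 0
  z3 : 0 < z 3
  z4 : z 4 < 0
  z5 : 0 < z 5
  z6 : z 6 < 0
  z7 : 0 ≤ z 7
  e0 : ip z 0 (w 0) = 0
  e1 : ip z 1 (w 1) = 0
  e2 : ip z 2 (w 2) = 0
  e3 : ip z 3 (w 3) = 0
  e4 : ip z 4 (w 4) = 0
  e5 : ip z 5 (w 5) = 0
  e6 : ip z 6 (w 6) = 0
  s0 : 0 < ip s 0 (w 0)
  t0 : 0 < ip t 0 (w 0)
  s1 : ip s 1 (w 1) < 0
  t1 : 0 ≤ ip t 1 (w 1)
  s2 : 0 < ip s 2 (w 2)
  t2 : 0 < ip t 2 (w 2)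
  s3 : ip s 3 (w 3) < 0
  t3 : 0 ≤ ip t 3 (w 3)
  s4 : 0 < ip s 4 (w 4)
  t4 : 0 < ip t 4 (w 4)
  s5 : 0 ≤ ip s 5 (w 5)
  t5 : ip t 5 (w 5) < 0
  s6 : 0 < ip s 6 (w 6)
  t6 : 0 < ip t 6 (w 6)

variable {s t z f g k w : ℕ → ℝ} {a b c M N : ℝ}

theorem st_of_HC (hw : w ∈ Icc (0 : ℕ → ℝ) 1) (h : HC s t z w)
    (nb : ∀ i < 7, ∀ θ ∈ Icc (0 : ℝ) 1, ¬ Bad (ip s i θ) (ip t i θ) (ip z i θ)) : St s t z w := by
  have bw : ∀ i, w i ∈ Icc (0 : ℝ) 1 := fun i => ⟨hw.1 i, hw.2 i⟩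
  obtain ⟨⟨z0, z1, z2, z3, z4, z5, z6, z7⟩, ⟨e0, e1, e2, e3, e4, e5, e6⟩,
    ⟨s0, t0, s1, t1, s2, t2, s3, t3, s4, t4, s5, t5, s6, t6⟩, -⟩ := h
  have ss : ∀ i < 7, ip z i (w i) = 0 → 0 ≤ ip t i (w i) → ip s i (w i) ≠ 0 :=
    fun i hi h h1 h2 => nb i hi _ (bw i) ⟨h, Or.inl ⟨h2, h1⟩⟩
  have st : ∀ i < 7, ip z i (w i) = 0 → 0 ≤ ip s i (w i) → ip t i (w i) ≠ 0 :=
    fun i hi h h1 h2 => nb i hi _ (bw i) ⟨h, Or.inr ⟨h2, h1⟩⟩
  have j := fun i (hi : i < 6) => @joint s t z i (nb i (by omega)) (nb (i + 1) (by omega)) _ _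
    (bw i) (bw (i + 1))
  exact ⟨bw, z0, z1.lt_of_ne' (j 0 (by norm_num) e0 e1 (Or.inl ⟨s0, t0, Or.inl s1⟩)),
    z2.lt_of_ne (j 1 (by norm_num) e1 e2 (Or.inr ⟨s2, t2, Or.inl s1⟩)),
    z3.lt_of_ne' (j 2 (by norm_num) e2 e3 (Or.inl ⟨s2, t2, Or.inl s3⟩)),
    z4.lt_of_ne (j 3 (by norm_num) e3 e4 (Or.inr ⟨s4, t4, Or.inl s3⟩)),
    z5.lt_of_ne' (j 4 (by norm_num) e4 e5 (Or.inl ⟨s4, t4, Or.inr t5⟩)),
    z6.lt_of_ne (j 5 (by norm_num) e5 e6 (Or.inr ⟨s6, t6, Or.inr t5⟩)), z7,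
    e0, e1, e2, e3, e4, e5, e6,
    s0.lt_of_ne' (ss 0 (by norm_num) e0 t0), t0.lt_of_ne' (st 0 (by norm_num) e0 s0),
    s1.lt_of_ne (ss 1 (by norm_num) e1 t1), t1,
    s2.lt_of_ne' (ss 2 (by norm_num) e2 t2), t2.lt_of_ne' (st 2 (by norm_num) e2 s2),
    s3.lt_of_ne (ss 3 (by norm_num) e3 t3), t3,
    s4.lt_of_ne' (ss 4 (by norm_num) e4 t4), t4.lt_of_ne' (st 4 (by norm_num) e4 s4),
    s5, t5.lt_of_ne (st 5 (by norm_num) e5 s5),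
    s6.lt_of_ne' (ss 6 (by norm_num) e6 t6), t6.lt_of_ne' (st 6 (by norm_num) e6 s6)⟩

theorem St.f5 (S : St s t z w) (E : Env s t z f g k a b c M N) : ip f 5 (w 5) ≤ 0 := by
  rw [E.lf.ip, S.e5]
  linarith [mul_nonneg (neg_nonneg.mpr E.ha) S.s5, mul_nonneg E.hb (neg_pos.mpr S.t5).le]

theorem St.f1 (S : St s t z w) (E : Env s t z f g k a b c M N) : 0 ≤ ip f 1 (w 1) := by
  rw [E.lf.ip, S.e1]
  linarith [mul_nonneg (neg_nonneg.mpr E.ha) (neg_pos.mpr S.s1).le, mul_nonneg E.hb S.t1]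

/-- the last link threads the triangle of the apex and link `3` -/
theorem two (S : St s t z w) (E : Env s t z f g k a b c M N) (xy : w 8 + w 9 ≤ 1)
    (ts : ip s 6 (w 7) = w 8 * s 3 + w 9 * s 4) (tt : ip t 6 (w 7) = w 8 * t 3 + w 9 * t 4)
    (tz : ip z 6 (w 7) = w 8 * z 3 + w 9 * z 4) (zT : 0 ≤ ip z 6 (w 7)) :
    (0 < z 7 ∧ 0 < ip z 6 (w 7) ∧ 0 < ip t 3 (w 3) ∧ 0 < ip f 6 (w 7) ∧ 0 < b ∧
      0 < z 3 * s 5 - z 5 * s 3 ∧ 0 < z 3 * t 5 - z 5 * t 3) ∧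
    (dj s t z 3 4 6 < 0 ∧ 0 < dj s t z 3 4 7 ∧ dj s t z 4 6 7 < 0 ∧ 0 < dj s t z 3 6 7 ∧
      dj s t z 3 6 7 - dj s t z 4 6 7 < dj s t z 3 4 7 - dj s t z 3 4 6 ∧
      0 < dj s t z 3 4 7 * z 6 - dj s t z 3 4 6 * z 7) := by
  have z3 := S.z3
  have z4 := S.z4
  have z5 := S.z5
  have z6 := S.z6
  have x0 := (S.bw 8).1
  have y0 := (S.bw 9).1
  have k3 := fun u => cr (u := u) S.e3
  have k4 := fun u => cr (u := u) S.e4
  have k5 := fun u => cr (u := u) S.e5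
  have k6 := fun u => cr (u := u) S.e6
  simp only [Nat.reduceAdd] at k3 k4 k5 k6
  have q6 : 0 < z 7 - z 6 := by linarith [S.z7]
  have c34 : z 3 * s 4 - z 4 * s 3 < 0 := by
    linarith [k3 s, mul_pos (by linarith : 0 < z 3 - z 4) (neg_pos.mpr S.s3)]
  have hs : z 3 * ip s 6 (w 7) - ip z 6 (w 7) * s 3 ≤ 0 := by
    rw [ts, tz]
    linarith [mul_nonneg y0 (neg_pos.mpr c34).le]
  have zT' : 0 < ip z 6 (w 7) := zT.lt_of_ne' fun h => by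
    have h1 := cr (u := s) h
    simp only [Nat.reduceAdd] at h1
    rw [h, ← mul_left_cancel₀ q6.ne' ((k6 s).symm.trans h1)] at hs
    linarith [mul_pos z3 S.s6]
  have w7 : 0 < w 7 := (S.bw 7).1.lt_of_ne' fun h => by
    rw [h, ip_zero] at zT'
    linarith
  have z7 : 0 < z 7 := pp w7 (by
    unfold ip at zT'
    linarith [mul_nonneg (sub_nonneg.mpr (S.bw 7).2) (neg_pos.mpr z6).le])
  have x0' : 0 < w 8 := pp z3 (by linarith [mul_nonneg y0 (neg_pos.mpr z4).le])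
  have f3 := ip_gt1 (S.bw 5) E.f35 E.f36
  have f5 := ip_lt1 (S.bw 1) E.f15 E.f25
  obtain ⟨o1, o2, o3, o4, o5⟩ := ord (sT := ip s 6 (w 7)) (tT := ip t 6 (w 7)) (t6 := t 6)
    (s5 := s 5) (t3 := t 3) (t5 := t 5) (c := c) z3 z4 z5 z6 zT' c34
    (by linarith [k4 s, mul_pos (by linarith : 0 < z 5 - z 4) S.s4])
    (by linarith [k5 t, mul_pos (by linarith : 0 < z 5 - z 6) (neg_pos.mpr S.t5)])
    (by
      have := mul_pos w7 (mul_pos q6 S.t6)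
      rw [← k6] at this
      unfold ip
      linarith)
    E.ha E.hb (by linarith [E.lf 3, S.f5 E]) (by linarith [E.lf 5, S.f1 E])
  have yt : 0 < w 9 * (z 3 * t 4 - z 4 * t 3) := by
    rw [tt, tz] at o4
    linarith
  have y0' : 0 < w 9 := y0.lt_of_ne' fun h => by simp [h] at yt
  have ct := pp y0' yt
  have xy' : w 8 + w 9 < 1 := xy.lt_of_ne fun h => by
    have e : w 8 = 1 - w 9 := by linarith
    refine E.dd 3 6 (by norm_num) (by norm_num) _ (S.bw 9) _ (S.bw 7) ⟨?_, ?_, ?_⟩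
    · rw [ts, e, ip]
      ring
    · rw [tt, e, ip]
      ring
    · rw [tz, e, ip]
      ring
  have w7' : w 7 < 1 := (S.bw 7).2.lt_of_ne fun h => by
    obtain ⟨a, b, c, l⟩ := E.lk
    have := hull x0 y0 xy (E.kN 3 (by norm_num) (by norm_num))
      (E.kN 4 (by norm_num) (by norm_num)) E.N0
    rw [h, ip_one] at ts tt tz
    have e : k 7 = w 8 * k 3 + w 9 * k 4 := by
      rw [l 7, l 3, l 4]
      linear_combination a * ts + b * tt + c * tz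
    linarith [E.k7]
  have nT : dj s t z 3 4 6 + w 7 * (dj s t z 3 4 7 - dj s t z 3 4 6) = 0 := by
    unfold dj ip at *
    linear_combination (t 3 * z 4 - z 3 * t 4) * ts + (z 3 * s 4 - s 3 * z 4) * tt
      + (s 3 * t 4 - t 3 * s 4) * tz
  have nQ : dj s t z 3 4 6 + w 6 * (dj s t z 3 4 7 - dj s t z 3 4 6) < 0 := by
    have e6 := S.e6
    have h1 := mul_pos ct S.s6
    have h2 := mul_pos (neg_pos.mpr c34) S.t6
    unfold dj ip at *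
    linear_combination h1 + h2 + (s 3 * t 4 - t 3 * s 4) * e6
  have w67 : 0 < w 7 - w 6 := pp q6 (by
    have e6 := S.e6
    unfold ip at *
    linarith)
  have pD : 0 < dj s t z 3 4 7 - dj s t z 3 4 6 := pp w67 (by linarith)
  have hx : dj s t z 4 6 7 = -(w 8 * (dj s t z 3 4 7 - dj s t z 3 4 6)) := by
    unfold dj ip at *
    linear_combination ((t 7 - t 6) * z 4 - (z 7 - z 6) * t 4) * ts
      + ((z 7 - z 6) * s 4 - (s 7 - s 6) * z 4) * tt + ((s 7 - s 6) * t 4 - (t 7 - t 6) * s 4) * tz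
  have hy : dj s t z 3 6 7 = w 9 * (dj s t z 3 4 7 - dj s t z 3 4 6) := by
    unfold dj ip at *
    linear_combination ((t 7 - t 6) * z 3 - (z 7 - z 6) * t 3) * ts
      + ((z 7 - z 6) * s 3 - (s 7 - s 6) * z 3) * tt + ((s 7 - s 6) * t 3 - (t 7 - t 6) * s 3) * tz
  refine ⟨⟨z7, zT', pp (by linarith : 0 < z 3 - z 4) (by linarith [k3 t]), ?_, o3, o1, o2⟩,
    by linarith [mul_pos w7 pD], by linarith [mul_pos (sub_pos.mpr w7') pD],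
    by linarith [mul_pos x0' pD], by linarith [mul_pos y0' pD],
    by linarith [mul_pos (sub_pos.mpr xy') pD], ?_⟩
  · rw [E.lf.ip]
    exact o5 hs
  · have := mul_pos pD zT'
    unfold ip at this
    linear_combination this + (z 7 - z 6) * nT

end Pool.Agent.P.MP_85ac4c_co.Seven
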