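import Pool.Agent.P.MP_85ac4c_co.SevenB

/-!
The parallelogram on the first two links stays threaded.
-/

set_option autoImplicit false

namespace Pool.Agent.P.MP_85ac4c_co.Seven

open Set Nine

/-- normal vector of the plane of the links `0, 1`, one coordinate -/
def nr (t z : ℕ → ℝ) : ℝ := (t 0 - t 1) * (z 2 - z 1) - (z 0 - z 1) * (t 2 - t 1)

variable {s t z f g k w : ℕ → ℝ} {a b c M N : ℝ}

theorem cc_eq (s t z : ℕ → ℝ) (i : ℕ) :
    cc s t z i = nr t z * s i + nr z s * t i + nr s t * z i - dj s t z 0 2 1 := by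
  unfold cc nr dj
  ring

theorem cc_ip (s t z : ℕ → ℝ) (i : ℕ) (θ : ℝ) : ip (cc s t z) i θ
    = nr t z * ip s i θ + nr z s * ip t i θ + nr s t * ip z i θ - dj s t z 0 2 1 := by
  unfold ip
  rw [cc_eq, cc_eq]
  ring

theorem St.kn (S : St s t z w) (u : ℕ → ℝ) :
    z 1 * nr u z = (z 1 - z 0) * (z 1 - z 2) * (ip u 1 (w 1) - ip u 0 (w 0)) := by
  have k0 := cr (u := u) S.e0
  have k1 := cr (u := u) S.e1
  simp only [Nat.reduceAdd] at k0 k1
  unfold nr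
  linear_combination (z 2 - z 1) * k0 + (z 0 - z 1) * k1

theorem St.kb (S : St s t z w) :
    z 1 * nr z s = (z 1 - z 0) * (z 1 - z 2) * (ip s 0 (w 0) - ip s 1 (w 1)) := by
  have := S.kn s
  unfold nr at *
  linarith

theorem St.km (S : St s t z w) :
    dj s t z 0 2 1 = nr t z * ip s 1 (w 1) + nr z s * ip t 1 (w 1) := by
  have := cc_ip s t z 1 (w 1)
  rw [S.e1] at this
  have e : ip (cc s t z) 1 (w 1) = 0 := by
    unfold ip cc dj
    ring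
  linarith

theorem St.pK (S : St s t z w) : 0 < (z 1 - z 0) * (z 1 - z 2) :=
  mul_pos (by linarith [S.z0, S.z1]) (by linarith [S.z2, S.z1])

theorem St.cpl (S : St s t z w) {i : ℕ} {θ : ℝ} (h : ip z i θ = 0) :
    z 1 * ip (cc s t z) i θ = (z 1 - z 0) * (z 1 - z 2) *
      ((ip t 1 (w 1) - ip t 0 (w 0)) * ip s i θ + (ip s 0 (w 0) - ip s 1 (w 1)) * ip t i θ
        - (ip s 0 (w 0) * ip t 1 (w 1) - ip t 0 (w 0) * ip s 1 (w 1))) := by
  rw [cc_ip, h, S.km]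
  linear_combination (ip s i θ - ip s 1 (w 1)) * S.kn t + (ip t i θ - ip t 1 (w 1)) * S.kb

theorem St.w0 (S : St s t z w) : 0 < 1 - w 0 := sub_pos.mpr ((S.bw 0).2.lt_of_ne fun h => by
  have := S.e0
  rw [h, ip_one] at this
  exact S.z1.ne' this)

theorem three (S : St s t z w) (E : Env s t z f g k a b c M N)
    (hc : 0 ≤ ip (cc s t z) 5 (w 5)) : ip t 0 (w 0) < ip t 1 (w 1) ∧ 0 < nr t z ∧ 0 < nr z s ∧
      0 < dj s t z 0 2 1 ∧ z 0 < 0 ∧ f 0 ≤ f 1 ∧ ip f 5 (w 5) ≤ ip f 0 (w 0) ∧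
      ip k 0 (w 0) < N ∧ 0 < ip s 5 (w 5) := by
  have h1 := mul_nonneg S.z1.le hc
  rw [S.cpl S.e5] at h1
  obtain ⟨p1, p2, x, y, x0, y0, xy, es, et⟩ := plane S.s0 S.t0 S.s1 S.t1 S.s5 S.t5
    (nonneg_of_mul_nonneg_right h1 S.pK)
  have hu : ∀ (u : ℕ → ℝ) (L : ℝ), (∃ a b c, Lin s t z u a b c) →
      (∀ i, 1 ≤ i → i ≤ 6 → u i < L) → 0 < L → ip u 0 (w 0) < L := by
    rintro u L ⟨a, b, c, l⟩ h hL
    have := hull x0 y0 xy
      (ip_lt1 (S.bw 1) (h 1 (by norm_num) (by norm_num)) (h 2 (by norm_num) (by norm_num)))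
      (ip_lt1 (S.bw 5) (h 5 (by norm_num) (by norm_num)) (h 6 (by norm_num) (by norm_num))) hL
    rw [l.ip, l.ip, S.e1, S.e5] at this
    rw [l.ip, S.e0, es, et]
    linarith
  have w0 : 0 < w 0 := (S.bw 0).1.lt_of_ne' fun h => by
    have := hu g M E.lg E.gM E.M0
    rw [h, ip_zero] at this
    linarith [E.g0]
  have ds : 0 < ip s 0 (w 0) - ip s 1 (w 1) := by linarith [S.s0, S.s1]
  have al : 0 < nr t z := pp S.z1 (by
    rw [S.kn]
    exact mul_pos S.pK (sub_pos.mpr p1))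
  have be : 0 < nr z s := pp S.z1 (by
    rw [S.kb]
    exact mul_pos S.pK ds)
  refine ⟨p1, al, be, pp S.z1 ?_, ?_, ?_, ?_, hu k N E.lk E.kN E.N0, S.s0.trans p2⟩
  · have := mul_pos S.pK (by
      linarith [mul_nonneg S.s0.le S.t1, mul_pos S.t0 (neg_pos.mpr S.s1)] :
        0 < ip s 0 (w 0) * ip t 1 (w 1) - ip t 0 (w 0) * ip s 1 (w 1))
    rw [S.km]
    linear_combination this - ip s 1 (w 1) * S.kn t - ip t 1 (w 1) * S.kb
  · have := S.e0
    unfold ip at this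
    linarith [mul_pos w0 (by linarith [S.z0, S.z1] : 0 < z 1 - z 0)]
  · have f2 := (ip_gt1 (S.bw 5) E.f25 E.f26).trans_le (S.f5 E)
    have f12 : f 2 ≤ f 1 := by
      by_contra h
      linarith [ip_lt1 (S.bw 1) ((not_le.mp h).trans f2) f2, S.f1 E]
    have h2 : ip f 0 (w 0) ≤ ip f 1 (w 1) := by
      rw [E.lf.ip, E.lf.ip, S.e0, S.e1]
      linarith [mul_nonneg (neg_nonneg.mpr E.ha) ds.le, mul_nonneg E.hb (sub_pos.mpr p1).le]
    by_contra h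
    unfold ip at h2
    linarith [mul_pos S.w0 (sub_pos.mpr (not_le.mp h)),
      mul_nonneg (S.bw 1).1 (sub_nonneg.mpr f12)]
  · rw [E.lf.ip, E.lf.ip, S.e0, S.e5]
    linarith [mul_nonneg (neg_nonneg.mpr E.ha) (sub_pos.mpr p2).le,
      mul_nonneg E.hb (by linarith [S.t0, S.t5] : 0 ≤ ip t 0 (w 0) - ip t 5 (w 5))]

theorem ls (s t z : ℕ → ℝ) : Lin s t z s 1 0 0 := fun i => by ring

theorem lt' (s t z : ℕ → ℝ) : Lin s t z t 0 1 0 := fun i => by ring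

theorem lz (s t z : ℕ → ℝ) : Lin s t z z 0 0 1 := fun i => by ring

theorem c3ne (S : St s t z w) (E : Env s t z f g k a b c M N) (hb : 0 < b)
    (p1 : ip t 0 (w 0) < ip t 1 (w 1)) (p2 : ip f 5 (w 5) ≤ ip f 0 (w 0)) : cc s t z 3 ≠ 0 := by
  intro h3
  have h2 : cc s t z 2 = 0 := by
    unfold cc dj
    ring
  have h := S.cpl S.e2
  rw [show ip (cc s t z) 2 (w 2) = 0 by simp [ip, h2, h3], mul_zero] at h
  have h := (mul_eq_zero.mp h.symm).resolve_left S.pK.ne'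
  have ds : 0 < ip s 0 (w 0) - ip s 1 (w 1) := by linarith [S.s0, S.s1]
  obtain ⟨l, hl⟩ : ∃ l, (ip s 0 (w 0) - ip s 1 (w 1)) * l = ip s 2 (w 2) - ip s 1 (w 1) :=
    ⟨_, mul_div_cancel₀ _ ds.ne'⟩
  have hl' : (ip t 0 (w 0) - ip t 1 (w 1)) * l = ip t 2 (w 2) - ip t 1 (w 1) := by
    apply mul_left_cancel₀ ds.ne'
    linear_combination (ip t 0 (w 0) - ip t 1 (w 1)) * hl - h
  have hu : ∀ {u : ℕ → ℝ} {a b c : ℝ}, Lin s t z u a b c →
      (ip u 0 (w 0) - ip u 1 (w 1)) * l = ip u 2 (w 2) - ip u 1 (w 1) := by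
    intro u a b c L
    rw [L.ip, L.ip, L.ip, S.e0, S.e1, S.e2]
    linear_combination a * hl + b * hl'
  have f01 : 0 < ip f 1 (w 1) - ip f 0 (w 0) := by
    rw [E.lf.ip, E.lf.ip, S.e0, S.e1]
    linarith [mul_nonneg (neg_nonneg.mpr E.ha) ds.le, mul_pos hb (sub_pos.mpr p1)]
  have f2 := ip_lt1 (S.bw 2) (ip_gt1 (S.bw 5) E.f25 E.f26) (ip_gt1 (S.bw 5) E.f35 E.f36)
  have l1 : 0 < l - 1 := pp f01 (by linarith [hu E.lf])
  have q := mul_nonneg l1.le (S.bw 1).1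
  obtain ⟨μ, hμ⟩ : ∃ μ, (1 + (l - 1) * w 1) * μ = 1 := ⟨_, mul_div_cancel₀ _ (by linarith)⟩
  have μ0 : 0 < μ := pp (c := 1 + (l - 1) * w 1) (by linarith) (by linarith)
  have bμ : μ * w 2 ∈ Icc (0 : ℝ) 1 := mulI ⟨μ0.le, by nlinarith⟩ (S.bw 2)
  have key : ∀ {u : ℕ → ℝ} {a b c : ℝ}, Lin s t z u a b c →
      ip u 0 (1 - μ * l * (1 - w 0)) = ip u 2 (μ * w 2) := by
    intro u a b c L
    have := hu L
    unfold ip at *
    linear_combination μ * this - (u 1 - u 2) * hμ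
  have σ0 : 0 ≤ μ * l * (1 - w 0) := mul_nonneg (mul_nonneg μ0.le (by linarith)) S.w0.le
  refine E.dd 0 2 (by norm_num) (by norm_num) _ (subI ⟨σ0, ?_⟩) _ bμ
    ⟨key (ls s t z), key (lt' s t z), key (lz s t z)⟩
  obtain ⟨a, b, c, L⟩ := E.lg
  have h4 := ip_lt1 bμ (E.gM 2 (by norm_num) (by norm_num)) (E.gM 3 (by norm_num) (by norm_num))
  rw [← key L] at h4
  by_contra hn
  unfold ip at h4
  linarith [E.g0, mul_pos (sub_pos.mpr (not_le.mp hn))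
    (by linarith [E.g0, E.gM 1 (by norm_num) (by norm_num)] : 0 < g 0 - g 1)]

theorem hit_pt {i : ℕ} {θ : ℝ} (hm : 0 < dj s t z 0 2 1)
    (h : Hit (cc s t z) (aa s t z) (bb s t z) (dj s t z 0 2 1) i θ) :
    ∃ x ∈ Icc (0 : ℝ) 1, ∃ y ∈ Icc (0 : ℝ) 1, dj s t z 0 2 1 * x = ip (aa s t z) i θ ∧
      dj s t z 0 2 1 * y = ip (bb s t z) i θ ∧ ∀ {u : ℕ → ℝ} {a b c : ℝ}, Lin s t z u a b c →
        ip u i θ = u 1 + x * (u 0 - u 1) + y * (u 2 - u 1) := by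
  obtain ⟨h0, h1, h2, h3, h4⟩ := h
  refine ⟨_, ⟨div_nonneg h1 hm.le, (div_le_one hm).mpr h2⟩, _,
    ⟨div_nonneg h3 hm.le, (div_le_one hm).mpr h4⟩, mul_div_cancel₀ _ hm.ne',
    mul_div_cancel₀ _ hm.ne', fun {u a b c} L => ?_⟩
  have e : dj s t z 0 2 1 * (ip u i θ - u 1) = ip (aa s t z) i θ * (u 0 - u 1)
      + ip (bb s t z) i θ * (u 2 - u 1) + ip (cc s t z) i θ * u 1 := by
    rw [L.ip, L 0, L 1, L 2]
    unfold ip aa bb cc dj
    ring
  rw [h0] at e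
  field_simp
  linarith

theorem inside (S : St s t z w) (E : Env s t z f g k a b c M N) (hm : 0 < dj s t z 0 2 1)
    (z0 : z 0 < 0) (f01 : f 0 ≤ f 1) {i : ℕ} (i3 : 3 ≤ i) (i7 : i < 7) {θ : ℝ}
    (hθ : θ ∈ Icc (0 : ℝ) 1) (hf : ip z i θ < 0 → f 2 < ip f i θ)
    (hg : ip z i θ < 0 → ip g i θ < M)
    (h : Hit (cc s t z) (aa s t z) (bb s t z) (dj s t z 0 2 1) i θ) :
    0 < ip (aa s t z) i θ ∧ ip (aa s t z) i θ < dj s t z 0 2 1 ∧ 0 < ip (bb s t z) i θ ∧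
      ip (bb s t z) i θ < dj s t z 0 2 1 := by
  obtain ⟨x, hx, y, hy, ex, ey, e⟩ := hit_pt hm h
  have z1 := S.z1
  have z2 := S.z2
  have x0 : 0 < x := hx.1.lt_of_ne' fun h => by
    refine E.dd 1 i (by omega) i7 _ hy _ hθ ⟨?_, ?_, ?_⟩
    · rw [e (ls s t z), h, ip]
      ring
    · rw [e (lt' s t z), h, ip]
      ring
    · rw [e (lz s t z), h, ip]
      ring
  have y0 : 0 < y := hy.1.lt_of_ne' fun h => by
    refine E.dd 0 i (by omega) i7 _ (subI hx) _ hθ ⟨?_, ?_, ?_⟩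
    · rw [e (ls s t z), h, ip]
      ring
    · rw [e (lt' s t z), h, ip]
      ring
    · rw [e (lz s t z), h, ip]
      ring
  have x1 : x < 1 := hx.2.lt_of_ne fun h => by
    obtain ⟨a, b, c, L⟩ := E.lg
    rw [e L, e (lz s t z), h] at hg
    linarith [hg (by linarith [mul_pos y0 (by linarith : 0 < z 1 - z 2)]),
      mul_nonneg hy.1 (sub_nonneg.mpr E.g2), mul_nonneg (sub_nonneg.mpr hy.2) (sub_nonneg.mpr E.g0)]
  have y1 : y < 1 := hy.2.lt_of_ne fun h => by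
    rw [e E.lf, e (lz s t z), h] at hf
    linarith [hf (by linarith [mul_pos x0 (by linarith : 0 < z 1 - z 0)]),
      mul_nonneg hx.1 (sub_nonneg.mpr f01)]
  rw [← ex, ← ey]
  exact ⟨mul_pos hm x0, mul_lt_of_lt_one_right hm x1, mul_pos hm y0, mul_lt_of_lt_one_right hm y1⟩

theorem HO_of_HC (hw : w ∈ Icc (0 : ℕ → ℝ) 1) (h : HC s t z w)
    (E : Env s t z f g k a b c M N) : HO s t z := by
  have S := st_of_HC hw h E.nb
  obtain ⟨-, -, -, ⟨c3, -, c6⟩, ⟨xy, ts, tt, tz, zT⟩, tc⟩ := h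
  obtain ⟨⟨z7, zT', t3, fT, b0, dS, dT⟩, th⟩ := two S E xy ts tt tz zT
  obtain ⟨p1, al, be, hm, z0, f01, p2, k0, s5⟩ := three S E c6
  have c3' := c3.lt_of_ne' (c3ne S E b0 p1 p2)
  have z1 := S.z1
  have z2 := S.z2
  have z3 := S.z3
  have z4 := S.z4
  have z5 := S.z5
  have z6 := S.z6
  have c5 : 0 < cc s t z 5 := by
    rw [cc_eq] at c3' ⊢
    refine five (a := a) (b := b) (c := c) z3 z5 dS dT al be hm S.km S.s1 c3' E.ha E.hb ?_ ?_
    · have := ip_lt1 (S.bw 1) E.f15 E.f25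
      rw [E.lf.ip, S.e1, E.lf 5] at this
      linarith
    · linarith [E.lf 3, E.lf 5, E.f35]
  have g5 := E.gM 5 (by norm_num) (by norm_num)
  have g6 := E.gM 6 (by norm_num) (by norm_num)
  have lo : ∀ θ, ip z 6 θ < 0 → θ ≤ w 7 := fun θ h => by
    unfold ip at h zT'
    exact sub_nonneg.mp (pp (c := z 7 - z 6) (by linarith) (by linarith)).le
  have ho : TO (cc s t z) (aa s t z) (bb s t z) (dj s t z 0 2 1) := by
    refine TO_of_TC (S.bw 10) c5 tc (fun h => ?_) (fun x hx => inside S E hm z0 f01 (by norm_num)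
      (by norm_num) hx (fun _ => ip_gt1 hx E.f25 E.f26) fun _ => ip_lt1 hx g5 g6)
      fun x hx => inside S E hm z0 f01 (by norm_num) (by norm_num) hx
        (fun h => ip_gt hx.1 (lo x h) E.f26
          (((ip_gt1 (S.bw 5) E.f25 E.f26).trans_le (S.f5 E)).trans fT))
        fun h => ip_lt hx.1 (lo x h) g6 ?_
    · obtain ⟨x, hx, y, hy, -, -, e⟩ := hit_pt hm h
      obtain ⟨a, b, c, L⟩ := E.lk
      have e1 := e L
      have e2 := e (lz s t z)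
      rw [ip_one] at e1 e2
      have e0 := S.e0
      unfold ip at e0 k0
      have x1 : 0 < 1 - w 0 - x := pp (c := z 1 - z 0) (by linarith)
        (by linarith [mul_nonneg hy.1 (by linarith : 0 ≤ z 1 - z 2)])
      have k1 : k 1 + x * (k 0 - k 1) < N := by
        have := E.kN 1 (by norm_num) (by norm_num)
        rcases le_total (k 0) (k 1) with h | h
        · linarith [mul_nonneg hx.1 (sub_nonneg.mpr h)]
        · linarith [mul_nonneg x1.le (sub_nonneg.mpr h)]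
      linarith [mul_nonneg hy.1 (sub_nonneg.mpr E.k2),
        mul_nonneg (sub_nonneg.mpr hy.2) (sub_nonneg.mpr E.k7)]
    · obtain ⟨a, b, c, L⟩ := E.lg
      have := hull (S.bw 8).1 (S.bw 9).1 xy (E.gM 3 (by norm_num) (by norm_num))
        (E.gM 4 (by norm_num) (by norm_num)) E.M0
      rw [L 3, L 4] at this
      rw [L.ip, ts, tt, tz]
      linarith
  have c6' : 0 < ip (cc s t z) 5 (w 5) := c6.lt_of_ne' fun h => by
    have h6 : ¬ 0 < cc s t z 6 := fun h6 => (ip_gt1 (S.bw 5) c5 h6).ne' h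
    obtain ⟨x, hx, y, hy, -, -, e⟩ := hit_pt hm
      (hit_of_pin h (by linarith : cc s t z 6 < cc s t z 5).ne' (ho.1.resolve_left h6))
    have e1 := e (lt' s t z)
    have e2 := e (lz s t z)
    rw [S.e5] at e2
    have k0 := cr (u := t) S.e0
    have k1 := cr (u := t) S.e1
    simp only [Nat.reduceAdd] at k0 k1
    have : z 1 * ip t 5 (w 5)
        = x * ((z 1 - z 0) * ip t 0 (w 0)) + y * ((z 1 - z 2) * ip t 1 (w 1)) := by
      linear_combination z 1 * e1 - t 1 * e2 + x * k0 - y * k1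
    linarith [mul_pos z1 (neg_pos.mpr S.t5),
      mul_nonneg hx.1 (mul_pos (by linarith : 0 < z 1 - z 0) S.t0).le,
      mul_nonneg hy.1 (mul_nonneg (by linarith : 0 ≤ z 1 - z 2) S.t1)]
  have q0 : z 0 ≠ z 1 := (z0.trans z1).ne
  have q1 : z 1 ≠ z 2 := (z2.trans z1).ne'
  have q2 : z 2 ≠ z 3 := (z2.trans z3).ne
  have q3 : z 3 ≠ z 4 := (z4.trans z3).ne'
  have q4 : z 4 ≠ z 5 := (z4.trans z5).ne
  have q5 : z 5 ≠ z 6 := (z6.trans z5).ne'
  have q6 : z 6 ≠ z 7 := (z6.trans z7).ne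
  exact ⟨⟨z0, z1, z2, z3, z4, z5, z6, z7⟩,
    ⟨(gt_iff S.e0 q0).mpr S.s0, (gt_iff S.e0 q0).mpr S.t0, (lt_iff S.e1 q1).mpr S.s1,
      (gt_iff S.e1 q1).mpr (S.t0.trans p1), (gt_iff S.e2 q2).mpr S.s2, (gt_iff S.e2 q2).mpr S.t2,
      (lt_iff S.e3 q3).mpr S.s3, (gt_iff S.e3 q3).mpr t3, (gt_iff S.e4 q4).mpr S.s4,
      (gt_iff S.e4 q4).mpr S.t4, (gt_iff S.e5 q5).mpr s5, (lt_iff S.e5 q5).mpr S.t5,
      (gt_iff S.e6 q6).mpr S.s6, (gt_iff S.e6 q6).mpr S.t6⟩,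
    ⟨c3', c5, (gt_iff S.e5 q5).mpr c6'⟩, th, ho⟩

end Pool.Agent.P.MP_85ac4c_co.Seven
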