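import Pool.Agent.P.MP_85ac4c_co.SevenC
import Pool.Agent.P.MP_85ac4c_co.NineE

/-!
The metric part of the lock of a 2-chain with a 7-chain.
-/

set_option autoImplicit false

namespace Pool.Agent.P.MP_85ac4c_co.Seven

open Set Nine

/-- what is kept along a motion -/
structure Fx (a v b : E3) (p : ℕ → E3) : Prop where
  la : dist a v = 100000000
  lb : dist b v = 100000000
  l0 : 12000000 ≤ dist (p 0) (p 1)
  l0' : dist (p 0) (p 1) ≤ 13000000
  l1 : dist (p 1) (p 2) ≤ 260000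
  l2 : dist (p 2) (p 3) ≤ 10000
  l3 : 300000 ≤ dist (p 3) (p 4)
  l3' : dist (p 3) (p 4) ≤ 310000
  l4 : dist (p 4) (p 5) ≤ 10000
  l5 : dist (p 5) (p 6) ≤ 260000
  l6 : 12000000 ≤ dist (p 6) (p 7)
  l6' : dist (p 6) (p 7) ≤ 13000000
  na : ∀ i < 7, ∀ x ∈ segment ℝ (p i) (p (i + 1)), x ∉ segment ℝ v a
  nb : ∀ i < 7, ∀ x ∈ segment ℝ (p i) (p (i + 1)), x ∉ segment ℝ v b
  dd : ∀ i j, i + 2 ≤ j → j < 7 → ∀ x ∈ segment ℝ (p i) (p (i + 1)),
    x ∉ segment ℝ (p j) (p (j + 1))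

/-- the open invariant -/
def Op (a v b : E3) (p : ℕ → E3) : Prop :=
  HO (sc a v b p) (sc b v a p) (zc a v b p) ∧ dt (a - v) (p 4 - p 3) < 0 ∧
    0 < dt (b - v) (p 4 - p 3) ∧ 0 < gr (a - v) (b - v)

/-- the closed invariant -/
def Cl (a v b : E3) (p : ℕ → E3) (w : ℕ → ℝ) : Prop :=
  HC (sc a v b p) (sc b v a p) (zc a v b p) w ∧ dt (a - v) (p 4 - p 3) ≤ 0 ∧
    0 ≤ dt (b - v) (p 4 - p 3) ∧ dt (a - v) (b - v) ≤ 8000000000000000 ∧
    pt p 1 (w 1) = v - (w 11 / 50) • (a - v) + (w 12 / 50) • (b - v)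

variable {a v b : E3} {p : ℕ → E3} {w : ℕ → ℝ}

theorem Fx.na' (F : Fx a v b p) : ‖a - v‖ = 100000000 := dist_eq_norm a v ▸ F.la

theorem Fx.nb' (F : Fx a v b p) : ‖b - v‖ = 100000000 := dist_eq_norm b v ▸ F.lb

theorem gr_pos (F : Fx a v b p) (hw : w ∈ Icc (0 : ℕ → ℝ) 1) (h : Cl a v b p w) :
    0 < gr (a - v) (b - v) := by
  obtain ⟨-, -, -, h1, h2⟩ := h
  refine lt_of_le_of_ne (gr_nonneg _ _) fun h => ?_
  have hA := dt_self (a - v)
  have hB := dt_self (b - v)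
  rw [F.na'] at hA
  rw [F.nb'] at hB
  unfold gr at h
  rw [hA, hB] at h
  have h3 : dt (a - v) (b - v) = -100000000 ^ 2 := by
    have : (dt (a - v) (b - v) + 100000000 ^ 2) * (dt (a - v) (b - v) - 100000000 ^ 2) = 0 := by
      linarith
    rcases mul_eq_zero.mp this with h4 | h4 <;> linarith
  have h4 : (a - v) + (b - v) = 0 := by
    rw [← norm_eq_zero, ← pow_eq_zero_iff two_ne_zero, ← dt_self]
    simp only [dt, PiLp.add_apply] at hA hB h3 ⊢
    linarith
  have h5 : a - v = -(b - v) := eq_neg_of_add_eq_zero_left h4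
  refine F.nb 1 (by norm_num) _ (pt_mem p 1 ⟨hw.1 1, hw.2 1⟩) ?_
  rw [h2, h5, segment_eq_image']
  have := hw.1 11
  have := hw.1 12
  have := hw.2 11
  have := hw.2 12
  simp only [Pi.zero_apply, Pi.one_apply] at *
  refine ⟨w 11 / 50 + w 12 / 50, ⟨by linarith, by linarith⟩, ?_⟩
  simp only [add_smul, smul_neg]
  abel

theorem Fx.d1 (F : Fx a v b p) : ∀ i, 1 ≤ i → i ≤ 6 → dist (p 1) (p i) ≤ 850000 := by
  have q3 := dist_triangle (p 1) (p 2) (p 3)
  have q4 := dist_triangle (p 1) (p 3) (p 4)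
  have q5 := dist_triangle (p 1) (p 4) (p 5)
  have q6 := dist_triangle (p 1) (p 5) (p 6)
  intro i h1 h2
  interval_cases i <;> linarith [F.l1, F.l2, F.l3', F.l4, F.l5, dist_self (p 1)]

theorem Fx.d6 (F : Fx a v b p) : ∀ i, 1 ≤ i → i ≤ 6 → dist (p i) (p 6) ≤ 850000 := by
  have q3 := dist_triangle (p 4) (p 5) (p 6)
  have q4 := dist_triangle (p 3) (p 4) (p 6)
  have q5 := dist_triangle (p 2) (p 3) (p 6)
  have q6 := dist_triangle (p 1) (p 2) (p 6)
  intro i h1 h2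
  interval_cases i <;> linarith [F.l1, F.l2, F.l3', F.l4, F.l5, dist_self (p 6)]

theorem near (F : Fx a v b p) (hw : w ∈ Icc (0 : ℕ → ℝ) 1) (h : Cl a v b p w) :
    ∀ i, 1 ≤ i → i ≤ 6 → dist (p i) v ≤ 5200000 := by
  obtain ⟨-, -, -, -, h2⟩ := h
  have h8 : w 11 ∈ Icc (0 : ℝ) 1 := ⟨hw.1 11, hw.2 11⟩
  have h9 : w 12 ∈ Icc (0 : ℝ) 1 := ⟨hw.1 12, hw.2 12⟩
  have h3 : dist (pt p 1 (w 1)) v ≤ 4000000 := by
    rw [h2, dist_eq_norm]
    have : v - (w 11 / 50) • (a - v) + (w 12 / 50) • (b - v) - v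
        = (w 12 / 50) • (b - v) - (w 11 / 50) • (a - v) := by abel
    rw [this]
    refine (norm_sub_le _ _).trans ?_
    rw [norm_smul, norm_smul, F.na', F.nb', Real.norm_of_nonneg (by linarith [h9.1]),
      Real.norm_of_nonneg (by linarith [h8.1])]
    linarith [h8.2, h9.2]
  have h0 := pt_l p 1 (θ := w 1) ⟨hw.1 1, hw.2 1⟩
  have q0 := dist_triangle_left (p 1) v (pt p 1 (w 1))
  intro i h1 h2
  linarith [dist_triangle_left (p i) v (p 1), F.d1 i h1 h2, F.l1]

theorem near_seg (F : Fx a v b p) (hw : w ∈ Icc (0 : ℕ → ℝ) 1) (h : Cl a v b p w) {i : ℕ}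
    (hi : i < 7) {θ : ℝ} (hθ : θ ∈ Icc (0 : ℝ) 1) : dist (pt p i θ) v ≤ 100000000 := by
  have k : ∀ i < 8, dist (p i) v ≤ 100000000 := by
    intro i hi
    have := near F hw h
    rcases Nat.eq_zero_or_pos i with rfl | h0
    · linarith [dist_triangle (p 0) (p 1) v, this 1 (by norm_num) (by norm_num), F.l0']
    · rcases Nat.lt_or_ge 6 i with h7 | h7
      · obtain rfl : i = 7 := by omega
        linarith [dist_triangle_left (p 7) v (p 6), this 6 (by norm_num) (by norm_num), F.l6']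
      · linarith [this i h0 h7]
  exact (convex_closedBall v 100000000).segment_subset (k i (by omega)) (k (i + 1) (by omega))
    (pt_mem p i hθ)

theorem dt_le (x y : E3) : dt x y ≤ ‖x‖ * ‖y‖ :=
  (abs_le_of_sq_le_sq' (by simpa only [dt_self, mul_pow] using cs x y) (by positivity)).2

theorem dt_sub (x y z : E3) : dt x (y - z) = dt x y - dt x z := by
  simp only [dt, PiLp.sub_apply]
  ring

theorem fwd (v : E3) {x y p q : E3} (h : dist x p + dist q y < dist p q) :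
    dt (q - p) (x - v) < dt (q - p) (y - v) := by
  have h1 := dt_le (q - p) (x - p)
  have h2 := dt_le (q - p) (q - y)
  have h3 := dt_self (q - p)
  rw [dist_comm p, dist_eq_norm, dist_eq_norm, dist_eq_norm] at h
  have h4 : 0 < ‖q - p‖ := by linarith [norm_nonneg (x - p), norm_nonneg (q - y)]
  simp only [dt_sub] at *
  nlinarith [mul_pos h4 (sub_pos.mpr h)]

theorem half {x y p q : E3} (h : dist x y ≤ 5200000) (h' : 12000000 ≤ dist p q) :
    dt (p - q) x - dt (p - q) y < (dt (p - q) p - dt (p - q) q) / 2 := by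
  have h1 := dt_le (p - q) (x - y)
  have h3 := dt_self (p - q)
  rw [dist_eq_norm] at h h'
  rw [dt_sub] at h1 h3
  nlinarith

theorem lin (hG : 0 < gr (a - v) (b - v)) (E : E3) :
    Lin (sc a v b p) (sc b v a p) (zc a v b p) (fun i => dt E (p i - v))
      (dt (a - v) E / gr (a - v) (b - v)) (dt (b - v) E / gr (a - v) (b - v))
      (zl (a - v) (b - v) E / gr (a - v) (b - v)) := by
  intro i
  simp only [sc, zc]
  generalize a - v = A at *
  generalize b - v = B at *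
  generalize p i - v = x
  field_simp
  unfold gr sl zl dt
  ring

theorem HO_of_Cl (F : Fx a v b p) (hw : w ∈ Icc (0 : ℕ → ℝ) 1) (h : Cl a v b p w) :
    HO (sc a v b p) (sc b v a p) (zc a v b p) := by
  have hG := gr_pos F hw h
  have nr := near F hw h
  have q13 := dist_triangle (p 1) (p 2) (p 3)
  have q46 := dist_triangle (p 4) (p 5) (p 6)
  have l6 := F.l6.trans_eq (dist_comm _ _)
  have l12 : dist (p 1) (p 2) ≤ 5200000 := F.l1.trans (by norm_num)
  have l3 := F.l3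
  have l2 := F.l2
  have l4 := F.l4
  refine HO_of_HC (M := dt (p 0 - p 1) (p 1 - v) + dt (p 0 - p 1) (p 0 - p 1) / 2)
    (N := dt (p 7 - p 6) (p 6 - v) + dt (p 7 - p 6) (p 7 - p 6) / 2) hw h.1
    ⟨fun i hi θ hθ hb => ?_, fun i j h1 h2 x hx y hy hm => ?_, lin hG (p 4 - p 3),
      ⟨_, _, _, lin hG (p 0 - p 1)⟩, ⟨_, _, _, lin hG (p 7 - p 6)⟩,
      div_nonpos_of_nonpos_of_nonneg h.2.1 hG.le, div_nonneg h.2.2.1 hG.le,
      fwd v (by linarith [F.l1]), fwd v (by linarith), fwd v (by linarith [dist_self (p 3)]),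
      fwd v (by linarith [F.l5]), fwd v (by linarith [F.l5, dist_self (p 3)]),
      fun i h1 h2 => ?_, ?_, ?_, ?_, fun i h1 h2 => ?_, ?_, ?_, ?_⟩
  · rw [sc_pt, sc_pt, zc_pt] at hb
    rcases bad_mem (by norm_num) F.la F.lb (near_seg F hw h hi hθ) hG hb with h1 | h1
    · exact F.na i hi _ (pt_mem p i hθ) h1
    · exact F.nb i hi _ (pt_mem p i hθ) h1
  · exact F.dd i j h1 h2 _ (pt_mem p i hx) (mt_eq hG hm ▸ pt_mem p j hy)
  all_goals simp only [dt_sub]
  · linarith [half (x := p i) (y := p 1)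
      ((dist_comm _ _).trans_le ((F.d1 i h1 h2).trans (by norm_num))) F.l0]
  · linarith [half ((dist_comm _ _).trans_le (nr 1 (by norm_num) (by norm_num))) F.l0]
  · linarith [half (x := v) (y := v) (by simp) F.l0]
  · linarith [half l12 F.l0]
  · linarith [half ((F.d6 i h1 h2).trans (by norm_num)) l6]
  · linarith [half ((dist_comm _ _).trans_le (nr 6 (by norm_num) (by norm_num))) l6]
  · linarith [half (x := v) (y := v) (by simp) l6]
  · linarith [half ((dist_comm _ _).trans_le l12) l6]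

theorem steep {A B v x y q1 q2 q4 : E3} (hB : ‖B‖ = 100000000) (hG : 0 < gr A B)
    (h1 : sl A B (q1 - v) ≤ 0) (d1 : dist x q1 ≤ 270000) (h4 : 0 ≤ sl A B (q4 - v))
    (z4 : zl A B (q4 - v) = 0) (d4 : dist q4 y ≤ 10000) (z2 : zl A B (q2 - v) = 0)
    (d2 : dist x q2 ≤ 10000) (hU : 300000 ≤ dist x y) (h0 : 0 ≤ sl A B (x - y)) :
    1000000000000000 * dt (x - y) (x - y) ≤ dt B (x - y) ^ 2 := by
  have hg := Real.sqrt_pos.mpr hG
  have e := (Real.sq_sqrt hG.le).symm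
  generalize √(gr A B) = g at hg e
  have L := lip (by norm_num) hg.le hB e
  rw [dist_eq_norm] at d1 d2 d4 hU
  have k1 : sl A B (x - y) ≤ 100000000 * g * 280000 := by
    have e1 := (abs_le.mp (L (x - q1)).1).2
    have e2 := (abs_le.mp (L (q4 - y)).1).2
    simp only [sl_sub] at *
    nlinarith
  have k2 : |zl A B (x - y)| ≤ g * 20000 := by
    have e1 := abs_le.mp (L (x - q2)).2
    have e2 := abs_le.mp (L (q4 - y)).2
    have e3 := mul_le_mul_of_nonneg_left d2 hg.le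
    have e4 := mul_le_mul_of_nonneg_left d4 hg.le
    simp only [zl_sub] at *
    exact abs_le.mpr ⟨by linarith [e1.1, e2.1], by linarith [e1.2, e2.2]⟩
  generalize x - y = U at *
  have h := ident A B U
  rw [dt_self B, hB, e] at h
  have h3 : sl A B U ^ 2 ≤ (100000000 * g * 280000) ^ 2 := pow_le_pow_left₀ h0 k1 2
  have h4 : zl A B U ^ 2 ≤ (g * 20000) ^ 2 := sq_le_sq' (abs_le.mp k2).1 (abs_le.mp k2).2
  have h5 : 300000 ^ 2 ≤ dt U U := by
    rw [dt_self]
    exact pow_le_pow_left₀ (by norm_num) hU 2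
  have hg2 : 0 < g ^ 2 := by positivity
  apply le_of_mul_le_mul_left _ hg2
  nlinarith [mul_le_mul_of_nonneg_left h5 hg2.le]

theorem steeps (F : Fx a v b p) (hw : w ∈ Icc (0 : ℕ → ℝ) 1)
    (h : HC (sc a v b p) (sc b v a p) (zc a v b p) w) (hG : 0 < gr (a - v) (b - v)) :
    (sl (a - v) (b - v) (p 4 - p 3) ≤ 0 →
      1000000000000000 * dt (p 4 - p 3) (p 4 - p 3) ≤ dt (b - v) (p 4 - p 3) ^ 2) ∧
    (0 ≤ sl (b - v) (a - v) (p 4 - p 3) →
      1000000000000000 * dt (p 4 - p 3) (p 4 - p 3) ≤ dt (a - v) (p 4 - p 3) ^ 2) := by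
  have bw : ∀ i, w i ∈ Icc (0 : ℝ) 1 := fun i => ⟨hw.1 i, hw.2 i⟩
  obtain ⟨-, ⟨-, -, e2, -, e4, -⟩, ⟨-, -, s1, -, -, t2, -, -, s4, -, -, t5, -⟩, -⟩ := h
  rw [zc_pt] at e2 e4
  rw [sc_pt] at s1 t2 s4 t5
  have d2 := (pt_r p 2 (bw 2)).trans F.l2
  have d4 := (pt_l p 4 (bw 4)).trans F.l4
  refine ⟨fun h0 => ?_, fun h0 => steep F.na' (gr_comm _ _ ▸ hG) t5 ?_ t2
    (by rw [zl_swap, e2, neg_zero]) d2 (by rw [zl_swap, e4, neg_zero])
    ((dist_comm _ _).trans_le d4) (F.l3.trans_eq (dist_comm _ _)) h0⟩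
  · have := steep (x := p 3) (y := p 4) F.nb' hG s1 (by
      linarith [dist_triangle_left (p 3) (pt p 1 (w 1)) (p 2), F.l1, F.l2, pt_r p 1 (bw 1),
        dist_comm (p 2) (pt p 1 (w 1))]) s4 e4 d4 e2 ((dist_comm _ _).trans_le d2) F.l3 (by
      rw [sl_sub] at h0 ⊢
      linarith)
    simp only [dt, PiLp.sub_apply] at this ⊢
    linarith
  · linarith [dist_triangle (p 4) (p 5) (pt p 5 (w 5)), F.l4, F.l5, pt_l p 5 (bw 5),
      dist_comm (p 5) (pt p 5 (w 5))]

theorem apex (F : Fx a v b p) (hw : w ∈ Icc (0 : ℕ → ℝ) 1)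
    (h : HC (sc a v b p) (sc b v a p) (zc a v b p) w) (hG : 0 < gr (a - v) (b - v))
    (hc : dt (a - v) (b - v) ≤ 8000000000000000) : ∃ x ∈ Icc (0 : ℝ) 1, ∃ y ∈ Icc (0 : ℝ) 1,
      pt p 1 (w 1) = v - (x / 50) • (a - v) + (y / 50) • (b - v) := by
  obtain ⟨-, ⟨-, e0, -, -, -, e2, -⟩, ⟨-, -, s0, t0, -, -, -, -, -, -, s2, t2, -⟩, -⟩ := h
  rw [zc_pt] at e0 e2
  rw [sc_pt] at s0 t0 s2 t2
  have k : ∀ q : E3, zl (a - v) (b - v) q = 0 → q = (sl (a - v) (b - v) q / gr (a - v) (b - v)) •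
      (a - v) + (sl (b - v) (a - v) q / gr (a - v) (b - v)) • (b - v) := by
    intro q hq
    rw [div_eq_inv_mul, div_eq_inv_mul, mul_smul, mul_smul, ← smul_add, ← recon _ _ _ hq,
      smul_smul, inv_mul_cancel₀ hG.ne', one_smul]
  have k0 := k _ e0
  have k2 := k _ e2
  have x0 := div_nonpos_of_nonpos_of_nonneg s0 hG.le
  have y0 := div_nonneg t0 hG.le
  have x2 := div_nonneg s2 hG.le
  have y2 := div_nonpos_of_nonpos_of_nonneg t2 hG.le
  generalize sl (a - v) (b - v) (pt p 1 (w 1) - v) / gr (a - v) (b - v) = x at k0 x0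
  generalize sl (b - v) (a - v) (pt p 1 (w 1) - v) / gr (a - v) (b - v) = y at k0 y0
  generalize sl (a - v) (b - v) (pt p 5 (w 5) - v) / gr (a - v) (b - v) = x' at k2 x2
  generalize sl (b - v) (a - v) (pt p 5 (w 5) - v) / gr (a - v) (b - v) = y' at k2 y2
  have hd : ‖pt p 1 (w 1) - v - (pt p 5 (w 5) - v)‖ ≤ 850000 := by
    rw [sub_sub_sub_cancel_right, ← dist_eq_norm]
    have q1 := pt_r p 1 (θ := w 1) ⟨hw.1 1, hw.2 1⟩
    have q2 := pt_l p 5 (θ := w 5) ⟨hw.1 5, hw.2 5⟩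
    have q3 := dist_triangle (pt p 1 (w 1)) (p 2) (pt p 5 (w 5))
    have q4 := dist_triangle_right (p 2) (pt p 5 (w 5)) (p 5)
    have q5 := dist_triangle (p 2) (p 3) (p 5)
    have q6 := dist_triangle (p 3) (p 4) (p 5)
    linarith [F.l1, F.l2, F.l3', F.l4, F.l5]
  have hd2 := pow_le_pow_left₀ (norm_nonneg _) hd 2
  rw [← dt_self, k0, k2] at hd2
  have hA := dt_self (a - v)
  have hB := dt_self (b - v)
  rw [F.na'] at hA
  rw [F.nb'] at hB
  have e : dt (x • (a - v) + y • (b - v) - (x' • (a - v) + y' • (b - v)))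
      (x • (a - v) + y • (b - v) - (x' • (a - v) + y' • (b - v)))
      = (x' - x) ^ 2 * dt (a - v) (a - v) + (y - y') ^ 2 * dt (b - v) (b - v)
        - 2 * ((x' - x) * (y - y')) * dt (a - v) (b - v) := by
    generalize a - v = A
    generalize b - v = B
    simp only [dt, PiLp.sub_apply, PiLp.add_apply, PiLp.smul_apply, smul_eq_mul]
    ring
  rw [e, hA, hB] at hd2
  have hxy : 0 ≤ (x' - x) * (y - y') := mul_nonneg (by linarith) (by linarith)
  have h1 : (x' - x) ^ 2 + (y - y') ^ 2 ≤ (1 / 50) ^ 2 := by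
    nlinarith [mul_le_mul_of_nonneg_left hc hxy, sq_nonneg ((x' - x) - (y - y'))]
  have h2 := (abs_le_of_sq_le_sq' (a := x' - x) (b := 1 / 50)
    (by nlinarith [sq_nonneg (y - y')]) (by norm_num)).2
  have h3 := (abs_le_of_sq_le_sq' (a := y - y') (b := 1 / 50)
    (by nlinarith [sq_nonneg (x' - x)]) (by norm_num)).2
  refine ⟨-50 * x, ⟨by linarith, by linarith⟩, 50 * y, ⟨by linarith, by linarith⟩, ?_⟩
  rw [show -50 * x / 50 = -x by ring, show 50 * y / 50 = y by ring, eq_add_of_sub_eq k0, neg_smul]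
  abel

theorem Fx.upos (F : Fx a v b p) : 0 < dt (p 4 - p 3) (p 4 - p 3) := by
  rw [dt_self, ← dist_eq_norm, dist_comm]
  have := F.l3
  positivity

theorem cl_of_op (F : Fx a v b p) (h : Op a v b p) : ∃ w ∈ Icc (0 : ℕ → ℝ) 1, Cl a v b p w := by
  obtain ⟨ho, ha, hb, hG⟩ := h
  obtain ⟨w, hw, hc⟩ := HC_of_HO ho
  have hA := dt_self (a - v)
  have hB := dt_self (b - v)
  rw [F.na'] at hA
  rw [F.nb'] at hB
  have ang : dt (a - v) (b - v) ≤ 8000000000000000 := by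
    by_contra hn
    have hp : 0 < dt (a - v) (b - v) := by linarith
    have k := (steeps F hw hc hG).1 (by
      unfold sl
      rw [hB]
      nlinarith [mul_pos hp hb])
    have k' := (steeps F hw hc hG).2 (by
      unfold sl
      rw [hA, dt_comm (b - v) (a - v)]
      nlinarith [mul_pos hp (neg_pos.mpr ha)])
    have c := cs ((a - v) - (b - v)) (p 4 - p 3)
    have e1 : dt ((a - v) - (b - v)) (p 4 - p 3)
        = dt (a - v) (p 4 - p 3) - dt (b - v) (p 4 - p 3) := by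
      simp only [dt, PiLp.sub_apply]
      ring
    have e2 : dt ((a - v) - (b - v)) ((a - v) - (b - v))
        = dt (a - v) (a - v) + dt (b - v) (b - v) - 2 * dt (a - v) (b - v) := by
      simp only [dt, PiLp.sub_apply]
      ring
    rw [e1, e2, hA, hB] at c
    have u := F.upos
    generalize dt (p 4 - p 3) (p 4 - p 3) = q at *
    generalize dt (a - v) (p 4 - p 3) = x at *
    generalize dt (b - v) (p 4 - p 3) = y at *
    generalize dt (a - v) (b - v) = r at *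
    have h1 : 1000000000000000 * q ≤ -x * y := by
      refine (abs_le_of_sq_le_sq' ?_ (mul_pos (by linarith) (by linarith)).le).2
      calc (1000000000000000 * q) ^ 2 = (1000000000000000 * q) * (1000000000000000 * q) := by ring
        _ ≤ x ^ 2 * y ^ 2 := mul_le_mul k' k (by positivity) (by positivity)
        _ = (-x * y) ^ 2 := by ring
    nlinarith [mul_pos u (sub_pos.mpr (not_le.mp hn))]
  obtain ⟨x, hx, y, hy, he⟩ := apex F hw hc hG ang
  refine ⟨fun i => if i = 11 then x else if i = 12 then y else w i, ⟨fun i => ?_, fun i => ?_⟩,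
    hc, ha.le, hb.le, ang, he⟩
  · dsimp only
    split_ifs
    exacts [hx.1, hy.1, hw.1 i]
  · dsimp only
    split_ifs
    exacts [hx.2, hy.2, hw.2 i]

theorem op_of_cl (F : Fx a v b p) (hw : w ∈ Icc (0 : ℕ → ℝ) 1) (h : Cl a v b p w) :
    Op a v b p := by
  have hG := gr_pos F hw h
  refine ⟨HO_of_Cl F hw h, lt_of_le_of_ne h.2.1 fun h0 => ?_,
    lt_of_le_of_ne h.2.2.1 fun h0 => ?_, hG⟩
  · have k := (steeps F hw h.1 hG).2 (by
      unfold sl
      rw [h0, mul_zero, sub_zero, dt_self]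
      exact mul_nonneg (sq_nonneg _) h.2.2.1)
    rw [h0] at k
    linarith [F.upos]
  · have k := (steeps F hw h.1 hG).1 (by
      unfold sl
      rw [← h0, mul_zero, sub_zero, dt_self]
      exact mul_nonpos_of_nonneg_of_nonpos (sq_nonneg _) h.2.1)
    rw [← h0] at k
    linarith [F.upos]

theorem no_plane (F : Fx a v b p) (hw : w ∈ Icc (0 : ℕ → ℝ) 1) (h : Cl a v b p w) (n : E3)
    (c : ℝ) (ha : inner ℝ n a < c) (hv : inner ℝ n v < c) (hb : inner ℝ n b < c)
    (hp : ∀ i, c < inner ℝ n (p i)) : False := by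
  have hG := gr_pos F hw h
  have bw : ∀ i, w i ∈ Icc (0 : ℝ) 1 := fun i => ⟨hw.1 i, hw.2 i⟩
  have n1 := near_seg F hw h (i := 0) (by norm_num) (bw 0)
  have n2 := near_seg F hw h (i := 1) (by norm_num) (bw 1)
  obtain ⟨⟨-, ⟨e1, e2, -⟩, ⟨s1, t1, s2, -⟩, -⟩, -⟩ := h
  obtain ⟨μ, hμ, hbad⟩ := ivt _ _ _ (ip (sc b v a p) 1 (w 1)) s1 t1 (Or.inl s2)
  obtain ⟨r, r0, r1⟩ : ∃ r : ℕ → E3, r 0 = pt p 0 (w 0) ∧ r 1 = pt p 1 (w 1) :=
    ⟨fun i => if i = 0 then pt p 0 (w 0) else pt p 1 (w 1), rfl, rfl⟩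
  have hq := pt_mem r 0 hμ
  simp only [Nat.reduceAdd] at hq
  rw [r0, r1] at hq
  have lin : IsLinearMap ℝ fun x : E3 => inner ℝ n x := (innerₛₗ ℝ n).isLinear
  have up := convex_halfSpace_gt lin c
  have lo := convex_halfSpace_lt lin c
  have hu := up.segment_subset (up.segment_subset (hp 0) (hp 1) (pt_mem p 0 (bw 0)))
    (up.segment_subset (hp 1) (hp 2) (pt_mem p 1 (bw 1))) hq
  have hb' : Bad (sl (a - v) (b - v) (pt r 0 μ - v)) (sl (b - v) (a - v) (pt r 0 μ - v))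
      (zl (a - v) (b - v) (pt r 0 μ - v)) := by
    rw [← sc_pt, ← sc_pt, ← zc_pt]
    rw [zc_pt] at e1 e2
    simp only [sc_pt] at hbad
    unfold ip sc zc
    simp only [Nat.reduceAdd]
    rw [r0, r1, e1, e2]
    simpa using hbad
  rcases bad_mem (by norm_num) F.la F.lb
    ((convex_closedBall v 100000000).segment_subset n1 n2 hq) hG hb' with h1 | h1
  · exact lt_asymm (mem_ofPred.mp hu) (mem_ofPred.mp (lo.segment_subset hv ha h1))
  · exact lt_asymm (mem_ofPred.mp hu) (mem_ofPred.mp (lo.segment_subset hv hb h1))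

theorem stays {X : Type} [TopologicalSpace X] [PreconnectedSpace X] {a v b : X → E3}
    {p : X → ℕ → E3} (ha : Continuous a) (hv : Continuous v) (hb : Continuous b)
    (hp : Continuous p) (F : ∀ x, Fx (a x) (v x) (b x) (p x)) (x0 : X)
    (h : Op (a x0) (v x0) (b x0) (p x0)) (x : X) :
    ∃ w ∈ Icc (0 : ℕ → ℝ) 1, Cl (a x) (v x) (b x) (p x) w := by
  have e : {x | Op (a x) (v x) (b x) (p x)}
      = {x | ∃ w ∈ Icc (0 : ℕ → ℝ) 1, Cl (a x) (v x) (b x) (p x) w} :=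
    Set.ext fun x => ⟨cl_of_op (F x), fun ⟨w, hw, h1⟩ => op_of_cl (F x) hw h1⟩
  have ho : IsOpen {x | Op (a x) (v x) (b x) (p x)} := by
    unfold Op
    simp only [ofPred_and]
    refine (open_HO (cont_sc ha hv hb hp) (cont_sc hb hv ha hp) (cont_zc ha hv hb hp)).inter
      (IsOpen.inter (isOpen_lt ?_ continuous_const) (IsOpen.inter (isOpen_lt continuous_const ?_)
        (isOpen_lt continuous_const ?_)))
    all_goals
      simp only [gr, dt]
      fun_prop
  have hc : IsClosed {x | ∃ w ∈ Icc (0 : ℕ → ℝ) 1, Cl (a x) (v x) (b x) (p x) w} := by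
    refine closed_ex _ ?_
    have ha' := ha.comp (continuous_fst (X := X) (Y := ℕ → ℝ))
    have hv' := hv.comp (continuous_fst (X := X) (Y := ℕ → ℝ))
    have hb' := hb.comp (continuous_fst (X := X) (Y := ℕ → ℝ))
    have hp' := hp.comp (continuous_fst (X := X) (Y := ℕ → ℝ))
    unfold Cl
    simp only [ofPred_and]
    refine (closed_HC (cont_sc ha' hv' hb' hp') (cont_sc hb' hv' ha' hp') (cont_zc ha' hv' hb' hp')
      continuous_snd).inter (IsClosed.inter (isClosed_le ?_ continuous_const)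
        (IsClosed.inter (isClosed_le continuous_const ?_)
          (IsClosed.inter (isClosed_le ?_ continuous_const) (isClosed_eq ?_ ?_))))
    all_goals
      try simp only [pt, dt]
      fun_prop
  have := (IsClopen.eq_univ ⟨e ▸ hc, ho⟩ ⟨x0, h⟩)
  rw [e] at this
  exact eq_univ_iff_forall.mp this x

end Pool.Agent.P.MP_85ac4c_co.Seven
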