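import Pool.Agent.P.MP_85ac4c_co.SevenD

/-!
The locked configuration of a 2-chain and a 7-chain.
-/

set_option autoImplicit false

namespace Pool.Agent.P.MP_85ac4c_co.Seven

open Set
open Nine (toE iz SepD sepD sepA toE_ne dle dge sc zc sl zl gr dt)

/-- the joints of the 7-chain -/
def cz : ℕ → ℤ × ℤ × ℤ
  | 0 => (5530000, -11020000, -18400)
  | 1 => (-20000, 80000, 100)
  | 2 => (214000, 4000, -3000)
  | 3 => (215000, 6000, 6000)
  | 4 => (-4000, 215000, -60)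
  | 5 => (4000, 213000, 40)
  | 6 => (90000, -20000, -1)
  | _ => (-10110000, 7460000, 169)

/-- the joints of the 2-chain -/
def pz : ℕ → ℤ × ℤ × ℤ
  | 0 => (100000000, 0, 0)
  | 1 => (0, 0, 0)
  | _ => (0, 100000000, 0)

/-- separating directions for two links of the 7-chain -/
def ct : ℕ → ℕ → ℤ × ℤ × ℤ
  | 0, 1 => (1, 1, 0) | 0, 2 => (1, 1, 0) | 0, 3 => (1, 1, 0) | 0, 4 => (0, 1, 0)
  | 0, 5 => (1, 1, 0) | 0, 6 => (2, 3, -1000) | 1, 2 => (1, 0, 0) | 1, 3 => (1, 1, 3)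
  | 1, 4 => (0, 1, 0) | 1, 5 => (1, 0, 100) | 1, 6 => (-232, -316, -9751) | 2, 3 => (0, 1, 0)
  | 2, 4 => (0, 1, 0) | 2, 5 => (-1, 0, 0) | 2, 6 => (-1, 0, 0) | 3, 4 => (1, 2, 0)
  | 3, 5 => (2, 0, -100) | 3, 6 => (-1, -1, 0) | 4, 5 => (1, 0, 0) | 4, 6 => (-1, -1, 0)
  | 5, 6 => (-1, -1, 0)
  | _, _ => (0, 0, 0)

/-- separating directions for a link of the 2-chain and a link of the 7-chain -/
def dtb : ℕ → ℕ → ℤ × ℤ × ℤ
  | 0, 0 => (0, 18, -11100) | 0, 1 => (0, 1, 0) | 0, 2 => (0, 1, 0) | 0, 3 => (0, 1, 0)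
  | 0, 4 => (0, 1, 0) | 0, 5 => (0, -1, 10000) | 0, 6 => (0, 3, -100000) | 1, 0 => (1, 0, 300)
  | 1, 1 => (-1, 0, -100) | 1, 2 => (1, 0, 0) | 1, 3 => (-2, 0, 100) | 1, 4 => (1, 0, -80)
  | 1, 5 => (1, 0, 0) | 1, 6 => (17, 0, 1020000)
  | _, _ => (0, 0, 0)

/-- the 7-chain -/
def v0 : Fin 8 → E3 := fun i => toE (cz i)

/-- the 2-chain -/
def p0 : Fin 3 → E3 := fun i => toE (pz i)

theorem cert1 : ∀ i j : Fin 7, i < j → if j.val = i.val + 1 then
    iz (ct i j) (cz i) < iz (ct i j) (cz (i + 1)) ∧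
      iz (ct i j) (cz (i + 1)) < iz (ct i j) (cz (j + 1))
    else SepD (ct i j) (cz i) (cz (i + 1)) (cz j) (cz (j + 1)) := by decide

theorem cert2 : ∀ (i : Fin 2) (j : Fin 7),
    SepD (dtb i j) (pz i) (pz (i + 1)) (cz j) (cz (j + 1)) := by decide

theorem cert3 : ∀ i : Fin 7, iz (cz i - cz (i + 1)) (cz i - cz (i + 1)) ≠ 0 := by decide

theorem adm : Admissible p0 v0 := by
  refine ⟨⟨fun i => ?_, fun i j hij x h1 h2 => ?_⟩, ⟨fun i => toE_ne (cert3 i),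
    fun i j hij x h1 h2 => ?_⟩, fun i j => disjoint_left.mpr fun x h1 h2 => sepD (cert2 i j) h1 h2⟩
  · fin_cases i <;> exact toE_ne (by decide)
  · obtain ⟨rfl, rfl⟩ : i = 0 ∧ j = 1 := by omega
    exact ⟨rfl, sepA (n := (-1, 1, 0)) (by decide) (by decide) h1 h2⟩
  · have := cert1 i j hij
    split_ifs at this with h
    · refine ⟨h, sepA this.1 this.2 h1 ?_⟩
      rw [← h]
      exact h2
    · exact (sepD this h1 h2).elim

/-- the joints as a sequence -/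
def c1 (W : Fin 8 → E3) (i : ℕ) : E3 := W (Fin.ofNat 8 i)

theorem fx {P : Fin 3 → E3} {W : Fin 8 → E3} (h : Admissible P W) (hp : SameLengths p0 P)
    (hv : SameLengths v0 W) : Fx (P 0) (P 1) (P 2) (c1 W) := by
  obtain ⟨-, ⟨-, hs⟩, hd⟩ := h
  have la : dist (P 0) (P 1) = 100000000 := (hp 0).trans (le_antisymm
    (dle (pz 0) (pz 1) 100000000 (by decide)) (dge (pz 0) (pz 1) 100000000 (by decide)))
  have lb : dist (P 2) (P 1) = 100000000 := (dist_comm _ _).trans ((hp 1).trans (le_antisymm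
    (dle (pz 1) (pz 2) 100000000 (by decide)) (dge (pz 1) (pz 2) 100000000 (by decide))))
  have le : ∀ (i : Fin 7) (k : ℕ), iz (cz i - cz (i + 1)) (cz i - cz (i + 1)) ≤ (k : ℤ) ^ 2 →
      dist (W i.castSucc) (W i.succ) ≤ k := fun i k h => (hv i).trans_le (dle _ _ k h)
  have ge : ∀ (i : Fin 7) (k : ℕ), (k : ℤ) ^ 2 ≤ iz (cz i - cz (i + 1)) (cz i - cz (i + 1)) →
      (k : ℝ) ≤ dist (W i.castSucc) (W i.succ) := fun i k h => (dge _ _ k h).trans_eq (hv i).symm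
  have k1 : ∀ i (hi : i < 7), segment ℝ (c1 W i) (c1 W (i + 1)) = link W ⟨i, hi⟩ := by
    intro i hi
    interval_cases i <;> rfl
  refine ⟨la, lb, ge 0 12000000 (by decide), le 0 13000000 (by decide), le 1 260000 (by decide),
    le 2 10000 (by decide), ge 3 300000 (by decide), le 3 310000 (by decide),
    le 4 10000 (by decide), le 5 260000 (by decide), ge 6 12000000 (by decide),
    le 6 13000000 (by decide), fun i hi x hx h => ?_, fun i hi x hx h => ?_,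
    fun i j h1 h2 x hx h => ?_⟩
  · exact disjoint_left.mp (hd 0 ⟨i, hi⟩) ((segment_symm ℝ (P 1) (P 0)).subset h) (k1 i hi ▸ hx)
  · exact disjoint_left.mp (hd 1 ⟨i, hi⟩) h (k1 i hi ▸ hx)
  · have := (hs ⟨i, by omega⟩ ⟨j, h2⟩ (Fin.mk_lt_mk.mpr (by omega)) x (k1 i (by omega) ▸ hx)
      (k1 j h2 ▸ h)).1
    simp only at this
    omega

theorem start : Op (p0 0) (p0 1) (p0 2) (c1 v0) := by
  simp only [Op, HO, TO, Pin, Pout, Gt, Lt, aa, bb, cc, dj, sc, zc, sl, zl, gr, dt, c1, v0, p0,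
    toE, PiLp.sub_apply]
  simp [cz, pz, Fin.ofNat]
  norm_num

theorem locked : ¬ Separable p0 v0 := by
  rintro ⟨P, W, hP, hW, e1, e2, h, n, c, h1, h2⟩
  have F := fun x : Icc (0 : ℝ) 1 => fx (h x x.2).1 (h x x.2).2.1 (h x x.2).2.2
  obtain ⟨w, hw, hc⟩ := stays (X := Icc (0 : ℝ) 1) (a := fun x => P x 0) (v := fun x => P x 1)
    (b := fun x => P x 2) (p := fun x => c1 (W x)) (by fun_prop) (by fun_prop) (by fun_prop)
    (by unfold c1; fun_prop) F ⟨0, le_rfl, zero_le_one⟩ (by simpa only [e1, e2] using start)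
    ⟨1, zero_le_one, le_rfl⟩
  exact no_plane (F ⟨1, zero_le_one, le_rfl⟩) hw hc n c (h1 0) (h1 1) (h1 2) fun i => h2 _

end Pool.Agent.P.MP_85ac4c_co.Seven
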