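import Pool.Agent.P.MP_85ac4c_co.SevenC

/-!
The affine part of the lock of a 2-chain with a 6-chain.  The joints `0, …, 6` have coordinates
`s, t` along the two links of the 2-chain and height `z`; the apex is the origin.  The signs of
47 determinants are kept: if they hold weakly and the chains do not meet, they hold strictly.
-/

set_option autoImplicit false

namespace Pool.Agent.P.MP_85ac4c_co.Six

open Set Nine
open Seven (dj Lin ls lt' lz)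

/-- a minor of two joints -/
def mm (u z : ℕ → ℝ) (i j : ℕ) : ℝ := z j * u i - z i * u j

/-- the oriented volume of four joints -/
def da (s t z : ℕ → ℝ) (i j k l : ℕ) : ℝ :=
  dj s t z i j k - dj s t z i j l + dj s t z i k l - dj s t z j k l

/-- the determinants whose signs are kept -/
def fl (s t z : ℕ → ℝ) : ℕ → ℝ
  | 0 => z 1
  | 1 => -z 2
  | 2 => z 3
  | 3 => -z 4
  | 4 => z 5
  | 5 => mm s z 0 1
  | 6 => mm t z 0 1
  | 7 => mm s z 1 2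
  | 8 => mm s z 2 3
  | 9 => mm t z 2 3
  | 10 => mm s z 4 5
  | 11 => mm t z 4 5
  | 12 => mm t z 5 6
  | 13 => -dj s t z 1 2 3
  | 14 => -mm t z 1 4
  | 15 => -dj s t z 0 1 4
  | 16 => mm t z 0 4
  | 17 => -dj s t z 2 3 4
  | 18 => dj s t z 1 2 4
  | 19 => mm s z 1 4
  | 20 => -z 0
  | 21 => -dj s t z 1 3 4
  | 22 => -mm t z 0 3
  | 23 => dj s t z 4 5 6
  | 24 => -mm t z 1 2
  | 25 => da s t z 1 2 3 4
  | 26 => da s t z 3 4 5 6
  | 27 => mm s z 3 4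
  | 28 => dj s t z 0 3 4
  | 29 => -dj s t z 3 4 6
  | 30 => dj s t z 0 4 5
  | 31 => mm t z 3 4
  | 32 => dj s t z 3 4 5
  | 33 => dj s t z 0 1 5
  | 34 => -mm s z 4 6
  | 35 => da s t z 0 3 4 5
  | 36 => -dj s t z 0 3 5
  | 37 => -dj s t z 3 5 6
  | 38 => -z 6
  | 39 => -da s t z 0 1 5 6
  | 40 => -dj s t z 0 5 6
  | 41 => -mm t z 0 5
  | 42 => -da s t z 0 3 5 6
  | 43 => mm s z 1 6
  | 44 => dj s t z 1 5 6
  | 45 => -mm s z 5 6
  | 46 => -dj s t z 0 1 6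
  | _ => 1

/-- the open pattern -/
def HO (s t z : ℕ → ℝ) : Prop := ∀ k < 47, 0 < fl s t z k

/-- the closed pattern, with witnesses -/
def HC (s t z w : ℕ → ℝ) : Prop :=
  (∀ k < 47, 0 ≤ fl s t z k) ∧
  (ip z 0 (w 0) = 0 ∧ ip z 1 (w 1) = 0 ∧ ip z 2 (w 2) = 0 ∧ ip z 3 (w 3) = 0 ∧
    ip z 4 (w 4) = 0 ∧ ip z 5 (w 5) = 0) ∧
  (0 ≤ ip s 0 (w 0) ∧ 0 ≤ ip t 0 (w 0) ∧ ip s 1 (w 1) ≤ 0 ∧ 0 ≤ ip t 1 (w 1) ∧
    0 ≤ ip s 2 (w 2) ∧ 0 ≤ ip t 2 (w 2) ∧ ip s 3 (w 3) ≤ 0 ∧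
    0 ≤ ip s 4 (w 4) ∧ 0 ≤ ip t 4 (w 4) ∧ 0 ≤ ip s 5 (w 5) ∧ ip t 5 (w 5) ≤ 0)

theorem up {u z : ℕ → ℝ} {i : ℕ} {θ : ℝ} (h : ip z i θ = 0) (hz : z i < z (i + 1)) :
    0 < mm u z i (i + 1) ↔ 0 < ip u i θ := by
  unfold mm
  rw [cr h, mul_pos_iff_of_pos_left (sub_pos.mpr hz)]

theorem dn {u z : ℕ → ℝ} {i : ℕ} {θ : ℝ} (h : ip z i θ = 0) (hz : z (i + 1) < z i) :
    0 < mm u z i (i + 1) ↔ ip u i θ < 0 := by
  unfold mm
  rw [cr h, ← neg_mul_neg, neg_sub, mul_pos_iff_of_pos_left (sub_pos.mpr hz), neg_pos]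

theorem dn' {u z : ℕ → ℝ} {i : ℕ} {θ : ℝ} (h : ip z i θ = 0) (hz : z (i + 1) < z i) :
    0 < -mm u z i (i + 1) ↔ 0 < ip u i θ := by
  unfold mm
  rw [cr h, ← neg_mul, neg_sub, mul_pos_iff_of_pos_left (sub_pos.mpr hz)]

variable {s t z f g k w : ℕ → ℝ}

theorem HC_of_HO (h : HO s t z) : ∃ w ∈ Icc (0 : ℕ → ℝ) 1, HC s t z w := by
  have z0 : z 0 < 0 := neg_pos.mp (h 20 (by norm_num))
  have z1 : 0 < z 1 := h 0 (by norm_num)
  have z2 : z 2 < 0 := neg_pos.mp (h 1 (by norm_num))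
  have z3 : 0 < z 3 := h 2 (by norm_num)
  have z4 : z 4 < 0 := neg_pos.mp (h 3 (by norm_num))
  have z5 : 0 < z 5 := h 4 (by norm_num)
  have z6 : z 6 < 0 := neg_pos.mp (h 38 (by norm_num))
  have q0 := z0.trans z1
  have q1 := z2.trans z1
  have q2 := z2.trans z3
  have q3 := z4.trans z3
  have q4 := z4.trans z5
  have q5 := z6.trans z5
  obtain ⟨w0, b0, e0⟩ := par (mul_neg_of_neg_of_pos z0 z1).le q0.ne
  obtain ⟨w1, b1, e1⟩ := par (mul_neg_of_pos_of_neg z1 z2).le q1.ne'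
  obtain ⟨w2, b2, e2⟩ := par (mul_neg_of_neg_of_pos z2 z3).le q2.ne
  obtain ⟨w3, b3, e3⟩ := par (mul_neg_of_pos_of_neg z3 z4).le q3.ne'
  obtain ⟨w4, b4, e4⟩ := par (mul_neg_of_neg_of_pos z4 z5).le q4.ne
  obtain ⟨w5, b5, e5⟩ := par (mul_neg_of_pos_of_neg z5 z6).le q5.ne'
  refine ⟨fun i => if i = 0 then w0 else if i = 1 then w1 else if i = 2 then w2 else
    if i = 3 then w3 else if i = 4 then w4 else w5, ⟨fun i => ?_, fun i => ?_⟩, ?_⟩
  · simp only [Pi.zero_apply]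
    split_ifs <;> linarith [b0.1, b1.1, b2.1, b3.1, b4.1, b5.1]
  · simp only [Pi.one_apply]
    split_ifs <;> linarith [b0.2, b1.2, b2.2, b3.2, b4.2, b5.2]
  · exact ⟨fun k hk => (h k hk).le, ⟨e0, e1, e2, e3, e4, e5⟩,
      ((up (i := 0) e0 q0).mp (h 5 (by norm_num))).le,
      ((up (i := 0) e0 q0).mp (h 6 (by norm_num))).le,
      ((dn (i := 1) e1 q1).mp (h 7 (by norm_num))).le,
      ((dn' (i := 1) e1 q1).mp (h 24 (by norm_num))).le,
      ((up (i := 2) e2 q2).mp (h 8 (by norm_num))).le,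
      ((up (i := 2) e2 q2).mp (h 9 (by norm_num))).le,
      ((dn (i := 3) e3 q3).mp (h 27 (by norm_num))).le,
      ((up (i := 4) e4 q4).mp (h 10 (by norm_num))).le,
      ((up (i := 4) e4 q4).mp (h 11 (by norm_num))).le,
      ((dn' (i := 5) e5 q5).mp (h 45 (by norm_num))).le,
      ((dn (i := 5) e5 q5).mp (h 12 (by norm_num))).le⟩

theorem cont_fl {X : Type} [TopologicalSpace X] {s t z : X → ℕ → ℝ} (hs : Continuous s)
    (ht : Continuous t) (hz : Continuous z) (k : ℕ) :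
    Continuous fun x => fl (s x) (t x) (z x) k := by
  unfold fl da mm dj
  split <;> fun_prop

theorem open_HO {X : Type} [TopologicalSpace X] {s t z : X → ℕ → ℝ} (hs : Continuous s)
    (ht : Continuous t) (hz : Continuous z) : IsOpen {x | HO (s x) (t x) (z x)} := by
  unfold HO
  simp only [ofPred_forall]
  exact (finite_lt_nat 47).isOpen_biInter fun k _ =>
    isOpen_lt continuous_const (cont_fl hs ht hz k)

theorem closed_HC {X : Type} [TopologicalSpace X] {s t z w : X → ℕ → ℝ} (hs : Continuous s)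
    (ht : Continuous t) (hz : Continuous z) (hw : Continuous w) :
    IsClosed {x | HC (s x) (t x) (z x) (w x)} := by
  unfold HC ip
  simp only [ofPred_and, ofPred_forall]
  refine IsClosed.inter (isClosed_iInter fun k => isClosed_iInter fun _ =>
    isClosed_le continuous_const (cont_fl hs ht hz k)) ?_
  repeat' apply IsClosed.inter
  all_goals first
    | exact isClosed_le (by fun_prop) (by fun_prop)
    | exact isClosed_eq (by fun_prop) (by fun_prop)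

theorem gp {D a b c d : ℝ} (X : ℝ) (hD : 0 ≤ D) (ha : 0 < a) (hb : 0 < b) (hc : 0 ≤ c)
    (hd : 0 ≤ d) (e : D * X = a * b + c * d) : 0 < D := hD.lt_of_ne' fun h => by
  rw [h, zero_mul] at e
  linarith [mul_pos ha hb, mul_nonneg hc hd]

theorem hull3 {a b c d x p q r : ℝ} (ha : 0 ≤ a) (hb : 0 ≤ b) (hc : 0 ≤ c) (hd : 0 < d)
    (e : d = a + b + c) (ex : d * x = a * p + b * q + c * r) (hp : p < x) (hq : q < x)
    (hr : r < x) : False := by
  have h1 := mul_nonneg ha (sub_pos.mpr hp).le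
  have h2 := mul_nonneg hb (sub_pos.mpr hq).le
  have h3 := mul_nonneg hc (sub_pos.mpr hr).le
  rw [e] at ex
  have k1 := (mul_eq_zero.mp (by linarith : a * (x - p) = 0)).resolve_right (sub_pos.mpr hp).ne'
  have k2 := (mul_eq_zero.mp (by linarith : b * (x - q) = 0)).resolve_right (sub_pos.mpr hq).ne'
  have k3 := (mul_eq_zero.mp (by linarith : c * (x - r) = 0)).resolve_right (sub_pos.mpr hr).ne'
  linarith

theorem col {i j : ℕ} {a b c d : ℝ} (ha : 0 ≤ a) (hb : 0 ≤ b) (hc : 0 ≤ c) (hd : 0 ≤ d)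
    (h : 0 < a + b) (e : a + b = c + d)
    (k : ∀ {u : ℕ → ℝ} {α β γ : ℝ}, Lin s t z u α β γ →
      a * u i + b * u (i + 1) = c * u j + d * u (j + 1))
    (n : ∀ x ∈ Icc (0 : ℝ) 1, ∀ y ∈ Icc (0 : ℝ) 1, ¬ Mt s t z i j x y) : False := by
  have hx := mul_div_cancel₀ b h.ne'
  have hy := mul_div_cancel₀ d h.ne'
  have key : ∀ {u : ℕ → ℝ} {α β γ : ℝ}, Lin s t z u α β γ →
      ip u i (b / (a + b)) = ip u j (d / (a + b)) := by
    intro u α β γ L
    apply mul_left_cancel₀ h.ne'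
    unfold ip
    linear_combination k L + (u (i + 1) - u i) * hx - (u (j + 1) - u j) * hy - u j * e
  exact n _ ⟨div_nonneg hb h.le, (div_le_one h).mpr (by linarith)⟩ _
    ⟨div_nonneg hd h.le, (div_le_one h).mpr (by linarith)⟩
    ⟨key (ls s t z), key (lt' s t z), key (lz s t z)⟩

theorem cram {u : ℕ → ℝ} {a b c : ℝ} (L : Lin s t z u a b c) (i j k l : ℕ) :
    dj s t z j k l * u i - dj s t z i k l * u j + dj s t z i j l * u k
      - dj s t z i j k * u l = 0 := by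
  rw [L i, L j, L k, L l]
  unfold dj
  ring

/-- what the lengths and the absence of contacts give -/
structure Env (s t z f g k : ℕ → ℝ) : Prop where
  nb : ∀ i < 6, ∀ θ ∈ Icc (0 : ℝ) 1, ¬ Bad (ip s i θ) (ip t i θ) (ip z i θ)
  dd : ∀ i j, i + 2 ≤ j → j < 6 → ∀ x ∈ Icc (0 : ℝ) 1, ∀ y ∈ Icc (0 : ℝ) 1, ¬ Mt s t z i j x y
  lf : ∃ a b c, Lin s t z f a b c
  lg : ∃ a b c, Lin s t z g a b c
  lk : ∃ a b c, Lin s t z k a b c
  f2 : f 2 < f 1
  f3 : f 3 < f 1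
  f4 : f 4 < f 1
  g3 : g 3 < g 0
  g4 : g 4 < g 0
  g5 : g 5 < g 0
  k3 : k 3 < k 6
  k4 : k 4 < k 6
  k0 : 0 < k 6

theorem HO_of_HC (hw : w ∈ Icc (0 : ℕ → ℝ) 1) (H : HC s t z w) (E : Env s t z f g k) :
    HO s t z := by
  have bw : ∀ i, w i ∈ Icc (0 : ℝ) 1 := fun i => ⟨hw.1 i, hw.2 i⟩
  obtain ⟨h, ⟨e0, e1, e2, e3, e4, e5⟩, s0, t0, s1, t1, s2, t2, s3, s4, t4, s5, t5⟩ := H
  obtain ⟨_, _, _, lf⟩ := E.lf
  obtain ⟨_, _, _, lg⟩ := E.lg
  obtain ⟨_, _, _, lk⟩ := E.lk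
  have ss : ∀ i < 6, ip z i (w i) = 0 → 0 ≤ ip t i (w i) → ip s i (w i) ≠ 0 :=
    fun i hi h h1 h2 => E.nb i hi _ (bw i) ⟨h, Or.inl ⟨h2, h1⟩⟩
  have st : ∀ i < 6, ip z i (w i) = 0 → 0 ≤ ip s i (w i) → ip t i (w i) ≠ 0 :=
    fun i hi h h1 h2 => E.nb i hi _ (bw i) ⟨h, Or.inr ⟨h2, h1⟩⟩
  have j := fun i (hi : i < 5) => @joint s t z i (E.nb i (by omega)) (E.nb (i + 1) (by omega)) _ _
    (bw i) (bw (i + 1))
  have w0 : 0 ≤ z 1 := h 0 (by norm_num)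
  have w1 : 0 ≤ -z 2 := h 1 (by norm_num)
  have w2 : 0 ≤ z 3 := h 2 (by norm_num)
  have w3 : 0 ≤ -z 4 := h 3 (by norm_num)
  have w4 : 0 ≤ z 5 := h 4 (by norm_num)
  have w5 : 0 ≤ mm s z 0 1 := h 5 (by norm_num)
  have w6 : 0 ≤ mm t z 0 1 := h 6 (by norm_num)
  have w7 : 0 ≤ mm s z 1 2 := h 7 (by norm_num)
  have w8 : 0 ≤ mm s z 2 3 := h 8 (by norm_num)
  have w9 : 0 ≤ mm t z 2 3 := h 9 (by norm_num)
  have w10 : 0 ≤ mm s z 4 5 := h 10 (by norm_num)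
  have w11 : 0 ≤ mm t z 4 5 := h 11 (by norm_num)
  have w12 : 0 ≤ mm t z 5 6 := h 12 (by norm_num)
  have w13 : 0 ≤ -dj s t z 1 2 3 := h 13 (by norm_num)
  have w14 : 0 ≤ -mm t z 1 4 := h 14 (by norm_num)
  have w15 : 0 ≤ -dj s t z 0 1 4 := h 15 (by norm_num)
  have w16 : 0 ≤ mm t z 0 4 := h 16 (by norm_num)
  have w17 : 0 ≤ -dj s t z 2 3 4 := h 17 (by norm_num)
  have w18 : 0 ≤ dj s t z 1 2 4 := h 18 (by norm_num)
  have w19 : 0 ≤ mm s z 1 4 := h 19 (by norm_num)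
  have w20 : 0 ≤ -z 0 := h 20 (by norm_num)
  have w21 : 0 ≤ -dj s t z 1 3 4 := h 21 (by norm_num)
  have w22 : 0 ≤ -mm t z 0 3 := h 22 (by norm_num)
  have w23 : 0 ≤ dj s t z 4 5 6 := h 23 (by norm_num)
  have w24 : 0 ≤ -mm t z 1 2 := h 24 (by norm_num)
  have w25 : 0 ≤ da s t z 1 2 3 4 := h 25 (by norm_num)
  have w26 : 0 ≤ da s t z 3 4 5 6 := h 26 (by norm_num)
  have w27 : 0 ≤ mm s z 3 4 := h 27 (by norm_num)
  have w28 : 0 ≤ dj s t z 0 3 4 := h 28 (by norm_num)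
  have w29 : 0 ≤ -dj s t z 3 4 6 := h 29 (by norm_num)
  have w30 : 0 ≤ dj s t z 0 4 5 := h 30 (by norm_num)
  have w31 : 0 ≤ mm t z 3 4 := h 31 (by norm_num)
  have w32 : 0 ≤ dj s t z 3 4 5 := h 32 (by norm_num)
  have w33 : 0 ≤ dj s t z 0 1 5 := h 33 (by norm_num)
  have w34 : 0 ≤ -mm s z 4 6 := h 34 (by norm_num)
  have w35 : 0 ≤ da s t z 0 3 4 5 := h 35 (by norm_num)
  have w36 : 0 ≤ -dj s t z 0 3 5 := h 36 (by norm_num)
  have w37 : 0 ≤ -dj s t z 3 5 6 := h 37 (by norm_num)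
  have w38 : 0 ≤ -z 6 := h 38 (by norm_num)
  have w39 : 0 ≤ -da s t z 0 1 5 6 := h 39 (by norm_num)
  have w40 : 0 ≤ -dj s t z 0 5 6 := h 40 (by norm_num)
  have w41 : 0 ≤ -mm t z 0 5 := h 41 (by norm_num)
  have w42 : 0 ≤ -da s t z 0 3 5 6 := h 42 (by norm_num)
  have w43 : 0 ≤ mm s z 1 6 := h 43 (by norm_num)
  have w44 : 0 ≤ dj s t z 1 5 6 := h 44 (by norm_num)
  have w45 : 0 ≤ -mm s z 5 6 := h 45 (by norm_num)
  have w46 : 0 ≤ -dj s t z 0 1 6 := h 46 (by norm_num)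
  have p0 := w0.lt_of_ne' (j 0 (by norm_num) e0 e1 (Or.inl ⟨s0, t0, Or.inl s1⟩))
  have p1 := w1.lt_of_ne' (neg_ne_zero.mpr (j 1 (by norm_num) e1 e2 (Or.inr ⟨s2, t2, Or.inl s1⟩)))
  have p2 := w2.lt_of_ne' (j 2 (by norm_num) e2 e3 (Or.inl ⟨s2, t2, Or.inl s3⟩))
  have p3 := w3.lt_of_ne' (neg_ne_zero.mpr (j 3 (by norm_num) e3 e4 (Or.inr ⟨s4, t4, Or.inl s3⟩)))
  have p4 := w4.lt_of_ne' (j 4 (by norm_num) e4 e5 (Or.inl ⟨s4, t4, Or.inr t5⟩))
  have q0 : z 0 < z 1 := by linarith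
  have q1 : z 2 < z 1 := by linarith
  have q2 : z 2 < z 3 := by linarith
  have q4 : z 4 < z 5 := by linarith
  have q5 : z 6 < z 5 := by linarith
  have p5 : 0 < mm s z 0 1 := (up e0 q0).mpr (s0.lt_of_ne' (ss 0 (by norm_num) e0 t0))
  have p6 : 0 < mm t z 0 1 := (up e0 q0).mpr (t0.lt_of_ne' (st 0 (by norm_num) e0 s0))
  have p7 : 0 < mm s z 1 2 := (dn e1 q1).mpr (s1.lt_of_ne (ss 1 (by norm_num) e1 t1))
  have p8 : 0 < mm s z 2 3 := (up e2 q2).mpr (s2.lt_of_ne' (ss 2 (by norm_num) e2 t2))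
  have p9 : 0 < mm t z 2 3 := (up e2 q2).mpr (t2.lt_of_ne' (st 2 (by norm_num) e2 s2))
  have p10 : 0 < mm s z 4 5 := (up e4 q4).mpr (s4.lt_of_ne' (ss 4 (by norm_num) e4 t4))
  have p11 : 0 < mm t z 4 5 := (up e4 q4).mpr (t4.lt_of_ne' (st 4 (by norm_num) e4 s4))
  have p12 : 0 < mm t z 5 6 := (dn e5 q5).mpr (t5.lt_of_ne (st 5 (by norm_num) e5 s5))
  have p13 := gp (-z 2) w13 p7 p9 w24 w8 (by unfold dj mm; ring)
  have p14 := gp (-z 0) w14 p6 p3 w0 w16 (by unfold mm; ring)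
  have p15 := gp (z 1) w15 p5 p14 w6 w19 (by unfold dj mm; ring)
  have p16 := gp (mm t z 1 5) w16 p6 p11 w41 w14 (by unfold mm; ring)
  have p17 : 0 < -dj s t z 2 3 4 := by
    unfold da at w25
    linarith
  have p18 := gp (mm t z 1 3) w18 p13 p14 w24 w21 (by unfold dj mm; ring)
  have p19 := gp (-dj s t z 0 1 2) w19 p15 p7 w18 w5 (by unfold dj mm; ring)
  have p20 := gp (mm t z 1 3) w20 p6 p2 w22 w0 (by unfold mm; ring)
  have p21 := gp (-dj s t z 0 2 4) w21 p15 p17 w18 w28 (by unfold dj; ring)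
  have p22 := gp (-z 4) w22 p16 p2 w20 w31 (by unfold mm; ring)
  have p23 := gp (z 5) w23 p10 p12 w11 w45 (by unfold dj mm; ring)
  have p24 := gp (mm s z 1 4) w24 p18 p0 w7 w14 (by unfold dj mm; ring)
  have p25 := w25.lt_of_ne' fun e => hull3 w21 w18 w13 p17 (by unfold da at e; linarith)
    (by linarith [cram lf 1 2 3 4]) E.f2 E.f3 E.f4
  have p26 := w26.lt_of_ne' fun e => col (i := 3) (j := 5) w23 w37 w29 w32 (by linarith)
    (by unfold da at e; linarith) (fun L => by linarith [cram L 3 4 5 6])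
    (E.dd 3 5 (by norm_num) (by norm_num))
  have p27 := gp (mm t z 2 3) w27 p17 p2 w31 w8 (by unfold dj mm; ring)
  have p28 := gp (-mm t z 1 4) w28 p16 p21 w15 w31 (by unfold dj mm; ring)
  have p29 := w29.lt_of_ne' fun e => by
    have := cram lk 3 4 5 6
    rw [neg_eq_zero.mp e] at this
    exact hull3 (d := dj s t z 3 4 5) w23 w37 w26 (by unfold da at w26; linarith)
      (by unfold da; linarith) (by linarith) E.k3 E.k4 E.k0
  have p30 := gp (mm t z 3 4) w30 p28 p11 w16 w32 (by unfold dj mm; ring)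
  have p31 := gp (dj s t z 0 4 5) w31 p28 p11 w32 w16 (by unfold dj mm; ring)
  have p32 := gp (da s t z 0 4 5 6) w32 p26 p30 w35 w23 (by unfold da dj; ring)
  have p33 := gp (mm t z 0 4) w33 p6 p30 w15 w41 (by unfold dj mm; ring)
  have p34 := gp (dj s t z 3 4 5) w34 p29 p10 w23 w27 (by unfold dj mm; ring)
  have p35 := w35.lt_of_ne' fun e => hull3 w30 w36 w28 p32 (by unfold da at e; linarith)
    (by linarith [cram lg 0 3 4 5]) E.g3 E.g4 E.g5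
  have p36 := gp (mm t z 0 4) w36 p22 p30 w28 w41 (by unfold dj mm; ring)
  have p37 := gp (dj s t z 0 4 5) w37 p36 p23 w32 w40 (by unfold dj; ring)
  have p38 := gp (mm s z 4 5) w38 p34 p4 w45 w3 (by unfold mm; ring)
  have p39 := w39.lt_of_ne' fun e => col (i := 0) (j := 5) w44 w40 w46 w33 (by
    unfold da at e; linarith) (by unfold da at e; linarith)
    (fun L => by linarith [cram L 0 1 5 6]) (E.dd 0 5 (by norm_num) (by norm_num))
  have p40 := gp (-da s t z 0 1 3 5) w40 p39 p36 w42 w33 (by unfold da dj; ring)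
  have p41 := gp (dj s t z 4 5 6) w41 p30 p12 w40 w11 (by unfold dj mm; ring)
  have p42 := gp (dj s t z 3 4 5) w42 p35 p37 w36 w26 (by unfold da dj; ring)
  have p43 := gp (-z 4) w43 p19 p38 w0 w34 (by unfold mm; ring)
  have p44 := gp (-mm s z 0 6) w44 p43 p40 w46 w45 (by unfold dj mm; ring)
  have p45 := gp (dj s t z 1 4 6) w45 p44 p34 w23 w43 (by unfold dj mm; ring)
  have p46 := gp (-mm s z 1 5) w46 p33 p43 w5 w44 (by unfold dj mm; ring)
  intro k hk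
  interval_cases k
  exacts [p0, p1, p2, p3, p4, p5, p6, p7, p8, p9, p10, p11, p12, p13, p14, p15, p16, p17, p18,
    p19, p20, p21, p22, p23, p24, p25, p26, p27, p28, p29, p30, p31, p32, p33, p34, p35, p36, p37,
    p38, p39, p40, p41, p42, p43, p44, p45, p46]

/-- the apex lies in the convex hull of the inner joints -/
theorem hullv {a b c : ℝ} (h : HO s t z) (L : Lin s t z f a b c)
    (hf : ∀ i, 1 ≤ i → i ≤ 5 → f i < 0) : False := by
  have z1 : 0 < z 1 := h 0 (by norm_num)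
  have z2 : 0 < -z 2 := h 1 (by norm_num)
  have z3 : 0 < z 3 := h 2 (by norm_num)
  have z4 : 0 < -z 4 := h 3 (by norm_num)
  have z5 : 0 < z 5 := h 4 (by norm_num)
  have s1 : 0 < mm s z 1 2 := h 7 (by norm_num)
  have t1 : 0 < -mm t z 1 2 := h 24 (by norm_num)
  have s3 : 0 < mm s z 3 4 := h 27 (by norm_num)
  have t3 : 0 < mm t z 3 4 := h 31 (by norm_num)
  have s4 : 0 < mm s z 4 5 := h 10 (by norm_num)
  have t4 : 0 < mm t z 4 5 := h 11 (by norm_num)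
  have d : 0 < dj s t z 3 4 5 := h 32 (by norm_num)
  have f1 := neg_pos.mpr (hf 1 (by norm_num) (by norm_num))
  have f2 := neg_pos.mpr (hf 2 (by norm_num) (by norm_num))
  have f3 := neg_pos.mpr (hf 3 (by norm_num) (by norm_num))
  have f4 := neg_pos.mpr (hf 4 (by norm_num) (by norm_num))
  have f5 := neg_pos.mpr (hf 5 (by norm_num) (by norm_num))
  refine (add_pos (add_pos (mul_pos (mul_pos z4 d) (add_pos (mul_pos z1 f2) (mul_pos z2 f1)))
    (mul_pos (add_pos (mul_pos s4 t1) (mul_pos t4 s1)) (add_pos (mul_pos z3 f4) (mul_pos z4 f3))))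
    (mul_pos (add_pos (mul_pos s1 t3) (mul_pos t1 s3))
      (add_pos (mul_pos z5 f4) (mul_pos z4 f5)))).ne' ?_
  rw [L 1, L 2, L 3, L 4, L 5]
  unfold dj mm
  ring

end Pool.Agent.P.MP_85ac4c_co.Six
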