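import Pool.Agent.P.MP_85ac4c_co.SixA
import Pool.Agent.P.MP_85ac4c_co.SevenD

/-!
The metric part of the lock of a 2-chain with a 6-chain, and the locked configuration.
-/

set_option autoImplicit false

namespace Pool.Agent.P.MP_85ac4c_co.Six

open Set
open Nine (toE iz SepD sepD sepA toE_ne dle dge sc zc sl zl gr dt pt dt_self gr_nonneg pt_mem
  sc_pt zc_pt bad_mem mt_eq recon cont_sc cont_zc closed_ex)
open Seven (dj fwd lin dt_sub)

/-- what is kept along a motion -/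
structure Fx (a v b : E3) (p : ℕ → E3) : Prop where
  la : dist a v = 5000
  lb : dist b v = 5000
  l0 : 1000 ≤ dist (p 0) (p 1)
  l0' : dist (p 0) (p 1) ≤ 1100
  l1 : 255 ≤ dist (p 1) (p 2)
  l1' : dist (p 1) (p 2) ≤ 256
  l2 : dist (p 2) (p 3) ≤ 204
  l3 : dist (p 3) (p 4) ≤ 46
  l4 : dist (p 4) (p 5) ≤ 451
  l5 : 1300 ≤ dist (p 5) (p 6)
  l5' : dist (p 5) (p 6) ≤ 1400
  na : ∀ i < 6, ∀ x ∈ segment ℝ (p i) (p (i + 1)), x ∉ segment ℝ v a
  nb : ∀ i < 6, ∀ x ∈ segment ℝ (p i) (p (i + 1)), x ∉ segment ℝ v b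
  dd : ∀ i j, i + 2 ≤ j → j < 6 → ∀ x ∈ segment ℝ (p i) (p (i + 1)),
    x ∉ segment ℝ (p j) (p (j + 1))

/-- the open invariant -/
def Op (a v b : E3) (p : ℕ → E3) : Prop :=
  HO (sc a v b p) (sc b v a p) (zc a v b p) ∧ dist (p 5) v < 1000 ∧ 0 < gr (a - v) (b - v)

/-- the closed invariant -/
def Cl (a v b : E3) (p : ℕ → E3) (w : ℕ → ℝ) : Prop :=
  HC (sc a v b p) (sc b v a p) (zc a v b p) w ∧ dist (p 5) v ≤ 1000 ∧
    w 6 + w 7 + w 8 = 1 ∧ w 6 • (pt p 0 (w 0) - v) = w 7 • (a - v) + w 8 • (b - v) ∧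
    w 9 + w 10 + w 11 = 1 ∧ w 9 • (pt p 1 (w 1) - v) = w 10 • (v - a) + w 11 • (b - v)

variable {a v b : E3} {p : ℕ → E3} {w : ℕ → ℝ}

theorem Fx.d5 (F : Fx a v b p) : ∀ i, 1 ≤ i → i ≤ 5 → dist (p i) (p 5) ≤ 957 := by
  have q3 := dist_triangle (p 3) (p 4) (p 5)
  have q2 := dist_triangle (p 2) (p 3) (p 5)
  have q1 := dist_triangle (p 1) (p 2) (p 5)
  intro i h1 h2
  interval_cases i <;> linarith [F.l1', F.l2, F.l3, F.l4, dist_self (p 5)]

theorem near_seg (F : Fx a v b p) (h : dist (p 5) v ≤ 1000) {i : ℕ} (hi : i < 6) {θ : ℝ}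
    (hθ : θ ∈ Icc (0 : ℝ) 1) : dist (pt p i θ) v ≤ 5000 := by
  have k : ∀ i < 7, dist (p i) v ≤ 5000 := by
    intro i hi
    rcases Nat.eq_zero_or_pos i with rfl | h0
    · linarith [dist_triangle (p 0) (p 1) v, dist_triangle (p 1) (p 5) v,
        F.d5 1 (by norm_num) (by norm_num), F.l0']
    · rcases Nat.lt_or_ge 5 i with h6 | h6
      · obtain rfl : i = 6 := by omega
        linarith [dist_triangle_left (p 6) v (p 5), F.l5']
      · linarith [F.d5 i h0 h6, dist_triangle (p i) (p 5) v]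
  exact (convex_closedBall v 5000).segment_subset (k i (by omega)) (k (i + 1) (by omega))
    (pt_mem p i hθ)

theorem onray {q : E3} {c x : ℝ} (hb : dist b v = 5000) (hq : dist q v ≤ 5000) (hc : 0 ≤ c)
    (hx : 0 ≤ x) (h1 : c + x = 1) (h : c • (q - v) = x • (b - v)) : q ∈ segment ℝ v b := by
  have h2 := congrArg norm h
  rw [norm_smul, norm_smul, Real.norm_of_nonneg hc, Real.norm_of_nonneg hx, ← dist_eq_norm,
    ← dist_eq_norm, hb] at h2
  have h3 : x ≤ c := by linarith [mul_le_mul_of_nonneg_left hq hc]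
  have h4 : 0 < c := by linarith
  rw [segment_eq_image']
  refine ⟨x / c, ⟨div_nonneg hx hc, (div_le_one h4).mpr h3⟩, ?_⟩
  simp only
  rw [div_eq_inv_mul, mul_smul, ← h, smul_smul, inv_mul_cancel₀ h4.ne', one_smul, add_sub_cancel]

theorem gr_pos (F : Fx a v b p) (hw : w ∈ Icc (0 : ℕ → ℝ) 1) (h : Cl a v b p w) :
    0 < gr (a - v) (b - v) := by
  obtain ⟨-, hn, e0, k0, e1, k1⟩ := h
  have bw : ∀ i, w i ∈ Icc (0 : ℝ) 1 := fun i => ⟨hw.1 i, hw.2 i⟩
  refine lt_of_le_of_ne (gr_nonneg _ _) fun h => ?_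
  have hA := dt_self (a - v)
  have hB := dt_self (b - v)
  rw [← dist_eq_norm, F.la] at hA
  rw [← dist_eq_norm, F.lb] at hB
  unfold gr at h
  rw [hA, hB] at h
  have h3 : (dt (a - v) (b - v) + 5000 ^ 2) * (dt (a - v) (b - v) - 5000 ^ 2) = 0 := by linarith
  rcases mul_eq_zero.mp h3 with h3 | h3
  · have h4 : (b - v) - (v - a) = 0 := by
      rw [← norm_eq_zero, ← pow_eq_zero_iff two_ne_zero, ← dt_self]
      simp only [dt, PiLp.sub_apply] at hA hB h3 ⊢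
      linarith
    rw [← sub_eq_zero.mp h4, ← add_smul] at k1
    exact F.nb 1 (by norm_num) _ (pt_mem p 1 (bw 1)) (onray F.lb (near_seg F hn (by norm_num)
      (bw 1)) (bw 9).1 (add_nonneg (bw 10).1 (bw 11).1) (by linarith) k1)
  · have h4 : (b - v) - (a - v) = 0 := by
      rw [← norm_eq_zero, ← pow_eq_zero_iff two_ne_zero, ← dt_self]
      simp only [dt, PiLp.sub_apply] at hA hB h3 ⊢
      linarith
    rw [← sub_eq_zero.mp h4, ← add_smul] at k0
    exact F.nb 0 (by norm_num) _ (pt_mem p 0 (bw 0)) (onray F.lb (near_seg F hn (by norm_num)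
      (bw 0)) (bw 6).1 (add_nonneg (bw 7).1 (bw 8).1) (by linarith) k0)

theorem dt_zero (x : E3) : dt x (v - v) = 0 := by simp [dt]

theorem op_of_cl (F : Fx a v b p) (hw : w ∈ Icc (0 : ℕ → ℝ) 1) (h : Cl a v b p w) :
    Op a v b p := by
  have hG := gr_pos F hw h
  have q24 := dist_triangle (p 2) (p 3) (p 4)
  have q13 := dist_triangle (p 1) (p 2) (p 3)
  have q14 := dist_triangle (p 1) (p 2) (p 4)
  have c := fun i j => dist_comm (p i) (p j)
  have z := fun i => dist_self (p i)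
  have ⟨l0, l1, l1', l2, l3, l5⟩ : _ ∧ _ ∧ _ ∧ _ ∧ _ ∧ _ := ⟨F.l0, F.l1, F.l1', F.l2, F.l3, F.l5⟩
  have ho : HO (sc a v b p) (sc b v a p) (zc a v b p) := by
    refine HO_of_HC hw h.1 ⟨fun i hi θ hθ hb => ?_, fun i j h1 h2 x hx y hy hm => ?_,
      ⟨_, _, _, lin hG (p 1 - p 2)⟩, ⟨_, _, _, lin hG (p 0 - p 1)⟩, ⟨_, _, _, lin hG (p 6 - p 5)⟩,
      fwd v (by linarith [z 1, z 2, c 1 2]), fwd v (by linarith [z 1, c 2 3, c 1 2]),
      fwd v (by linarith [z 1, c 2 4, c 1 2]), fwd v (by linarith [z 0, c 1 3, c 0 1]),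
      fwd v (by linarith [z 0, c 1 4, c 0 1]),
      fwd v (by linarith [z 0, c 1 5, c 0 1, F.d5 1 (by norm_num) (by norm_num)]),
      fwd v (by linarith [z 6, F.d5 3 (by norm_num) (by norm_num)]),
      fwd v (by linarith [z 6, F.d5 4 (by norm_num) (by norm_num)]),
      (dt_zero _).ge.trans_lt (fwd v (by linarith [z 6, h.2.1, dist_comm v (p 5)]))⟩
    · rw [sc_pt, sc_pt, zc_pt] at hb
      rcases bad_mem (by norm_num) F.la F.lb (near_seg F h.2.1 hi hθ) hG hb with h1 | h1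
      · exact F.na i hi _ (pt_mem p i hθ) h1
      · exact F.nb i hi _ (pt_mem p i hθ) h1
    · exact F.dd i j h1 h2 _ (pt_mem p i hx) (mt_eq hG hm ▸ pt_mem p j hy)
  refine ⟨ho, not_le.mp fun hn => hullv ho (lin hG (v - p 5)) fun i h1 h2 => ?_, hG⟩
  exact (fwd v (by linarith [F.d5 i h1 h2, dist_self v])).trans_eq (dt_zero _)

theorem nrm {G S T : ℝ} (hG : 0 < G) (hS : 0 ≤ S) (hT : 0 ≤ T) {q A B : E3}
    (h : G • q = S • A + T • B) : ∃ c ∈ Icc (0 : ℝ) 1, ∃ x ∈ Icc (0 : ℝ) 1, ∃ y ∈ Icc (0 : ℝ) 1,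
      c + x + y = 1 ∧ c • q = x • A + y • B := by
  have hN : 0 < G + S + T := by linarith
  refine ⟨G / (G + S + T), ⟨div_nonneg hG.le hN.le, (div_le_one hN).mpr (by linarith)⟩,
    S / (G + S + T), ⟨div_nonneg hS hN.le, (div_le_one hN).mpr (by linarith)⟩,
    T / (G + S + T), ⟨div_nonneg hT hN.le, (div_le_one hN).mpr (by linarith)⟩, ?_, ?_⟩
  · rw [← add_div, ← add_div, div_self hN.ne']
  · simp only [div_eq_inv_mul, mul_smul]
    rw [h, smul_add]

theorem cl_of_op (h : Op a v b p) : ∃ w ∈ Icc (0 : ℕ → ℝ) 1, Cl a v b p w := by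
  obtain ⟨ho, hn, hG⟩ := h
  obtain ⟨w, hw, hc⟩ := HC_of_HO ho
  have ⟨_, ⟨e0, e1, _⟩, s0, t0, s1, t1, _⟩ := hc
  rw [zc_pt] at e0 e1
  rw [sc_pt] at s0 t0 s1 t1
  obtain ⟨c0, bc0, x0, bx0, y0, by0, k0, m0⟩ := nrm hG s0 t0 (recon _ _ _ e0)
  obtain ⟨c1, bc1, x1, bx1, y1, by1, k1, m1⟩ := nrm (A := v - a) hG (neg_nonneg.mpr s1) t1
    ((recon _ _ _ e1).trans (by rw [neg_smul, ← smul_neg, neg_sub]))
  refine ⟨fun i => if i = 6 then c0 else if i = 7 then x0 else if i = 8 then y0 else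
    if i = 9 then c1 else if i = 10 then x1 else if i = 11 then y1 else w i,
    ⟨fun i => ?_, fun i => ?_⟩, hc, hn.le, k0, m0, k1, m1⟩
  · dsimp only
    split_ifs
    exacts [bc0.1, bx0.1, by0.1, bc1.1, bx1.1, by1.1, hw.1 i]
  · dsimp only
    split_ifs
    exacts [bc0.2, bx0.2, by0.2, bc1.2, bx1.2, by1.2, hw.2 i]

theorem no_plane (h : Op a v b p) (n : E3) (c : ℝ) (hv : inner ℝ n v < c)
    (hp : ∀ i, c < inner ℝ n (p i)) : False := by
  refine hullv h.1 (lin h.2.2 (-n)) fun i _ _ => ?_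
  have := hp i
  simp only [PiLp.inner_apply, Fin.sum_univ_three, RCLike.inner_apply, conj_trivial] at this hv
  simp only [dt, PiLp.neg_apply, PiLp.sub_apply]
  linarith

theorem stays {X : Type} [TopologicalSpace X] [PreconnectedSpace X] {a v b : X → E3}
    {p : X → ℕ → E3} (ha : Continuous a) (hv : Continuous v) (hb : Continuous b)
    (hp : Continuous p) (F : ∀ x, Fx (a x) (v x) (b x) (p x)) (x0 : X)
    (h : Op (a x0) (v x0) (b x0) (p x0)) (x : X) : Op (a x) (v x) (b x) (p x) := by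
  have e : {x | Op (a x) (v x) (b x) (p x)}
      = {x | ∃ w ∈ Icc (0 : ℕ → ℝ) 1, Cl (a x) (v x) (b x) (p x) w} :=
    Set.ext fun x => ⟨cl_of_op, fun ⟨w, hw, h1⟩ => op_of_cl (F x) hw h1⟩
  have ho : IsOpen {x | Op (a x) (v x) (b x) (p x)} := by
    unfold Op
    simp only [ofPred_and]
    refine (open_HO (cont_sc ha hv hb hp) (cont_sc hb hv ha hp) (cont_zc ha hv hb hp)).inter
      (IsOpen.inter (isOpen_lt (by fun_prop) continuous_const) (isOpen_lt continuous_const ?_))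
    simp only [gr, dt]
    fun_prop
  have hc : IsClosed {x | ∃ w ∈ Icc (0 : ℕ → ℝ) 1, Cl (a x) (v x) (b x) (p x) w} := by
    refine closed_ex _ ?_
    have ha' := ha.comp (continuous_fst (X := X) (Y := ℕ → ℝ))
    have hv' := hv.comp (continuous_fst (X := X) (Y := ℕ → ℝ))
    have hb' := hb.comp (continuous_fst (X := X) (Y := ℕ → ℝ))
    have hp' := hp.comp (continuous_fst (X := X) (Y := ℕ → ℝ))
    unfold Cl
    simp only [ofPred_and]
    refine (closed_HC (cont_sc ha' hv' hb' hp') (cont_sc hb' hv' ha' hp') (cont_zc ha' hv' hb' hp')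
      continuous_snd).inter (IsClosed.inter (isClosed_le ?_ continuous_const)
        (IsClosed.inter (isClosed_eq ?_ continuous_const) (IsClosed.inter (isClosed_eq ?_ ?_)
          (IsClosed.inter (isClosed_eq ?_ continuous_const) (isClosed_eq ?_ ?_)))))
    all_goals
      try simp only [pt]
      fun_prop
  exact eq_univ_iff_forall.mp (IsClopen.eq_univ ⟨e ▸ hc, ho⟩ ⟨x0, h⟩) x

/-- the joints of the 6-chain -/
def cz : ℕ → ℤ × ℤ × ℤ
  | 0 => (1000, -80, -10)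
  | 1 => (-30, 10, 1)
  | 2 => (-200, 200, -5)
  | 3 => (-170, 0, 20)
  | 4 => (-150, -10, -20)
  | 5 => (300, 3, 4)
  | _ => (-1000, -20, -26)

/-- the joints of the 2-chain -/
def pz : ℕ → ℤ × ℤ × ℤ
  | 0 => (5000, 0, 0)
  | 1 => (0, 0, 0)
  | _ => (-4000, 3000, 0)

/-- separating directions for two links of the 6-chain -/
def ct : ℕ → ℕ → ℤ × ℤ × ℤ
  | 0, 1 => (0, 1, 0) | 0, 2 => (0, 1, 1) | 0, 3 => (-1, 0, 0) | 0, 4 => (1, 15, -30)
  | 0, 5 => (5, 100, -300) | 1, 2 => (0, 1, 9) | 1, 3 => (0, -1, 0) | 1, 4 => (0, -1, 0)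
  | 1, 5 => (0, -1, 0) | 2, 3 => (1, 0, 0) | 2, 4 => (1, 0, 0) | 2, 5 => (0, -1, -1)
  | 3, 4 => (1, 0, 0) | 3, 5 => (-1, 100, -30) | 4, 5 => (0, -3, 2)
  | _, _ => (0, 0, 0)

/-- separating directions for a link of the 2-chain and a link of the 6-chain -/
def dtb : ℕ → ℕ → ℤ × ℤ × ℤ
  | 0, 0 => (0, 1, -9) | 0, 1 => (0, 1, 0) | 0, 2 => (0, 1, 1) | 0, 3 => (0, -3, 1)
  | 0, 4 => (0, 3, -2) | 0, 5 => (0, -150, 115) | 1, 0 => (1, 0, 40) | 1, 1 => (-18, -24, -250)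
  | 1, 2 => (3, 4, 30) | 1, 3 => (0, -3, 1) | 1, 4 => (1, 0, -8) | 1, 5 => (1, 0, -40)
  | _, _ => (0, 0, 0)

/-- the 6-chain -/
def v0 : Fin 7 → E3 := fun i => toE (cz i)

/-- the 2-chain -/
def p0 : Fin 3 → E3 := fun i => toE (pz i)

theorem cert1 : ∀ i j : Fin 6, i < j → if j.val = i.val + 1 then
    iz (ct i j) (cz i) < iz (ct i j) (cz (i + 1)) ∧
      iz (ct i j) (cz (i + 1)) < iz (ct i j) (cz (j + 1))
    else SepD (ct i j) (cz i) (cz (i + 1)) (cz j) (cz (j + 1)) := by decide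

theorem cert2 : ∀ (i : Fin 2) (j : Fin 6),
    SepD (dtb i j) (pz i) (pz (i + 1)) (cz j) (cz (j + 1)) := by decide

theorem cert3 : ∀ i : Fin 6, iz (cz i - cz (i + 1)) (cz i - cz (i + 1)) ≠ 0 := by decide

theorem adm : Admissible p0 v0 := by
  refine ⟨⟨fun i => ?_, fun i j hij x h1 h2 => ?_⟩, ⟨fun i => toE_ne (cert3 i),
    fun i j hij x h1 h2 => ?_⟩, fun i j => disjoint_left.mpr fun x h1 h2 => sepD (cert2 i j) h1 h2⟩
  · fin_cases i <;> exact toE_ne (by decide)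
  · obtain ⟨rfl, rfl⟩ : i = 0 ∧ j = 1 := by omega
    exact ⟨rfl, sepA (n := (-1, 1, 0)) (by decide) (by decide) h1 h2⟩
  · have := cert1 i j hij
    split_ifs at this with h
    · refine ⟨h, sepA this.1 this.2 h1 ?_⟩
      rw [← h]
      exact h2
    · exact (sepD this h1 h2).elim

/-- the joints as a sequence -/
def c1 (W : Fin 7 → E3) (i : ℕ) : E3 := W (Fin.ofNat 7 i)

theorem fx {P : Fin 3 → E3} {W : Fin 7 → E3} (h : Admissible P W) (hp : SameLengths p0 P)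
    (hv : SameLengths v0 W) : Fx (P 0) (P 1) (P 2) (c1 W) := by
  obtain ⟨-, ⟨-, hs⟩, hd⟩ := h
  have la : dist (P 0) (P 1) = 5000 := (hp 0).trans (le_antisymm
    (dle (pz 0) (pz 1) 5000 (by decide)) (dge (pz 0) (pz 1) 5000 (by decide)))
  have lb : dist (P 2) (P 1) = 5000 := (dist_comm _ _).trans ((hp 1).trans (le_antisymm
    (dle (pz 1) (pz 2) 5000 (by decide)) (dge (pz 1) (pz 2) 5000 (by decide))))
  have le : ∀ (i : Fin 6) (k : ℕ), iz (cz i - cz (i + 1)) (cz i - cz (i + 1)) ≤ (k : ℤ) ^ 2 →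
      dist (W i.castSucc) (W i.succ) ≤ k := fun i k h => (hv i).trans_le (dle _ _ k h)
  have ge : ∀ (i : Fin 6) (k : ℕ), (k : ℤ) ^ 2 ≤ iz (cz i - cz (i + 1)) (cz i - cz (i + 1)) →
      (k : ℝ) ≤ dist (W i.castSucc) (W i.succ) := fun i k h => (dge _ _ k h).trans_eq (hv i).symm
  have k1 : ∀ i (hi : i < 6), segment ℝ (c1 W i) (c1 W (i + 1)) = link W ⟨i, hi⟩ := by
    intro i hi
    interval_cases i <;> rfl
  refine ⟨la, lb, ge 0 1000 (by decide), le 0 1100 (by decide), ge 1 255 (by decide),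
    le 1 256 (by decide), le 2 204 (by decide), le 3 46 (by decide), le 4 451 (by decide),
    ge 5 1300 (by decide), le 5 1400 (by decide), fun i hi x hx h => ?_, fun i hi x hx h => ?_,
    fun i j h1 h2 x hx h => ?_⟩
  · exact disjoint_left.mp (hd 0 ⟨i, hi⟩) ((segment_symm ℝ (P 1) (P 0)).subset h) (k1 i hi ▸ hx)
  · exact disjoint_left.mp (hd 1 ⟨i, hi⟩) h (k1 i hi ▸ hx)
  · have := (hs ⟨i, by omega⟩ ⟨j, h2⟩ (Fin.mk_lt_mk.mpr (by omega)) x (k1 i (by omega) ▸ hx)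
      (k1 j h2 ▸ h)).1
    simp only at this
    omega

theorem start : Op (p0 0) (p0 1) (p0 2) (c1 v0) := by
  refine ⟨fun k hk => ?_, (dle (cz 5) (pz 1) 999 (by decide)).trans_lt (by norm_num), ?_⟩
  · have es : ∀ u : ℤ × ℤ × ℤ, sl (p0 0 - p0 1) (p0 2 - p0 1) (toE u - p0 1)
        = 15000000000 * (3 * u.1 + 4 * u.2.1) := fun u => by
      simp [sl, dt, p0, toE, pz]
      ring
    have et : ∀ u : ℤ × ℤ × ℤ, sl (p0 2 - p0 1) (p0 0 - p0 1) (toE u - p0 1)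
        = 75000000000 * u.2.1 := fun u => by
      simp [sl, dt, p0, toE, pz]
      ring
    have ez : ∀ u : ℤ × ℤ × ℤ, zl (p0 0 - p0 1) (p0 2 - p0 1) (toE u - p0 1)
        = 15000000 * u.2.2 := fun u => by
      simp [zl, p0, toE, pz]
      ring
    interval_cases k <;> simp only [fl, da, dj, mm, sc, zc, c1, v0, es, et, ez] <;>
      norm_num [cz, Fin.ofNat]
  · simp [gr, dt, p0, toE, pz]
    norm_num

theorem locked : ¬ Separable p0 v0 := by
  rintro ⟨P, W, hP, hW, e1, e2, h, n, c, h1, h2⟩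
  exact no_plane (stays (X := Icc (0 : ℝ) 1) (a := fun x => P x 0) (v := fun x => P x 1)
    (b := fun x => P x 2) (p := fun x => c1 (W x)) (by fun_prop) (by fun_prop) (by fun_prop)
    (by unfold c1; fun_prop) (fun x => fx (h x x.2).1 (h x x.2).2.1 (h x x.2).2.2)
    ⟨0, le_rfl, zero_le_one⟩ (by simpa only [e1, e2] using start) ⟨1, zero_le_one, le_rfl⟩)
    n c (h1 1) fun i => h2 _

end Pool.Agent.P.MP_85ac4c_co.Six
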