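import Pool.Agent.P.MP_85ac4c_co.Model

/-!
Sliding the joint of the short chain along one of its links.
-/

namespace Pool.Agent.P.MP_85ac4c_co

open Set

variable {B A C U W : V}

def cmb (B A C : V) (τ : ℝ × ℝ × ℝ) : V := τ.1 • B + τ.2.1 • A + τ.2.2 • C

theorem I3.inj (h : I3 B A C) : Function.Injective (cmb B A C) := fun τ τ' e => by
  obtain ⟨h1, h2, h3⟩ := h (τ.1 - τ'.1) (τ.2.1 - τ'.2.1) (τ.2.2 - τ'.2.2) (by
    unfold cmb at e
    linear_combination (norm := module) e)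
  exact Prod.ext (sub_eq_zero.1 h1) (Prod.ext (sub_eq_zero.1 h2) (sub_eq_zero.1 h3))

theorem Sk.prop {P Q : V} (h : Sk B A P Q) {τ τ' : ℝ × ℝ × ℝ} {β t β' t' : ℝ}
    (e : cmb B A C τ = β • P + t • Q) (e' : cmb B A C τ' = β' • P + t' • Q) :
    τ'.2.2 • cmb B A C τ = τ.2.2 • cmb B A C τ' := by
  obtain ⟨h1, h2, -⟩ := h (τ'.2.2 * τ.1 - τ.2.2 * τ'.1) (τ'.2.2 * τ.2.1 - τ.2.2 * τ'.2.1)
    (τ.2.2 * β' - τ'.2.2 * β) (τ.2.2 * t' - τ'.2.2 * t) (by
      unfold cmb at e e'
      linear_combination (norm := module) τ'.2.2 • e - τ.2.2 • e')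
  unfold cmb
  linear_combination (norm := module) h1 • B + h2 • A

theorem Sk.ne {P Q : V} (h : Sk B A P Q) {τ : ℝ × ℝ × ℝ} (e : cmb B A C τ ∈ Pl P Q) :
    τ.2.2 ≠ 0 := fun h0 =>
  disjoint_left.1 h.disj ⟨e.1, τ.1, τ.2.1, by rw [cmb, h0, zero_smul, add_zero]⟩ e

theorem Sk.sub {P Q : V} (h : Sk B A P Q) (hi : I3 B A C) :
    (cmb B A C ⁻¹' Pl P Q).Subsingleton := fun τ hτ τ' hτ' => by
  have h0 := h.ne hτ
  obtain ⟨f1, β, t, e⟩ := hτ
  obtain ⟨f2, β', t', e'⟩ := hτ'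
  have h1 := h.prop e e'
  have h2 := congrArg fs h1
  rw [map_smul, map_smul, f1, f2, smul_eq_mul, smul_eq_mul, mul_one, mul_one] at h2
  rw [h2] at h1
  exact hi.inj (smul_right_injective _ h0 h1)

theorem LG.fin (h : LG B A U W) (hi : I3 B A C) : (cmb B A C ⁻¹' Obs U W).Finite := by
  simp only [Obs, Edg, Rs, preimage_union, finite_union]
  exact ⟨⟨⟨((h.h2.sub hi).anti (preimage_mono (seg_sub _ _))).finite,
    ((h.h3.sub hi).anti (preimage_mono (seg_sub _ _))).finite⟩,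
    ((h.h4.sub hi).anti (preimage_mono (seg_sub _ _))).finite⟩,
    ((h.h1.sub hi).anti (preimage_mono (ray_sub _ _))).finite,
    ((h.h5.sub hi).anti (preimage_mono (ray_sub _ _))).finite⟩

theorem fs_obs {z : V} (h : z ∈ Obs U W) : fs z = 1 := by
  rcases h with ((h | h) | h) | h | h <;> exact h.1

/-- the slide in the direction `ε` is blocked -/
def Blk (B A C U W : V) (ε : ℝ) : Prop :=
  ∃ τ τ' : ℝ × ℝ × ℝ, cmb B A C τ ∈ Obs U W ∧ cmb B A C τ' ∈ Obs U W ∧ 0 < τ.2.2 ∧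
    0 < ε * τ.2.1 ∧ ε * τ'.2.1 < 0 ∧ ∃ κ c s : ℝ, 0 < κ ∧ 0 < c ∧ 0 ≤ B + s • A ∧
      cmb B A C τ = c • cmb B A C τ' + κ • (B + s • A)

theorem exit (hB : 0 ≤ B) {D : V} (hD : D ≠ 0) (h0 : fs D = 0) :
    ∃ s : ℝ, 0 ≤ s ∧ 0 ≤ B + s • D ∧ ∃ j, (B + s • D) j = 0 := by
  have hne : (Finset.univ.filter fun j => D j < 0).Nonempty := by
    by_contra hn
    have h : ∀ j, 0 ≤ D j := fun j => not_lt.1 fun hj => hn ⟨j, by simpa using hj⟩
    rw [fs_apply] at h0
    refine hD (funext fun j => ?_)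
    have := h 0; have := h 1; have := h 2; have := h 3
    fin_cases j <;> simp <;> linarith
  obtain ⟨j, hj, hmin⟩ := Finset.exists_min_image _ (fun j => B j / -D j) hne
  have hj' : D j < 0 := by simpa using hj
  have hs : 0 ≤ B j / -D j := div_nonneg (hB j) (by linarith)
  refine ⟨B j / -D j, hs, fun i => ?_, j, ?_⟩
  · simp only [Pi.add_apply, Pi.smul_apply, smul_eq_mul, Pi.zero_apply]
    by_cases hi : D i < 0
    · have := (le_div_iff₀ (by linarith : 0 < -D i)).1 (hmin i (by simpa using hi))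
      linarith
    · have := mul_nonneg hs (not_lt.1 hi)
      have := hB i
      simp only [Pi.zero_apply] at this
      linarith
  · simp only [Pi.add_apply, Pi.smul_apply, smul_eq_mul]
    have := hj'.ne
    field_simp
    ring

theorem slide (hl : LG B A U W) (h : MA B A C U W) (hB : 0 ≤ B) (hA : fs A = 0) {ε : ℝ}
    (hε : ε = 1 ∨ ε = -1) (hn : ¬ Blk B A C U W ε) : Out (B, A, C, U, W) := by
  have hA0 : ε • A ≠ 0 := fun e0 => by
    have := (h.ind 0 ε 0 (by simpa using e0)).2.1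
    rcases hε with rfl | rfl <;> norm_num at this
  obtain ⟨s, hs, hs1, j, hj⟩ := exit hB hA0 (by rw [map_smul, hA, smul_zero])
  rw [smul_smul] at hs1 hj
  set σ := s * ε with hσ
  have conv : ∀ θ : ℝ, 0 ≤ θ → θ ≤ 1 → 0 ≤ B + (θ * σ) • A := fun θ h0 h1 => by
    have : B + (θ * σ) • A = (1 - θ) • B + θ • (B + σ • A) := by module
    rw [this]
    exact add_nonneg (smul_nonneg (by linarith) hB) (smul_nonneg h0 hs1)
  have pair : ∀ τ τ' : ℝ × ℝ × ℝ, cmb B A C τ ∈ Obs U W → cmb B A C τ' ∈ Obs U W → 0 < τ.2.2 →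
      0 < τ'.2.2 → 0 < τ.2.1 → τ'.2.1 < 0 →
      (τ'.2.1 - σ * τ'.1) / τ'.2.2 < (τ.2.1 - σ * τ.1) / τ.2.2 := by
    rintro ⟨z, X, Y⟩ ⟨z', X', Y'⟩ o o' hY hY' hX hX'
    dsimp only at hY hY' hX hX' ⊢
    by_contra hc
    set g := X / Y - X' / Y' with hg
    set k := z / Y - z' / Y' with hk
    have g0 : 0 < g := by
      have := div_pos hX hY
      have := div_neg_of_neg_of_pos hX' hY'
      linarith
    have g1 : g ≤ σ * k := by
      rw [not_lt, sub_div, sub_div, mul_div_assoc, mul_div_assoc] at hc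
      rw [hg, hk]
      linarith
    have g2 : 0 < σ * k := g0.trans_le g1
    have hc' := conv (g / (σ * k)) (div_pos g0 g2).le ((div_le_one g2).2 g1)
    have hσ0 : σ ≠ 0 := fun e0 => by rw [e0, zero_mul] at g2; exact lt_irrefl _ g2
    have hk0 : k ≠ 0 := fun e0 => by rw [e0, mul_zero] at g2; exact lt_irrefl _ g2
    have e1 : k * (g / (σ * k) * σ) = g := by field_simp
    have a1 : z = Y / Y' * z' + Y * k := by rw [hk]; field_simp; ring
    have a2 : X = Y / Y' * X' + Y * g := by rw [hg]; field_simp; ring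
    have a3 : Y = Y / Y' * Y' := by field_simp
    have b1 : z' = Y' / Y * z - Y' * k := by rw [hk]; field_simp; ring
    have b2 : X' = Y' / Y * X - Y' * g := by rw [hg]; field_simp; ring
    have b3 : Y' = Y' / Y * Y := by field_simp
    rcases hε with rfl | rfl
    · have : 0 < k := by
        by_contra hk'
        have := mul_nonneg (show 0 ≤ σ by rw [hσ]; linarith) (neg_nonneg.2 (not_lt.1 hk'))
        linarith
      refine hn ⟨(z, X, Y), (z', X', Y'), o, o', hY, by simpa using hX, by simpa using hX',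
        Y * k, Y / Y', _, by positivity, by positivity, hc', ?_⟩
      unfold cmb
      dsimp only
      linear_combination (norm := module) a1 • B + a2 • A + a3 • C - (Y • e1) • A
    · have : k < 0 := by
        by_contra hk'
        have := mul_nonneg (show 0 ≤ -σ by rw [hσ]; linarith) (not_lt.1 hk')
        linarith
      refine hn ⟨(z', X', Y'), (z, X, Y), o', o, hY', by simpa using hX', by simpa using hX,
        -(Y' * k), Y' / Y, _, neg_pos.2 (mul_neg_of_pos_of_neg hY' this), by positivity, hc', ?_⟩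
      unfold cmb
      dsimp only
      linear_combination (norm := module) b1 • B + b2 • A + b3 • C + (Y' • e1) • A
  have fin := hl.fin h.ind
  obtain ⟨m, m1, m2⟩ := Set.Finite.exists_between'
    (s := (fun τ : ℝ × ℝ × ℝ => (τ.2.1 - σ * τ.1) / τ.2.2) ''
      {τ | cmb B A C τ ∈ Obs U W ∧ 0 < τ.2.2 ∧ τ.2.1 < 0})
    (t := (fun τ : ℝ × ℝ × ℝ => (τ.2.1 - σ * τ.1) / τ.2.2) ''
      {τ | cmb B A C τ ∈ Obs U W ∧ 0 < τ.2.2 ∧ 0 < τ.2.1})
    ((fin.subset fun τ hτ => hτ.1).image _) ((fin.subset fun τ hτ => hτ.1).image _) (by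
      rintro _ ⟨τ', a, rfl⟩ _ ⟨τ, b, rfl⟩
      exact pair τ τ' b.1 a.1 b.2.1 a.2.1 b.2.2 a.2.2)
  have J := join (F := MS) (fun t : ℝ => ((B + (t * σ) • A, A, C + (t * m) • A, U, W) : St))
    zero_le_one (Continuous.continuousOn (by fun_prop)) (fun t ht => by
      refine ⟨by simpa [hA] using h.pos, fun a b c e0 => ?_, h.cg, ?_, ?_⟩
      · obtain ⟨h1, h2, h3⟩ := h.ind a (a * (t * σ) + b + c * (t * m)) c
          (by linear_combination (norm := module) e0)
        exact ⟨h1, by simpa [h1, h3] using h2, h3⟩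
      · refine hl.disj.mono_left ?_
        rintro _ ⟨f1, β, u, -, rfl⟩
        exact ⟨f1, β, β * (t * σ) + u, by module⟩
      · refine disjoint_left.2 ?_
        rintro _ ⟨f1, β, u, hu, rfl⟩ ho
        dsimp only at ho f1
        have e0 : β • (B + (t * σ) • A) + u • (C + (t * m) • A) =
            cmb B A C (β, t * (σ * β + m * u), u) := by
          unfold cmb
          module
        rw [e0] at ho f1
        have hu' : 0 < u := hu.lt_of_ne' fun u0 => disjoint_left.1 hl.disj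
          ⟨f1, β, t * (σ * β + m * u), by rw [cmb, u0, zero_smul, add_zero]⟩ ho
        rcases lt_trichotomy (t * (σ * β + m * u)) 0 with hx | hx | hx
        · have := (div_lt_iff₀ hu').1 (m1 _ ⟨_, ⟨ho, hu', hx⟩, rfl⟩)
          dsimp only at this
          rcases le_total 0 (σ * β + m * u) with hw | hw
          · exact absurd (mul_nonneg ht.1 hw) (not_le.2 hx)
          · have := mul_le_mul_of_nonpos_right ht.2 hw
            linarith
        · exact disjoint_left.1 h.dC ⟨f1, β, u, hu, by rw [cmb, hx, zero_smul, add_zero]⟩ ho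
        · have := (lt_div_iff₀ hu').1 (m2 _ ⟨_, ⟨ho, hu', hx⟩, rfl⟩)
          dsimp only at this
          rcases le_total 0 (σ * β + m * u) with hw | hw
          · have := mul_le_mul_of_nonneg_right ht.2 hw
            linarith
          · exact absurd (mul_nonpos_of_nonneg_of_nonpos ht.1 hw) (not_le.2 hx))
  refine ⟨_, by simpa using J, j, ?_⟩
  exact hj.le

theorem seg_far {i j : Fin 4} (hij : i ≠ j) (h : Sk B A (e i) (e j)) {Z' : V} {κ c s : ℝ}
    (hκ : 0 < κ) (hc : 0 < c) (hZ : 0 ≤ Z') (hB : 0 ≤ B + s • A) :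
    c • Z' + κ • (B + s • A) ∉ Seg (e i) (e j) := by
  rintro ⟨-, β, t, -, -, e0⟩
  refine one_ne_zero (h 1 s (-(B + s • A) i) (-(B + s • A) j) (funext fun k => ?_)).1
  by_cases hi : k = i
  · subst hi
    simp [e, hij]
  by_cases hj : k = j
  · subst hj
    simp [e, hi]
  have h1 := congrFun e0 k
  have h2 := mul_nonneg hc.le (hZ k)
  have h3 := hB k
  simp only [e, Pi.add_apply, Pi.smul_apply, smul_eq_mul, Pi.single_eq_of_ne hi,
    Pi.single_eq_of_ne hj, mul_zero, add_zero, Pi.zero_apply, one_mul] at h1 h3 ⊢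
  nlinarith

theorem edg_nonneg {z : V} (h : z ∈ Edg) : 0 ≤ z := by
  have he : ∀ i, 0 ≤ e i := fun i => Pi.single_nonneg.2 zero_le_one
  rcases h with (h | h) | h <;> obtain ⟨-, β, t, h1, h2, rfl⟩ := h <;>
    exact add_nonneg (smul_nonneg h1 (he _)) (smul_nonneg h2 (he _))

theorem LG.near (h : LG B A U W) {Z Z' : V} {κ c s : ℝ} (hκ : 0 < κ) (hc : 0 < c) (hZ : 0 ≤ Z')
    (hB : 0 ≤ B + s • A) (e0 : Z = c • Z' + κ • (B + s • A)) (ho : Z ∈ Obs U W) :
    Z ∈ Rs U W ∧ 0 ≤ Z := by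
  subst e0
  refine ⟨ho.resolve_left ?_, add_nonneg (smul_nonneg hc.le hZ) (smul_nonneg hκ.le hB)⟩
  rintro ((h1 | h1) | h1)
  · exact seg_far (by decide) h.h2 hκ hc hZ hB h1
  · exact seg_far (by decide) h.h3 hκ hc hZ hB h1
  · exact seg_far (by decide) h.h4 hκ hc hZ hB h1

theorem out_in (h : GP B A C U W) (hp : 0 < fs B) (hB : 0 ≤ B) (hA : fs A = 0) (hC : fs C = 0)
    (H : ∀ τ, cmb B A C τ ∈ Rs U W → 0 ≤ cmb B A C τ) : Out (B, A, C, U, W) := by
  have key : ∀ {A C : V} {ε : ℝ}, LG B A U W →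
      (∀ τ, cmb B A C τ ∈ Rs U W → 0 ≤ cmb B A C τ) → Blk B A C U W ε →
      ∃ τ : ℝ × ℝ × ℝ, cmb B A C τ ∈ Rs U W ∧ 0 < τ.2.2 ∧ 0 < ε * τ.2.1 := by
    rintro A C ε hl H ⟨τ, τ', o, o', hY, hX, -, κ, c, s, hκ, hc, hs, e0⟩
    exact ⟨τ, (hl.near hκ hc (o'.elim edg_nonneg (H τ')) hs e0 o).1, hY, hX⟩
  have sw : ∀ τ : ℝ × ℝ × ℝ, cmb B C A τ = cmb B A C (τ.1, τ.2.2, τ.2.1) := fun τ => by
    unfold cmb
    module
  by_contra hn
  obtain ⟨τ1, r1, y1, x1⟩ := key h.lA H (by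
    by_contra hb
    exact hn (slide h.lA (h.ma hp) hB hA (Or.inl rfl) hb))
  obtain ⟨τ2, r2, y2, x2⟩ := key h.lA H (by
    by_contra hb
    exact hn (slide h.lA (h.ma hp) hB hA (Or.inr rfl) hb))
  obtain ⟨τ3, r3, y3, x3⟩ := key (A := C) (C := A) h.lC (fun τ hτ => by
    rw [sw] at hτ ⊢
    exact H _ hτ) (by
    by_contra hb
    exact hn (slide h.lC (h.swap.ma hp) hB hC (Or.inr rfl) hb).swap)
  rw [sw] at r3
  have s0 := (h.lA.h1.sub h.ind).anti (preimage_mono (ray_sub _ _))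
  have s5 := (h.lA.h5.sub h.ind).anti (preimage_mono (ray_sub _ _))
  have n12 : τ1 ≠ τ2 := fun e0 => by rw [e0] at x1; linarith
  have n13 : τ1 ≠ (τ3.1, τ3.2.2, τ3.2.1) := fun e0 => by rw [e0] at y1; linarith
  have n23 : τ2 ≠ (τ3.1, τ3.2.2, τ3.2.1) := fun e0 => by rw [e0] at y2; linarith
  rcases r1 with r1 | r1 <;> rcases r2 with r2 | r2 <;> rcases r3 with r3 | r3
  all_goals first
    | exact n12 (s0 r1 r2) | exact n12 (s5 r1 r2) | exact n13 (s0 r1 r3) | exact n13 (s5 r1 r3)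
    | exact n23 (s0 r2 r3) | exact n23 (s5 r2 r3)

theorem out_one (h : GP B A C U W) (hp : 0 < fs B) (hB : 0 ≤ B) (hA : fs A = 0) (hC : fs C = 0)
    (H : (cmb B A C ⁻¹' Rs U W).Subsingleton) : Out (B, A, C, U, W) := by
  by_cases hin : ∀ τ, cmb B A C τ ∈ Rs U W → 0 ≤ cmb B A C τ
  · exact out_in h hp hB hA hC hin
  push Not at hin
  obtain ⟨ρ, hρ, hρ'⟩ := hin
  have key : ∀ ε : ℝ, Blk B A C U W ε → ε * ρ.2.1 < 0 := by
    rintro ε ⟨τ, τ', o, o', -, -, hX, κ, c, s, hκ, hc, hs, e0⟩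
    have far : ¬ 0 ≤ cmb B A C τ' := fun hf => by
      obtain ⟨h1, h2⟩ := h.lA.near hκ hc hf hs e0 o
      exact hρ' (H h1 hρ ▸ h2)
    exact H (o'.resolve_left fun he => far (edg_nonneg he)) hρ ▸ hX
  by_contra hn
  have h1 := key 1 (by
    by_contra hb
    exact hn (slide h.lA (h.ma hp) hB hA (Or.inl rfl) hb))
  have h2 := key (-1) (by
    by_contra hb
    exact hn (slide h.lA (h.ma hp) hB hA (Or.inr rfl) hb))
  linarith

/-! ### normalising the directions -/

theorem Sk.shift {D P Q : V} (h : Sk B D P Q) (k : ℝ) : Sk B (D + k • B) P Q :=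
  fun a b c d e0 => by
    obtain ⟨h1, h2, h3⟩ := h (a + b * k) b c d (by linear_combination (norm := module) e0)
    exact ⟨by simpa [h2] using h1, h2, h3⟩

theorem LG.shift {D : V} (h : LG B D U W) (k : ℝ) : LG B (D + k • B) U W :=
  ⟨h.h1.shift k, h.h2.shift k, h.h3.shift k, h.h4.shift k, h.h5.shift k⟩

theorem GP.shift (h : GP B A C U W) (k l : ℝ) : GP B (A + k • B) (C + l • B) U W :=
  ⟨fun a b c e0 => by
    obtain ⟨h1, h2, h3⟩ := h.ind (a + b * k + c * l) b c
      (by linear_combination (norm := module) e0)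
    exact ⟨by simpa [h2, h3] using h1, h2, h3⟩, h.cg, h.lA.shift k, h.lC.shift l⟩

theorem out_nrm (h : GP B A C U W) (hp : 0 < fs B) (hB : 0 ≤ B)
    (H : (∀ τ, cmb B A C τ ∈ Rs U W → 0 ≤ cmb B A C τ) ∨
      (cmb B A C ⁻¹' Rs U W).Subsingleton) : Out (B, A, C, U, W) := by
  set k := -(fs A / fs B)
  set l := -(fs C / fs B)
  have J := join (F := MS) (fun t : ℝ => ((B, A + (t * k) • B, C + (t * l) • B, U, W) : St))
    zero_le_one (Continuous.continuousOn (by fun_prop)) fun t _ => (h.shift _ _).ma hp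
  simp only [zero_mul, zero_smul, add_zero, one_mul] at J
  have hk : fs (A + k • B) = 0 := by
    rw [map_add, map_smul, smul_eq_mul, neg_mul, div_mul_cancel₀ _ hp.ne', add_neg_cancel]
  have hl : fs (C + l • B) = 0 := by
    rw [map_add, map_smul, smul_eq_mul, neg_mul, div_mul_cancel₀ _ hp.ne', add_neg_cancel]
  have e0 : ∀ τ : ℝ × ℝ × ℝ, cmb B (A + k • B) (C + l • B) τ =
      cmb B A C (τ.1 + τ.2.1 * k + τ.2.2 * l, τ.2) := fun τ => by
    unfold cmb
    module
  refine Out.of_join J (H.elim (fun H => out_in (h.shift k l) hp hB hk hl fun τ hτ => ?_)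
    fun H => out_one (h.shift k l) hp hB hk hl fun τ hτ τ' hτ' => (h.shift k l).ind.inj ?_)
  · rw [e0] at hτ ⊢
    exact H _ hτ
  · rw [mem_preimage, e0] at hτ hτ'
    rw [e0, e0, H hτ hτ']

/-! ### removing a crossing outside the tetrahedron -/

theorem remove {k j : Fin 4} {D : V} (h : Sk B A (e k) D) {τ : ℝ × ℝ × ℝ}
    (hτ : cmb B A C τ ∈ Ray (e k) D) (hj : cmb B A C τ j < 0) {s : ℝ} (hs : 0 ≤ s)
    (hs' : 1 + s * cmb B A C τ j < 0) (τ' : ℝ × ℝ × ℝ) :
    cmb (lam j s * B) (lam j s * A) (lam j s * C) τ' ∉ Ray (e k) (lam j s * D) := by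
  rintro ⟨f2, β', t', ht', e2⟩
  have hY := h.ne (ray_sub _ _ hτ)
  obtain ⟨f1, β, t, ht, e1⟩ := hτ
  have hl := lam_pos j hs
  have e3 : cmb (lam j s * B) (lam j s * A) (lam j s * C) τ' = lam j s * cmb B A C τ' := by
    simp only [cmb, mul_add, mul_smul_comm]
  have e4 : cmb B A C τ' = (β' / lam j s k) • e k + t' • D := by
    funext i
    have := congrFun (e3.symm.trans e2) i
    have hi := (hl i).ne'
    refine mul_left_cancel₀ hi ?_
    by_cases hik : i = k
    · subst hik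
      simp only [Pi.add_apply, Pi.smul_apply, smul_eq_mul, Pi.mul_apply] at this ⊢
      rw [this]
      field_simp
    · simp only [e, Pi.add_apply, Pi.smul_apply, smul_eq_mul, Pi.mul_apply,
        Pi.single_eq_of_ne hik] at this ⊢
      rw [this]
      ring
  have p := h.prop e1 e4
  have q := congrArg (fun z => fs (lam j s * z)) p
  simp only [mul_smul_comm, map_smul, smul_eq_mul] at q
  rw [← e3, f2, fs_lam, f1] at q
  have r := (h 0 0 (τ'.2.2 * β - τ.2.2 * (β' / lam j s k)) (τ'.2.2 * t - τ.2.2 * t') (by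
    rw [e1, e4] at p
    linear_combination (norm := module) p)).2.2.2
  have t0 : t = 0 := by
    have hY' : τ'.2.2 ≠ 0 := fun e0 => hY (by rw [← mul_one τ.2.2, ← q, e0, zero_mul])
    have : t = (1 + s * cmb B A C τ j) * t' := by
      refine mul_left_cancel₀ hY' ?_
      linear_combination r - t' * q
    have := mul_nonpos_of_nonpos_of_nonneg hs'.le ht'
    linarith
  rw [t0, zero_smul, add_zero] at e1
  rw [e1, map_smul, fs_e, smul_eq_mul, mul_one] at f1
  rw [e1, f1, one_smul] at hj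
  have he : 0 ≤ e k := Pi.single_nonneg.2 zero_le_one
  exact absurd (he j) (not_le.2 hj)

theorem out_main (h : GP B A C U W) (hp : 0 < fs B) (hB : 0 ≤ B) : Out (B, A, C, U, W) := by
  by_cases hin : ∀ τ, cmb B A C τ ∈ Rs U W → 0 ≤ cmb B A C τ
  · exact out_nrm h hp hB (Or.inl hin)
  push Not at hin
  obtain ⟨ρ, hρ, hρ'⟩ := hin
  obtain ⟨j, hj⟩ : ∃ j, cmb B A C ρ j < 0 := by
    by_contra hc
    push Not at hc
    exact hρ' hc
  set s := 2 / -cmb B A C ρ j with hs
  have hs0 : 0 ≤ s := div_nonneg zero_le_two (by linarith)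
  have hs1 : 1 + s * cmb B A C ρ j < 0 := by
    have := hj.ne
    have : s * cmb B A C ρ j = -2 := by rw [hs]; field_simp
    linarith
  have hl := lam_pos j hs0
  have hp' : 0 < fs B + s * B j := add_pos_of_pos_of_nonneg hp (mul_nonneg hs0 (hB j))
  have g := h.sc hl
  refine Out.of_join (join_lam h j hs0 hp hp') (out_nrm g (by rwa [fs_lam])
    (fun i => mul_nonneg (hl i).le (hB i)) (Or.inr ?_))
  rcases hρ with hρ | hρ
  · refine (g.lA.h5.sub g.ind).anti fun τ hτ => ray_sub _ _ ?_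
    exact hτ.resolve_left (remove h.lA.h1 hρ hj hs0 hs1 τ)
  · refine (g.lA.h1.sub g.ind).anti fun τ hτ => ray_sub _ _ ?_
    exact hτ.resolve_right (remove h.lA.h5 hρ hj hs0 hs1 τ)

end Pool.Agent.P.MP_85ac4c_co
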